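import Pool.Agent.Y254.Ind
set_option autoImplicit false

/-!
# The Kakeya inequality for `q > (n+2)/n`, without loss
-/

open MeasureTheory Set Metric
open scoped ENNReal NNReal

namespace Pool.Agent.Y254
open Pool.Agent.TH705.RR (E vb vb_pos sn sn_sq sn_nonneg sn_le_one)

variable {n : ℕ}

theorem sn_le {e e' : E n} (he : ‖e‖ = 1) (he' : ‖e'‖ = 1) : sn e e' ≤ ‖e - e'‖ := by
  have h1 : ‖e - e'‖ ^ 2 = 2 - 2 * inner ℝ e e' := by
    rw [norm_sub_sq_real, he, he']; ring
  have h2 := sn_sq he he'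
  have h3 := sn_nonneg e e'
  have h4 := norm_nonneg (e - e')
  have h5 : sn e e' ^ 2 ≤ ‖e - e'‖ ^ 2 := by
    rw [h1, h2]
    nlinarith [sq_nonneg (inner ℝ e e' - 1 : ℝ)]
  exact (abs_le_of_sq_le_sq' h5 h4).2

theorem sum_parts {ι D : Type*} [Fintype ι] [DecidableEq D] (κ : ι → D) {β B : ℝ} (hβ : 1 ≤ β)
    (hB : ∀ c ∈ Finset.univ.image κ, (Fintype.card {i // κ i = c} : ℝ) ≤ B) :
    ∑ c ∈ Finset.univ.image κ, (Fintype.card {i // κ i = c} : ℝ) ^ β ≤
      B ^ (β - 1) * Fintype.card ι := by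
  rw [← sum_card_parts κ, Finset.mul_sum]
  apply Finset.sum_le_sum
  intro c hc
  obtain ⟨i, _, hi⟩ := Finset.mem_image.1 hc
  have hpos : 0 < Fintype.card {i // κ i = c} := Fintype.card_pos_iff.2 ⟨⟨i, hi⟩⟩
  have hposr : (0 : ℝ) < Fintype.card {i // κ i = c} := by exact_mod_cast hpos
  calc (Fintype.card {i // κ i = c} : ℝ) ^ β
      = (Fintype.card {i // κ i = c} : ℝ) ^ (β - 1) * Fintype.card {i // κ i = c} := by
        nth_rewrite 3 [← Real.rpow_one (Fintype.card {i // κ i = c} : ℝ)]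
        rw [← Real.rpow_add hposr]
        congr 1
        ring
    _ ≤ _ := by
        gcongr
        exact hB c hc

/-- The integral over the points where the multiplicity is concentrated. -/
theorem parts_int {δ : ℝ} {D : Type} [DecidableEq D] {ι : Type} [Fintype ι] {a e : ι → E n}
    (κ : ι → D) {q β A Q B : ℝ} (hQ : 0 ≤ Q) (hA : 0 ≤ A) (hβ : 1 ≤ β) (hδ : 0 < δ) {G : Set (E n)}
    (hG : ∀ x ∈ G, mult (fun i => tube δ (a i) (e i)) x ^ q ≤ ENNReal.ofReal Q *
      ∑ c ∈ Finset.univ.image κ, pmult (fun i => tube δ (a i) (e i)) κ c x ^ q)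
    (hGm : MeasurableSet G)
    (hI : ∀ c ∈ Finset.univ.image κ, ∫⁻ x, mult (fun i : {i // κ i = c} => tube δ (a i) (e i)) x ^ q ≤
      ENNReal.ofReal (A * (δ ^ (n - 1) * (Fintype.card {i // κ i = c} : ℝ) ^ β)))
    (hB : ∀ c ∈ Finset.univ.image κ, (Fintype.card {i // κ i = c} : ℝ) ≤ B) :
    ∫⁻ x in G, mult (fun i => tube δ (a i) (e i)) x ^ q ≤
      ENNReal.ofReal (Q * A * (δ ^ (n - 1) * (B ^ (β - 1) * Fintype.card ι))) := by
  have hTm : ∀ i, MeasurableSet (tube δ (a i) (e i)) := fun i => tube_meas _ _ _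
  have hpm : ∀ c, Measurable fun x => pmult (fun i => tube δ (a i) (e i)) κ c x ^ q := by
    intro c
    simp only [pmult_eq]
    exact (mult_meas fun i => tube_meas _ _ _).pow_const _
  calc ∫⁻ x in G, mult (fun i => tube δ (a i) (e i)) x ^ q
      ≤ ∫⁻ x in G, ENNReal.ofReal Q *
        ∑ c ∈ Finset.univ.image κ, pmult (fun i => tube δ (a i) (e i)) κ c x ^ q :=
        setLIntegral_mono' hGm hG
    _ ≤ ∫⁻ x, ENNReal.ofReal Q *
        ∑ c ∈ Finset.univ.image κ, pmult (fun i => tube δ (a i) (e i)) κ c x ^ q :=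
        setLIntegral_le_lintegral _ _
    _ = ENNReal.ofReal Q * ∑ c ∈ Finset.univ.image κ,
        ∫⁻ x, pmult (fun i => tube δ (a i) (e i)) κ c x ^ q := by
        rw [lintegral_const_mul _ (Finset.measurable_sum _ fun c _ => hpm c),
          lintegral_finsetSum _ fun c _ => hpm c]
    _ ≤ ENNReal.ofReal Q * ∑ c ∈ Finset.univ.image κ,
        ENNReal.ofReal (A * (δ ^ (n - 1) * (Fintype.card {i // κ i = c} : ℝ) ^ β)) := by
        gcongr with c hc
        simp only [pmult_eq]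
        exact hI c hc
    _ = ENNReal.ofReal (Q * A * (δ ^ (n - 1) * ∑ c ∈ Finset.univ.image κ,
        (Fintype.card {i // κ i = c} : ℝ) ^ β)) := by
        rw [← ENNReal.ofReal_sum_of_nonneg (fun c _ => by positivity), ← ENNReal.ofReal_mul hQ,
          ← Finset.mul_sum, ← Finset.mul_sum]
        congr 1
        ring
    _ ≤ _ := by
        apply ENNReal.ofReal_le_ofReal
        gcongr
        exact sum_parts κ hβ hB

theorem good_all (hn : 3 ≤ n) {q : ℝ} (hq : 1 + 2 / (n : ℝ) < q) :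
    ∃ A : ℝ, 0 < A ∧ ∀ N : ℕ, Good n q (q - 1 / ((n : ℝ) - 1)) A N := by
  have hnr : (3 : ℝ) ≤ n := by exact_mod_cast hn
  have hn0 : (0 : ℝ) < n := by linarith
  have hn1 : (0 : ℝ) < (n : ℝ) - 1 := by linarith
  have hCv := Cv_pos n
  set β : ℝ := q - 1 / ((n : ℝ) - 1) with hβ
  have hβ1 : 1 < β := by
    have h1 : 1 / ((n : ℝ) - 1) ≤ 2 / n := by
      rw [div_le_div_iff₀ hn1 hn0]; linarith
    rw [hβ]; linarith
  have hq0 : 0 < q := by
    have : 0 < 2 / (n : ℝ) := by positivity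
    linarith
  have hq1 : 1 < q := by
    have : 0 < 2 / (n : ℝ) := by positivity
    linarith
  obtain ⟨K, hK1, hK⟩ := Pool.Agent.TH705.RR.count (n := n) (by omega)
  have hsn1 : 1 ≤ Real.sqrt n := by
    rw [Real.one_le_sqrt]; linarith
  set K2 : ℝ := K * Real.sqrt n ^ (n - 1) with hK2
  have hK21 : 1 ≤ K2 := by
    have : 1 ≤ Real.sqrt n ^ (n - 1) := one_le_pow₀ hsn1
    rw [hK2]; nlinarith
  set Q : ℝ := (2 * 3 ^ n) ^ q with hQ
  have hQ1 : 1 ≤ Q := by
    apply Real.one_le_rpow _ hq0.le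
    have : (1 : ℝ) ≤ 3 ^ n := one_le_pow₀ (by norm_num)
    linarith
  set M : ℝ := K2 * (2 * Q) ^ (1 / (β - 1)) with hM
  have hroot : 1 < (2 * Q) ^ (1 / (β - 1)) := Real.one_lt_rpow (by linarith) (by
    have : 0 < β - 1 := by linarith
    positivity)
  have hMK : K2 < M := by rw [hM]; nlinarith
  have hM1 : 1 ≤ M := by linarith
  have hMpow : (K2 / M) ^ (β - 1) * Q = 1 / 2 := by
    have h1 : K2 / M = ((2 * Q) ^ (1 / (β - 1)))⁻¹ := by
      rw [hM]
      field_simp
    have h2 : (0 : ℝ) < β - 1 := by linarith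
    rw [h1, ← Real.rpow_neg (by positivity), ← Real.rpow_mul (by positivity)]
    have h3 : -(1 / (β - 1)) * (β - 1) = -1 := by field_simp
    rw [h3, Real.rpow_neg_one]
    field_simp
  obtain ⟨C3, hC30, hC3⟩ := trans_part hn hq hM1
  set A : ℝ := 2 * C3 + 2 * Cv n * M with hA
  have hA0 : 0 < A := by positivity
  refine ⟨A, hA0, ?_⟩
  intro N
  induction N using Nat.strong_induction_on with
  | _ N ih =>
  rcases le_or_gt (N : ℝ) M with hNM | hNM
  · refine good_mono (good_small (by omega) hq1 hNM) ?_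
    rw [hA]; linarith
  intro δ hδ hδ1 ι _ a e he hsep hpair hcard
  classical
  set T : ι → Set (E n) := fun i => tube δ (a i) (e i) with hT
  have hN0 : (0 : ℝ) < N := by linarith
  have hM0 : 0 < M := by linarith
  set s : ℝ := δ * ((N : ℝ) / M) ^ (1 / ((n : ℝ) - 1)) with hs
  have hsδ : δ ≤ s := by
    rw [hs]
    have h1 : 1 ≤ (N : ℝ) / M := by rw [le_div_iff₀ hM0]; linarith
    have : 1 ≤ ((N : ℝ) / M) ^ (1 / ((n : ℝ) - 1)) := Real.one_le_rpow h1 (by positivity)
    nlinarith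
  have hs0 : 0 < s := by linarith
  have htr := hC3 δ hδ hδ1 a e he hsep hpair (by rw [hcard]; exact hNM.le)
  rw [hcard, ← hs, ← hβ] at htr
  have hB : ∀ c ∈ Finset.univ.image (fun i => cell s (e i)),
      (Fintype.card {i // cell s (e i) = c} : ℝ) ≤ K2 * (N / M) := by
    intro c hc
    obtain ⟨i0, _, hi0⟩ := Finset.mem_image.1 hc
    have h1 := hK δ hδ hδ1 e he hsep (e i0) (he i0) (Finset.univ.filter fun i => cell s (e i) = c)
      (Real.sqrt n * s) (by nlinarith) (by
        intro j hj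
        have hj' := (Finset.mem_filter.1 hj).2
        exact (sn_le (he i0) (he j)).trans (cell_close hs0 (hi0.trans hj'.symm)))
    rw [Fintype.card_subtype]
    refine h1.trans (le_of_eq ?_)
    have h2 : Real.sqrt n * s / δ = Real.sqrt n * ((N : ℝ) / M) ^ (1 / ((n : ℝ) - 1)) := by
      rw [hs]; field_simp
    rw [h2, mul_pow, hK2, ← Real.rpow_natCast (((N : ℝ) / M) ^ (1 / ((n : ℝ) - 1))),
      ← Real.rpow_mul (by positivity)]
    push_cast [Nat.cast_sub (by omega : 1 ≤ n)]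
    rw [one_div, inv_mul_cancel₀ hn1.ne', Real.rpow_one]
    ring
  have hlt : ∀ c ∈ Finset.univ.image (fun i => cell s (e i)),
      Fintype.card {i // cell s (e i) = c} < N := by
    intro c hc
    have h1 := hB c hc
    have h2 : K2 * ((N : ℝ) / M) < N := by
      rw [← mul_div_assoc, div_lt_iff₀ hM0]
      nlinarith
    exact_mod_cast h1.trans_lt h2
  have hI : ∀ c ∈ Finset.univ.image (fun i => cell s (e i)),
      ∫⁻ x, mult (fun i : {i // cell s (e i) = c} => tube δ (a i) (e i)) x ^ q ≤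
      ENNReal.ofReal (A * (δ ^ (n - 1) * (Fintype.card {i // cell s (e i) = c} : ℝ) ^ β)) := by
    intro c hc
    exact ih _ (hlt c hc) δ hδ hδ1 (fun i : {i // cell s (e i) = c} => a i)
      (fun i : {i // cell s (e i) = c} => e i) (fun i => he i)
      (fun i j hij => hsep i j (fun h => hij (Subtype.ext h))) (fun i j => hpair i j) rfl
  have hcon := parts_int (n := n) (δ := δ) (a := a) (e := e) (fun i => cell s (e i)) (q := q) (β := β)
    (A := A) (Q := Q) (B := K2 * (N / M)) (by positivity) hA0.le hβ1.le hδ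
    (G := (trans δ s a e)ᶜ) (by
      intro x hx
      refine (not_trans hs0 hx hq0).trans (le_of_eq ?_)
      congr 1
      rw [hQ, ← ENNReal.ofReal_rpow_of_nonneg (by positivity) hq0.le]
      congr 1
      rw [ENNReal.ofReal_mul (by norm_num), ENNReal.ofReal_pow (by norm_num)]
      norm_num) (trans_meas _ _ _ _).compl hI hB
  rw [← lintegral_add_compl _ (trans_meas δ s a e)]
  refine (add_le_add htr hcon).trans ?_
  rw [← ENNReal.ofReal_add (by positivity) (by positivity), hcard]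
  apply ENNReal.ofReal_le_ofReal
  have h1 : (K2 * ((N : ℝ) / M)) ^ (β - 1) * N = (K2 / M) ^ (β - 1) * (N : ℝ) ^ β := by
    have h2 : K2 * ((N : ℝ) / M) = K2 / M * N := by ring
    rw [h2, Real.mul_rpow (by positivity) hN0.le, mul_assoc]
    congr 1
    nth_rewrite 2 [← Real.rpow_one (N : ℝ)]
    rw [← Real.rpow_add hN0]
    congr 1
    ring
  rw [h1]
  have h3 : Q * A * (δ ^ (n - 1) * ((K2 / M) ^ (β - 1) * (N : ℝ) ^ β)) =
      ((K2 / M) ^ (β - 1) * Q) * A * (δ ^ (n - 1) * (N : ℝ) ^ β) := by ring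
  rw [h3, hMpow]
  have h4 : 0 ≤ δ ^ (n - 1) * (N : ℝ) ^ β := by positivity
  have h5 : C3 + 1 / 2 * A ≤ A := by rw [hA]; nlinarith
  calc C3 * (δ ^ (n - 1) * (N : ℝ) ^ β) + 1 / 2 * A * (δ ^ (n - 1) * (N : ℝ) ^ β)
      = (C3 + 1 / 2 * A) * (δ ^ (n - 1) * (N : ℝ) ^ β) := by ring
    _ ≤ A * (δ ^ (n - 1) * (N : ℝ) ^ β) := by gcongr

/-- The inequality for all families of `δ`-tubes with `δ`-separated orientations. -/
theorem wolff (hn : 3 ≤ n) {q : ℝ} (hq : 1 + 2 / (n : ℝ) < q) :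
    ∃ A : ℝ, 0 < A ∧ ∀ δ : ℝ, 0 < δ → δ < 1 → ∀ {ι : Type} [Fintype ι] (a e : ι → E n),
    (∀ i, ‖e i‖ = 1) → (∀ i j, i ≠ j → δ ≤ ‖e i - e j‖) →
    ∫⁻ x, mult (fun i => tube δ (a i) (e i)) x ^ q ≤
      ENNReal.ofReal (A * (δ ^ (n - 1) * (Fintype.card ι : ℝ) ^ (q - 1 / ((n : ℝ) - 1)))) := by
  have hnr : (3 : ℝ) ≤ n := by exact_mod_cast hn
  have hn0 : (0 : ℝ) < n := by linarith
  have hn1 : (0 : ℝ) < (n : ℝ) - 1 := by linarith
  set β : ℝ := q - 1 / ((n : ℝ) - 1) with hβ
  have hβ1 : 1 < β := by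
    have h1 : 1 / ((n : ℝ) - 1) ≤ 2 / n := by
      rw [div_le_div_iff₀ hn1 hn0]; linarith
    rw [hβ]; linarith
  have hq0 : 0 < q := by
    have : 0 < 2 / (n : ℝ) := by positivity
    linarith
  obtain ⟨A, hA0, hA⟩ := good_all hn hq
  have hsn : 0 < Real.sqrt n := Real.sqrt_pos.2 hn0
  set s : ℝ := 1 / Real.sqrt n with hs
  have hs0 : 0 < s := by positivity
  set L : ℤ := ⌈Real.sqrt n⌉ with hL
  set S : Finset (Fin n → ℤ) := Fintype.piFinset fun _ => Finset.Icc (-L) L with hS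
  set Q : ℝ := (2 * S.card) ^ q with hQ
  refine ⟨Q * A + 1, by positivity, ?_⟩
  intro δ hδ hδ1 ι _ a e he hsep
  classical
  set T : ι → Set (E n) := fun i => tube δ (a i) (e i) with hT
  have hmem : ∀ i, cell s (e i) ∈ S := by
    intro i
    rw [hS, Fintype.mem_piFinset]
    intro c
    have h1 : ‖e i c‖ ≤ ‖e i‖ := PiLp.norm_apply_le _ _
    rw [he, Real.norm_eq_abs] at h1
    have h2 : e i c / s = e i c * Real.sqrt n := by rw [hs]; field_simp
    have h3 : |e i c / s| ≤ Real.sqrt n := by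
      rw [h2, abs_mul, abs_of_pos hsn]
      nlinarith
    rw [abs_le] at h3
    have h4 := Int.le_ceil (Real.sqrt n)
    rw [Finset.mem_Icc]
    unfold cell
    constructor
    · rw [Int.le_floor]
      push_cast
      linarith
    · have h5 : (⌊e i c / s⌋ : ℝ) ≤ L := (Int.floor_le _).trans (h3.2.trans h4)
      exact_mod_cast h5
  have hpt : ∀ x, mult T x ^ q ≤ ENNReal.ofReal Q *
      ∑ c ∈ Finset.univ.image (fun i => cell s (e i)), pmult T (fun i => cell s (e i)) c x ^ q := by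
    intro x
    have h1 : mult T x ≤ 2 * ∑ i, if cell s (e i) ∈ S then (T i).indicator 1 x else 0 := by
      have h2 : ∑ i, (if cell s (e i) ∈ S then (T i).indicator (1 : E n → ℝ≥0∞) x else 0) = mult T x := by
        unfold mult
        exact Finset.sum_congr rfl fun i _ => by rw [if_pos (hmem i)]
      rw [h2, two_mul]
      exact le_self_add
    refine (conc (κ := fun i => cell s (e i)) h1 hq0).trans (le_of_eq ?_)
    congr 1
    rw [hQ, ← ENNReal.ofReal_rpow_of_nonneg (by positivity) hq0.le]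
    congr 1
    rw [ENNReal.ofReal_mul (by norm_num), ENNReal.ofReal_natCast]
    norm_num
  have hI : ∀ c ∈ Finset.univ.image (fun i => cell s (e i)),
      ∫⁻ x, mult (fun i : {i // cell s (e i) = c} => tube δ (a i) (e i)) x ^ q ≤
      ENNReal.ofReal (A * (δ ^ (n - 1) * (Fintype.card {i // cell s (e i) = c} : ℝ) ^ β)) := by
    intro c _
    exact hA _ δ hδ hδ1 (fun i : {i // cell s (e i) = c} => a i)
      (fun i : {i // cell s (e i) = c} => e i) (fun i => he i)
      (fun i j hij => hsep i j (fun h => hij (Subtype.ext h))) (fun i j => by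
        refine (cell_close hs0 (i.2.trans j.2.symm)).trans (le_of_eq ?_)
        rw [hs]
        field_simp) rfl
  have hB : ∀ c ∈ Finset.univ.image (fun i => cell s (e i)),
      (Fintype.card {i // cell s (e i) = c} : ℝ) ≤ (Fintype.card ι : ℝ) := by
    intro c _
    exact_mod_cast Fintype.card_subtype_le _
  have h := parts_int (n := n) (δ := δ) (a := a) (e := e) (fun i => cell s (e i)) (q := q) (β := β)
    (A := A) (Q := Q) (B := (Fintype.card ι : ℝ)) (by positivity) hA0.le hβ1.le hδ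
    (G := univ) (fun x _ => hpt x) MeasurableSet.univ hI hB
  rw [setLIntegral_univ] at h
  refine h.trans (ENNReal.ofReal_le_ofReal ?_)
  rcases Nat.eq_zero_or_pos (Fintype.card ι) with h0 | h0
  · rw [h0]
    simp only [Nat.cast_zero, mul_zero]
    positivity
  · have h1 : (0 : ℝ) < Fintype.card ι := by exact_mod_cast h0
    have h2 : (Fintype.card ι : ℝ) ^ (β - 1) * Fintype.card ι = (Fintype.card ι : ℝ) ^ β := by
      nth_rewrite 2 [← Real.rpow_one (Fintype.card ι : ℝ)]
      rw [← Real.rpow_add h1]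
      congr 1
      ring
    rw [h2]
    gcongr
    linarith

end Pool.Agent.Y254
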