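import Pool.Agent.Y254.Trans
set_option autoImplicit false

/-!
# Cells of directions, and the two elementary decompositions
-/

open MeasureTheory Set Metric
open scoped ENNReal NNReal

namespace Pool.Agent.Y254
open Pool.Agent.TH705.RR (E vb vb_pos sn sn_sq sn_nonneg sn_le_one)

variable {n : ℕ}

/-- The cell of a vector. -/
noncomputable def cell (s : ℝ) (e : E n) : Fin n → ℤ := fun c => ⌊e c / s⌋

theorem cell_close {s : ℝ} (hs : 0 < s) {e e' : E n} (h : cell s e = cell s e') :
    ‖e - e'‖ ≤ Real.sqrt n * s := by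
  have h1 : ∀ c, ‖(e - e') c‖ ≤ s := by
    intro c
    have h2 : ⌊e c / s⌋ = ⌊e' c / s⌋ := congrFun h c
    have h3 := Int.abs_sub_lt_one_of_floor_eq_floor h2
    have h4 : (e - e') c = (e c / s - e' c / s) * s := by
      simp only [PiLp.sub_apply]
      field_simp
    rw [h4, Real.norm_eq_abs, abs_mul, abs_of_pos hs]
    nlinarith
  rw [EuclideanSpace.norm_eq]
  calc Real.sqrt (∑ i, ‖(e - e') i‖ ^ 2) ≤ Real.sqrt (∑ _i : Fin n, s ^ 2) := by
        apply Real.sqrt_le_sqrt
        apply Finset.sum_le_sum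
        intro i _
        have := h1 i
        gcongr
    _ = Real.sqrt n * s := by
        rw [Finset.sum_const, Finset.card_univ, Fintype.card_fin, nsmul_eq_mul,
          Real.sqrt_mul (by positivity), Real.sqrt_sq hs.le]

theorem floor_near {x y : ℝ} (h : |x - y| < 1) : ⌊y⌋ ∈ Finset.Icc (⌊x⌋ - 1) (⌊x⌋ + 1) := by
  rw [abs_lt] at h
  rw [Finset.mem_Icc]
  constructor
  · rw [Int.le_floor]
    push_cast
    have := Int.floor_le x
    linarith
  · have h1 : ⌊y⌋ < ⌊x⌋ + 2 := by
      rw [Int.floor_lt]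
      push_cast
      have := Int.lt_floor_add_one x
      linarith
    omega

theorem cell_near {s : ℝ} (hs : 0 < s) {e e' : E n} (h : ‖e - e'‖ < s) :
    cell s e' ∈ Fintype.piFinset fun c => Finset.Icc (cell s e c - 1) (cell s e c + 1) := by
  rw [Fintype.mem_piFinset]
  intro c
  apply floor_near
  have h1 : ‖(e - e') c‖ ≤ ‖e - e'‖ := PiLp.norm_apply_le _ _
  have h2 : e c / s - e' c / s = (e - e') c / s := by
    simp only [PiLp.sub_apply]
    ring
  rw [h2, abs_div, abs_of_pos hs, div_lt_one hs, ← Real.norm_eq_abs]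
  linarith

section

variable {X : Type*} {ι : Type*} [Fintype ι] {D : Type*} [DecidableEq D]

/-- The multiplicity of one part. -/
noncomputable def pmult (T : ι → Set X) (κ : ι → D) (c : D) (x : X) : ℝ≥0∞ :=
  ∑ i, if κ i = c then (T i).indicator 1 x else 0

theorem pmult_eq (T : ι → Set X) (κ : ι → D) (c : D) (x : X) :
    pmult T κ c x = mult (fun i : {i // κ i = c} => T i) x := by
  unfold pmult mult
  rw [← Finset.sum_filter]
  exact (Finset.sum_subtype (Finset.univ.filter fun i => κ i = c) (by simp)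
    (fun i => (T i).indicator 1 x))

/-- Concentration in few cells. -/
theorem conc {T : ι → Set X} {κ : ι → D} {x : X} {S : Finset D}
    (h : mult T x ≤ 2 * ∑ i, if κ i ∈ S then (T i).indicator 1 x else 0) {q : ℝ} (hq : 0 < q) :
    mult T x ^ q ≤ (2 * S.card : ℝ≥0∞) ^ q * ∑ c ∈ Finset.univ.image κ, pmult T κ c x ^ q := by
  have h1 : ∑ i, (if κ i ∈ S then (T i).indicator (1 : X → ℝ≥0∞) x else 0) =
      ∑ c ∈ S, pmult T κ c x := by
    unfold pmult
    rw [Finset.sum_comm]
    refine Finset.sum_congr rfl fun i _ => ?_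
    rw [Finset.sum_ite_eq]
  rw [h1] at h
  rcases S.eq_empty_or_nonempty with h0 | h0
  · rw [h0] at h
    simp only [Finset.sum_empty, mul_zero, nonpos_iff_eq_zero] at h
    rw [h, ENNReal.zero_rpow_of_pos hq]
    exact zero_le
  obtain ⟨c, hc, hmax⟩ := Finset.exists_max_image S (fun c => pmult T κ c x) h0
  have h2 : mult T x ≤ 2 * S.card * pmult T κ c x := by
    refine h.trans ?_
    rw [mul_assoc]
    gcongr
    refine (Finset.sum_le_card_nsmul S _ _ hmax).trans ?_
    rw [nsmul_eq_mul]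
  calc mult T x ^ q ≤ (2 * S.card * pmult T κ c x) ^ q := ENNReal.rpow_le_rpow h2 hq.le
    _ = (2 * S.card : ℝ≥0∞) ^ q * pmult T κ c x ^ q := ENNReal.mul_rpow_of_nonneg _ _ hq.le
    _ ≤ _ := by
        gcongr
        by_cases hcI : c ∈ Finset.univ.image κ
        · exact Finset.single_le_sum (f := fun c => pmult T κ c x ^ q) (fun _ _ => zero_le) hcI
        · have h3 : pmult T κ c x = 0 := by
            unfold pmult
            apply Finset.sum_eq_zero
            intro i _
            rw [if_neg]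
            intro hi
            exact hcI (Finset.mem_image.2 ⟨i, Finset.mem_univ _, hi⟩)
          rw [h3, ENNReal.zero_rpow_of_pos hq]
          exact zero_le

theorem sum_card_parts (κ : ι → D) :
    ∑ c ∈ Finset.univ.image κ, (Fintype.card {i // κ i = c} : ℝ) = Fintype.card ι := by
  have h1 : ∀ c, Fintype.card {i // κ i = c} = (Finset.univ.filter fun i => κ i = c).card := by
    intro c
    rw [Fintype.card_subtype]
  have h2 : (Finset.univ : Finset ι).card = ∑ c ∈ Finset.univ.image κ,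
      (Finset.univ.filter fun i => κ i = c).card :=
    Finset.card_eq_sum_card_image κ Finset.univ
  rw [← Finset.card_univ, h2]
  push_cast
  exact Finset.sum_congr rfl fun c _ => by rw [h1]

/-- The dyadic decomposition of a power of an integer-valued function. -/
theorem dyadic_pow {N : ℕ} {F : ℝ≥0∞} (hF : F = 0 ∨ 1 ≤ F) (hFN : F ≤ N) {q : ℝ} (hq : 1 < q)
    {J : ℕ} (hJ : N < 2 ^ J) :
    F ^ q ≤ ∑ j ∈ Finset.range J, ENNReal.ofReal (((2 : ℝ) ^ (j + 1)) ^ (q - 1)) *
      (if ENNReal.ofReal (2 ^ j) ≤ F then F else 0) := by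
  rcases hF with h0 | h1
  · rw [h0, ENNReal.zero_rpow_of_pos (by linarith)]
    exact zero_le
  have hFt : F ≠ ∞ := ne_top_of_le_ne_top (ENNReal.natCast_ne_top N) hFN
  obtain ⟨f, rfl⟩ : ∃ f : ℝ≥0, F = f := ⟨F.toNNReal, (ENNReal.coe_toNNReal hFt).symm⟩
  have h1' : (1 : ℝ) ≤ f := by exact_mod_cast h1
  have hFN' : (f : ℝ) ≤ N := by exact_mod_cast hFN
  obtain ⟨j, hj1, hj2⟩ := exists_nat_pow_near h1' (by norm_num : (1 : ℝ) < 2)
  have hjJ : j < J := by
    by_contra hcon
    rw [not_lt] at hcon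
    have h3 : (2 : ℝ) ^ J ≤ 2 ^ j := pow_le_pow_right₀ (by norm_num) hcon
    have h4 : (N : ℝ) < 2 ^ J := by exact_mod_cast hJ
    linarith
  have hF0 : (f : ℝ≥0∞) = ENNReal.ofReal f := by simp
  calc (f : ℝ≥0∞) ^ q = (f : ℝ≥0∞) ^ (q - 1) * f := by
        have h5 : (f : ℝ≥0∞) ≠ 0 := by
          intro h; rw [h] at h1; simp at h1
        nth_rewrite 3 [← ENNReal.rpow_one (f : ℝ≥0∞)]
        rw [← ENNReal.rpow_add _ _ h5 hFt]
        congr 1
        ring
    _ ≤ ENNReal.ofReal (((2 : ℝ) ^ (j + 1)) ^ (q - 1)) *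
        (if ENNReal.ofReal (2 ^ j) ≤ (f : ℝ≥0∞) then (f : ℝ≥0∞) else 0) := by
        rw [if_pos (by rw [hF0]; exact ENNReal.ofReal_le_ofReal hj1)]
        gcongr
        nth_rewrite 1 [hF0]
        rw [ENNReal.ofReal_rpow_of_nonneg (by positivity) (by linarith)]
        apply ENNReal.ofReal_le_ofReal
        gcongr
    _ ≤ _ := Finset.single_le_sum
        (f := fun j => ENNReal.ofReal (((2 : ℝ) ^ (j + 1)) ^ (q - 1)) *
          (if ENNReal.ofReal (2 ^ j) ≤ (f : ℝ≥0∞) then (f : ℝ≥0∞) else 0))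
        (fun _ _ => zero_le) (Finset.mem_range.2 hjJ)

end

end Pool.Agent.Y254
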