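import Pool.Agent.Y254.Geo
set_option autoImplicit false

/-!
# Volume of slabs and counting separated directions near a plane
-/

open MeasureTheory Set Metric
open scoped ENNReal NNReal

namespace Pool.Agent.Y254
open Pool.Agent.TH705.RR (E vb vb_pos Rod vol_rod vol_cball vol_ball sn sn_sq sn_nonneg sn_le_one
  diff_sq perp_norm)

variable {n : ℕ}

/-- Points within `ρ` of the rectangle spanned by `w` and `v`. -/
def Slab (w v : E n) (L M ρ : ℝ) : Set (E n) :=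
  {x | ∃ s t : ℝ, |s| ≤ L ∧ |t| ≤ M ∧ ‖x - s • w - t • v‖ ≤ ρ}

/-- Rounding a bounded real to a grid. -/
theorem grid {L ρ t : ℝ} (hρ : 0 < ρ) (ht : |t| ≤ L) :
    ∃ k ∈ Finset.Icc (-((⌈L / ρ⌉₊ : ℕ) : ℤ)) (⌈L / ρ⌉₊ : ℕ), |t - k * ρ| ≤ ρ := by
  have hfl := Int.floor_le (t / ρ)
  have hfl2 := Int.lt_floor_add_one (t / ρ)
  set k : ℤ := ⌊t / ρ⌋ with hk
  set K : ℕ := ⌈L / ρ⌉₊ with hK
  have h1 : |t - k * ρ| ≤ ρ := by
    rw [abs_le]
    have e1 : t = t / ρ * ρ := by field_simp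
    constructor
    · nlinarith
    · nlinarith
  have hk1 : k ≤ K := by
    have h2 : (k : ℝ) ≤ K := by
      have h3 : t / ρ ≤ L / ρ := by
        gcongr
        exact (abs_le.1 ht).2
      exact hfl.trans (h3.trans (Nat.le_ceil _))
    exact_mod_cast h2
  have hk2 : -(K : ℤ) ≤ k := by
    have h2 : (-(K : ℤ) : ℤ) ≤ ⌊t / ρ⌋ := by
      rw [Int.le_floor]
      push_cast
      have h3 : -(L / ρ) ≤ t / ρ := by
        rw [← neg_div]
        gcongr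
        exact (abs_le.1 ht).1
      have h4 := Nat.le_ceil (L / ρ)
      linarith
    exact h2
  exact ⟨k, Finset.mem_Icc.2 ⟨hk2, hk1⟩, h1⟩

theorem grid_card {L ρ : ℝ} (hL : 0 ≤ L) (hρ : 0 < ρ) :
    ((Finset.Icc (-((⌈L / ρ⌉₊ : ℕ) : ℤ)) (⌈L / ρ⌉₊ : ℕ)).card : ℝ) * ρ ≤ 2 * L + 3 * ρ := by
  set K : ℕ := ⌈L / ρ⌉₊ with hK
  have hKr : (K : ℝ) < L / ρ + 1 := Nat.ceil_lt_add_one (by positivity)
  have hcard : (Finset.Icc (-(K : ℤ)) K).card = 2 * K + 1 := by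
    rw [Int.card_Icc]
    omega
  rw [hcard]
  push_cast
  have : (K : ℝ) * ρ ≤ L + ρ := by
    have h2 : (K : ℝ) * ρ ≤ (L / ρ + 1) * ρ := by gcongr
    have h3 : (L / ρ + 1) * ρ = L + ρ := by field_simp
    linarith
  linarith

theorem vol_slab (hn : 2 ≤ n) {w v : E n} (hw : ‖w‖ = 1) (hv : ‖v‖ = 1) {L M ρ : ℝ} (hL : 0 ≤ L)
    (hM : 0 ≤ M) (hρ : 0 < ρ) :
    volume (Slab w v L M ρ) ≤ ENNReal.ofReal (3 ^ n * vb n * (2 * L + 3 * ρ) * (2 * M + 3 * ρ) *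
      ρ ^ (n - 2)) := by
  have hvb := vb_pos n
  set I1 := Finset.Icc (-((⌈L / ρ⌉₊ : ℕ) : ℤ)) (⌈L / ρ⌉₊ : ℕ) with hI1
  set I2 := Finset.Icc (-((⌈M / ρ⌉₊ : ℕ) : ℤ)) (⌈M / ρ⌉₊ : ℕ) with hI2
  have hsub : Slab w v L M ρ ⊆ ⋃ p ∈ I1 ×ˢ I2,
      closedBall ((p.1 * ρ : ℝ) • w + (p.2 * ρ : ℝ) • v) (3 * ρ) := by
    rintro x ⟨s, t, hs, ht, hx⟩
    obtain ⟨k, hk, hk'⟩ := grid hρ hs
    obtain ⟨l, hl, hl'⟩ := grid hρ ht
    refine mem_iUnion₂.2 ⟨(k, l), Finset.mem_product.2 ⟨hk, hl⟩, ?_⟩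
    rw [mem_closedBall, dist_eq_norm]
    have h5 : x - ((k * ρ : ℝ) • w + (l * ρ : ℝ) • v) =
        (x - s • w - t • v) + (s - k * ρ) • w + (t - l * ρ) • v := by
      rw [sub_smul, sub_smul]; abel
    rw [h5]
    refine (norm_add_le _ _).trans ?_
    have h6 := norm_add_le (x - s • w - t • v) ((s - k * ρ) • w)
    rw [norm_smul, hw, mul_one, Real.norm_eq_abs] at h6
    rw [norm_smul, hv, mul_one, Real.norm_eq_abs]
    linarith
  have hc1 := grid_card hL hρ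
  have hc2 := grid_card hM hρ
  rw [← hI1] at hc1
  rw [← hI2] at hc2
  calc volume (Slab w v L M ρ) ≤ volume (⋃ p ∈ I1 ×ˢ I2,
      closedBall ((p.1 * ρ : ℝ) • w + (p.2 * ρ : ℝ) • v) (3 * ρ)) := measure_mono hsub
    _ ≤ ∑ p ∈ I1 ×ˢ I2, volume (closedBall ((p.1 * ρ : ℝ) • w + (p.2 * ρ : ℝ) • v) (3 * ρ)) :=
        measure_biUnion_finset_le _ _
    _ = ENNReal.ofReal ((I1.card * I2.card : ℝ) * ((3 * ρ) ^ n * vb n)) := by
        have hc : ∀ p ∈ I1 ×ˢ I2, volume (closedBall ((p.1 * ρ : ℝ) • w + (p.2 * ρ : ℝ) • v) (3 * ρ)) =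
            ENNReal.ofReal ((3 * ρ) ^ n * vb n) := fun p _ => vol_cball _ (by positivity)
        rw [Finset.sum_congr rfl hc, Finset.sum_const, nsmul_eq_mul, Finset.card_product,
          ← ENNReal.ofReal_natCast, ← ENNReal.ofReal_mul (by positivity)]
        push_cast
        rfl
    _ ≤ _ := by
        apply ENNReal.ofReal_le_ofReal
        obtain ⟨m, rfl⟩ : ∃ m, n = m + 2 := ⟨n - 2, by omega⟩
        simp only [Nat.add_sub_cancel]
        calc (I1.card * I2.card : ℝ) * ((3 * ρ) ^ (m + 2) * vb (m + 2))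
            = 3 ^ (m + 2) * vb (m + 2) * ((I1.card : ℝ) * ρ) * ((I2.card : ℝ) * ρ) * ρ ^ m := by
              rw [mul_pow]; ring
          _ ≤ _ := by gcongr

/-- The packing inequality behind the counting lemmas. -/
theorem pack {δ : ℝ} (hδ : 0 < δ) {ι : Type*} (e : ι → E n)
    (he : ∀ i, ‖e i‖ = 1) (hsep : ∀ i j, i ≠ j → δ ≤ ‖e i - e j‖) (J : Finset ι) {S : Set (E n)}
    {V : ℝ} (hV0 : 0 ≤ V) (hV : volume S ≤ ENNReal.ofReal V)
    (hS : ∀ j ∈ J, ∀ t : ℝ, 1 / 2 ≤ t → t ≤ 1 → ∀ x, ‖x - t • e j‖ ≤ δ / 8 → x ∈ S) :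
    (J.card : ℝ) * (2 / δ) * ((δ / 8) ^ n * vb n) ≤ V := by
  classical
  have hv := vb_pos n
  set M : ℕ := ⌊2 / δ⌋₊ with hM
  have hM1 : (M : ℝ) ≤ 2 / δ := Nat.floor_le (by positivity)
  have hM2 : 2 / δ < (M : ℝ) + 1 := Nat.lt_floor_add_one _
  set c : ι × ℕ → E n := fun p => ((1 / 2 : ℝ) + p.2 * (δ / 4)) • e p.1 with hc
  set I : Finset (ι × ℕ) := J ×ˢ Finset.range (M + 1) with hI
  have ht : ∀ k ∈ Finset.range (M + 1), (1 / 2 : ℝ) ≤ 1 / 2 + k * (δ / 4) ∧ (1 / 2 : ℝ) + k * (δ / 4) ≤ 1 := by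
    intro k hk
    have hk' : k ≤ M := Nat.lt_succ_iff.1 (Finset.mem_range.1 hk)
    have hk2 : (k : ℝ) ≤ 2 / δ := le_trans (by exact_mod_cast hk') hM1
    constructor
    · have : 0 ≤ (k : ℝ) * (δ / 4) := by positivity
      linarith
    · have : (k : ℝ) * (δ / 4) ≤ 2 / δ * (δ / 4) := by gcongr
      have h2 : 2 / δ * (δ / 4) = 1 / 2 := by field_simp; norm_num
      linarith
  have hdist : ∀ p ∈ I, ∀ p' ∈ I, p ≠ p' → δ / 4 ≤ dist (c p) (c p') := by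
    rintro ⟨j, k⟩ hp ⟨j', k'⟩ hp' hne
    simp only [hI, Finset.mem_product] at hp hp'
    rw [dist_eq_norm]
    simp only [hc]
    have hk := ht k hp.2
    have hk' := ht k' hp'.2
    by_cases hjj : j = j'
    · subst hjj
      rw [← sub_smul, norm_smul, he, mul_one, Real.norm_eq_abs]
      have hkk : k ≠ k' := fun h => hne (by rw [h])
      have h1 : (1 : ℝ) ≤ |(k : ℝ) - k'| := by
        have : (1 : ℤ) ≤ |(k : ℤ) - k'| := Int.one_le_abs (sub_ne_zero.2 (by exact_mod_cast hkk))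
        exact_mod_cast this
      have h2 : (1 / 2 + (k : ℝ) * (δ / 4)) - (1 / 2 + (k' : ℝ) * (δ / 4)) = ((k : ℝ) - k') * (δ / 4) := by ring
      rw [h2, abs_mul, abs_of_pos (by positivity : (0:ℝ) < δ / 4)]
      nlinarith
    · have hs := hsep j j' hjj
      set t := (1 / 2 : ℝ) + k * (δ / 4)
      set t' := (1 / 2 : ℝ) + k' * (δ / 4)
      have h1 : ‖t • e j - t' • e j'‖ ^ 2 = (t - t') ^ 2 + t * t' * ‖e j - e j'‖ ^ 2 := by
        rw [norm_sub_sq_real, norm_sub_sq_real, norm_smul, norm_smul, he, he, inner_smul_left, inner_smul_right,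
          Real.norm_eq_abs, Real.norm_eq_abs, mul_one, mul_one, sq_abs, sq_abs]
        simp only [conj_trivial]
        ring
      have h2 : (δ / 2) ^ 2 ≤ ‖t • e j - t' • e j'‖ ^ 2 := by
        rw [h1]
        have h3 : (1 / 4 : ℝ) ≤ t * t' := by nlinarith [hk.1, hk'.1]
        have h4 : δ ^ 2 ≤ ‖e j - e j'‖ ^ 2 := by gcongr
        nlinarith [sq_nonneg (t - t'), sq_nonneg ‖e j - e j'‖]
      have h3 := abs_le_of_sq_le_sq h2 (norm_nonneg _)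
      have h4 := (abs_le.1 h3).2
      linarith
  have hdisj : Set.PairwiseDisjoint (↑I : Set (ι × ℕ)) (fun p => ball (c p) (δ / 8)) := by
    intro p hp p' hp' hne
    apply ball_disjoint_ball
    have := hdist p hp p' hp' hne
    linarith
  have hsub : (⋃ p ∈ I, ball (c p) (δ / 8)) ⊆ S := by
    intro x hx
    obtain ⟨⟨j, k⟩, hp, hx⟩ := mem_iUnion₂.1 hx
    simp only [hI, Finset.mem_product] at hp
    have hk := ht k hp.2
    rw [mem_ball, dist_eq_norm] at hx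
    exact hS j hp.1 _ hk.1 hk.2 x hx.le
  have hvol : (I.card : ℝ≥0∞) * ENNReal.ofReal ((δ / 8) ^ n * vb n) ≤ ENNReal.ofReal V := by
    refine le_trans ?_ hV
    refine le_trans ?_ (measure_mono hsub)
    rw [measure_biUnion_finset hdisj (fun p _ => measurableSet_ball)]
    rw [Finset.sum_congr rfl (fun p _ => vol_ball (c p) (by positivity : (0:ℝ) < δ / 8)),
      Finset.sum_const, nsmul_eq_mul]
  have hvol' : (I.card : ℝ) * ((δ / 8) ^ n * vb n) ≤ V := by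
    rw [← ENNReal.ofReal_natCast, ← ENNReal.ofReal_mul (by positivity)] at hvol
    exact (ENNReal.ofReal_le_ofReal_iff hV0).1 hvol
  have hIc : (I.card : ℝ) = J.card * ((M : ℝ) + 1) := by
    rw [hI, Finset.card_product, Finset.card_range]
    push_cast
    ring
  rw [hIc] at hvol'
  refine le_trans ?_ hvol'
  gcongr

/-- Counting `δ`-separated unit vectors near `w` and near the plane of `w` and `v`. -/
theorem count2 (hn : 2 ≤ n) : ∃ K : ℝ, 1 ≤ K ∧ ∀ (δ : ℝ), 0 < δ → δ < 1 → ∀ {ι : Type*}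
    (e : ι → E n), (∀ i, ‖e i‖ = 1) → (∀ i j, i ≠ j → δ ≤ ‖e i - e j‖) →
    ∀ (w v : E n), ‖w‖ = 1 → ‖v‖ = 1 → inner ℝ w v = 0 →
    ∀ (J : Finset ι) (φ ψ : ℝ), δ ≤ φ → δ ≤ ψ → (∀ j ∈ J, ‖w - e j‖ ≤ φ ∧ ‖res w v (e j)‖ ≤ ψ) →
      (J.card : ℝ) ≤ K * (φ / δ) * (min (φ / δ) (ψ / δ)) ^ (n - 2) := by
  obtain ⟨m, rfl⟩ : ∃ m, n = m + 2 := ⟨n - 2, by omega⟩
  have hvb := vb_pos (m + 2)
  simp only [Nat.add_sub_cancel]
  refine ⟨8 ^ (m + 2) * (3 ^ (m + 2) * 26 * 14 * 4 ^ m) + 1, by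
    nlinarith [show (0:ℝ) ≤ 8 ^ (m + 2) * (3 ^ (m + 2) * 26 * 14 * 4 ^ m) by positivity], ?_⟩
  intro δ hδ hδ1 ι e he hsep w v hw hv hwv J φ ψ hφ hψ hJ
  -- reduce to φ ≤ 2
  obtain ⟨z, hz1, hz2, hz3, hz4⟩ : ∃ z : ℝ, δ ≤ z ∧ z ≤ 2 ∧ z ≤ φ ∧ ∀ j ∈ J, ‖w - e j‖ ≤ z := by
    rcases le_total φ 2 with h | h
    · exact ⟨φ, hφ, h, le_rfl, fun j hj => (hJ j hj).1⟩
    · refine ⟨2, by linarith, le_rfl, h, fun j _ => ?_⟩
      refine (norm_sub_le _ _).trans ?_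
      rw [hw, he]; norm_num
  set ρ : ℝ := min z ψ with hρ
  have hρ0 : δ ≤ ρ := le_min hz1 hψ
  have hρp : 0 < ρ := by linarith
  have hρz : ρ ≤ z := min_le_left _ _
  have hz0 : 0 < z := by linarith
  have hres : ∀ j ∈ J, ‖res w v (e j)‖ ≤ 3 * ρ := by
    intro j hj
    have h1 : ‖res w v (e j)‖ ≤ 3 * z := by
      have h2 : res w v (e j) = res w v (e j - w) := by
        rw [res_sub, res_w hw hwv, sub_zero]
      rw [h2]
      refine (res_norm hw hv _).trans ?_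
      have := hz4 j hj
      rw [norm_sub_rev] at this
      linarith
    have h3 := (hJ j hj).2
    have h4 := norm_nonneg (res w v (e j))
    rcases le_total z ψ with h | h
    · rw [hρ, min_eq_left h]; exact h1
    · rw [hρ, min_eq_right h]; linarith
  have hV := vol_slab (n := m + 2) (by omega) hw hv (zero_le_one) hz0.le
    (by linarith : 0 < 4 * ρ)
  rw [Nat.add_sub_cancel] at hV
  have hp := pack (n := m + 2) hδ e he hsep J (by positivity) hV (by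
    intro j hj t ht1 ht2 x hx
    have ht0 : 0 < t := by linarith
    have h1 : |t * inner ℝ (e j) w| ≤ 1 := by
      have h := abs_real_inner_le_norm (e j) w
      rw [hw, he, one_mul] at h
      rw [abs_mul, abs_of_pos ht0]
      nlinarith [abs_nonneg (inner ℝ (e j) w)]
    have h2 : |t * inner ℝ (e j) v| ≤ z := by
      have h3 : (inner ℝ (e j) v : ℝ) = inner ℝ (e j - w) v := by
        rw [inner_sub_left, hwv, sub_zero]
      have h := abs_real_inner_le_norm (e j - w) v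
      rw [hv, mul_one, ← h3] at h
      have h4 := hz4 j hj
      rw [norm_sub_rev] at h4
      rw [abs_mul, abs_of_pos ht0]
      nlinarith [abs_nonneg (inner ℝ (e j) v)]
    refine ⟨t * inner ℝ (e j) w, t * inner ℝ (e j) v, h1, h2, ?_⟩
    have h5 : x - (t * inner ℝ (e j) w) • w - (t * inner ℝ (e j) v) • v =
        (x - t • e j) + t • res w v (e j) := by
      unfold res
      rw [smul_sub, smul_sub, smul_smul, smul_smul]
      abel
    rw [h5]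
    refine (norm_add_le _ _).trans ?_
    rw [norm_smul, Real.norm_eq_abs, abs_of_pos ht0]
    have h6 := hres j hj
    have h7 : t * ‖res w v (e j)‖ ≤ 1 * (3 * ρ) := by gcongr
    linarith)
  have hρ2 : ρ ≤ 2 := hρz.trans hz2
  have h1 : (J.card : ℝ) * (2 / δ) * (δ / 8) ^ (m + 2) ≤
      3 ^ (m + 2) * 26 * (14 * z) * (4 * ρ) ^ m := by
    have h2 : (J.card : ℝ) * (2 / δ) * (δ / 8) ^ (m + 2) * vb (m + 2) ≤
        (3 ^ (m + 2) * 26 * (14 * z) * (4 * ρ) ^ m) * vb (m + 2) := by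
      calc _ = (J.card : ℝ) * (2 / δ) * ((δ / 8) ^ (m + 2) * vb (m + 2)) := by ring
        _ ≤ 3 ^ (m + 2) * vb (m + 2) * (2 * 1 + 3 * (4 * ρ)) * (2 * z + 3 * (4 * ρ)) * (4 * ρ) ^ m := hp
        _ ≤ 3 ^ (m + 2) * vb (m + 2) * 26 * (14 * z) * (4 * ρ) ^ m := by
            gcongr
            · linarith
            · linarith
        _ = _ := by ring
    exact le_of_mul_le_mul_right h2 hvb
  have h3 : (J.card : ℝ) * δ ^ (m + 1) ≤ 8 ^ (m + 2) * (3 ^ (m + 2) * 26 * 14 * 4 ^ m) * (z * ρ ^ m) := by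
    have h4 : (J.card : ℝ) * δ ^ (m + 1) * 2 = (J.card : ℝ) * (2 / δ) * (δ / 8) ^ (m + 2) * 8 ^ (m + 2) := by
      rw [div_pow, pow_succ δ (m + 1)]
      field_simp
    have h5 : (J.card : ℝ) * δ ^ (m + 1) ≤ (J.card : ℝ) * δ ^ (m + 1) * 2 := by
      have : 0 ≤ (J.card : ℝ) * δ ^ (m + 1) := by positivity
      linarith
    calc (J.card : ℝ) * δ ^ (m + 1) ≤ (J.card : ℝ) * δ ^ (m + 1) * 2 := h5
      _ = (J.card : ℝ) * (2 / δ) * (δ / 8) ^ (m + 2) * 8 ^ (m + 2) := h4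
      _ ≤ (3 ^ (m + 2) * 26 * (14 * z) * (4 * ρ) ^ m) * 8 ^ (m + 2) := by gcongr
      _ = _ := by rw [mul_pow]; ring
  have h6 : (J.card : ℝ) ≤ 8 ^ (m + 2) * (3 ^ (m + 2) * 26 * 14 * 4 ^ m) * ((z / δ) * (ρ / δ) ^ m) := by
    have h7 : (z / δ) * (ρ / δ) ^ m = z * ρ ^ m / δ ^ (m + 1) := by
      rw [div_pow, pow_succ]; field_simp
    rw [h7, ← mul_div_assoc, le_div_iff₀ (by positivity)]
    exact h3
  have h8 : ρ / δ ≤ min (φ / δ) (ψ / δ) := by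
    apply le_min
    · gcongr
      exact hρz.trans hz3
    · gcongr
      exact min_le_right _ _
  have hφ0 : 0 < φ := by linarith
  have h9 : (z / δ) * (ρ / δ) ^ m ≤ (φ / δ) * (min (φ / δ) (ψ / δ)) ^ m := by
    gcongr
  have hmin0 : 0 ≤ min (φ / δ) (ψ / δ) := le_trans (by positivity) h8
  have h10 : 0 ≤ (φ / δ) * (min (φ / δ) (ψ / δ)) ^ m := by positivity
  calc (J.card : ℝ) ≤ 8 ^ (m + 2) * (3 ^ (m + 2) * 26 * 14 * 4 ^ m) * ((z / δ) * (ρ / δ) ^ m) := h6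
    _ ≤ 8 ^ (m + 2) * (3 ^ (m + 2) * 26 * 14 * 4 ^ m) * ((φ / δ) * (min (φ / δ) (ψ / δ)) ^ m) := by
        gcongr
    _ ≤ _ := by nlinarith

/-- A dyadic majorant. -/
theorem dyad {δ t : ℝ} (hδ : 0 < δ) {P : ℕ} (ht : t ≤ 2 ^ P * δ) :
    δ / max t δ ≤ 2 * ∑ p ∈ Finset.range (P + 1), (if t ≤ 2 ^ p * δ then ((2 : ℝ) ^ p)⁻¹ else 0) := by
  classical
  have hex : ∃ p : ℕ, t ≤ 2 ^ p * δ := ⟨P, ht⟩
  set p := Nat.find hex with hp
  have hpt : t ≤ 2 ^ p * δ := Nat.find_spec hex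
  have hpP : p ≤ P := Nat.find_min' hex ht
  have h1 : ((2 : ℝ) ^ p)⁻¹ ≤ ∑ p ∈ Finset.range (P + 1),
      (if t ≤ 2 ^ p * δ then ((2 : ℝ) ^ p)⁻¹ else 0) := by
    calc ((2 : ℝ) ^ p)⁻¹ = if t ≤ 2 ^ p * δ then ((2 : ℝ) ^ p)⁻¹ else 0 := by rw [if_pos hpt]
      _ ≤ _ := Finset.single_le_sum (f := fun p => if t ≤ 2 ^ p * δ then ((2 : ℝ) ^ p)⁻¹ else 0)
          (fun i _ => by split_ifs <;> positivity) (Finset.mem_range.2 (by omega))
  have h2 : δ / max t δ ≤ 2 * ((2 : ℝ) ^ p)⁻¹ := by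
    have hm : 0 < max t δ := lt_max_of_lt_right hδ
    rw [div_le_iff₀ hm]
    rcases Nat.eq_zero_or_pos p with h0 | h0
    · rw [h0]
      have := le_max_right t δ
      simp only [pow_zero, inv_one, mul_one]
      linarith
    · have h3 : ¬ (t ≤ 2 ^ (p - 1) * δ) := Nat.find_min hex (by omega)
      rw [not_le] at h3
      have h4 : (2 : ℝ) ^ p = 2 * 2 ^ (p - 1) := by
        rw [← pow_succ']
        congr 1
        omega
      rw [h4, mul_inv, ← mul_assoc, mul_inv_cancel₀ two_ne_zero, one_mul, inv_mul_eq_div,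
        le_div_iff₀ (by positivity), mul_comm]
      exact h3.le.trans (le_max_left _ _)
  linarith

/-- The row sum of the hairbrush matrix. -/
theorem rowsum (hn : 3 ≤ n) {ε : ℝ} (hε : 0 < ε) (hε1 : ε ≤ 1) :
    ∃ C : ℝ, 1 ≤ C ∧ ∀ (δ : ℝ), 0 < δ → δ < 1 → ∀ {ι : Type*}
    (e : ι → E n), (∀ i, ‖e i‖ = 1) → (∀ i j, i ≠ j → δ ≤ ‖e i - e j‖) →
    ∀ (w v : E n), ‖w‖ = 1 → ‖v‖ = 1 → inner ℝ w v = 0 →
    ∀ (J : Finset ι) (α h : ℝ), δ ≤ α → 0 < h → h ≤ 1 →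
      (∀ j ∈ J, ‖w - e j‖ ≤ 4 * α ∧ h * ‖res w v (e j)‖ ≤ 24 * δ) →
      ∑ j ∈ J, δ / max ‖w - e j‖ δ ≤ C * (h ^ (-((n : ℝ) - 2)) * (α * h / δ) ^ ε) := by
  obtain ⟨K, hK1, hK⟩ := count2 (n := n) (by omega)
  have h2ε : 1 < (2 : ℝ) ^ ε := Real.one_lt_rpow (by norm_num) hε
  have hnr : (3 : ℝ) ≤ n := by exact_mod_cast hn
  set C0 : ℝ := 2 * K * 24 ^ ((n : ℝ) - 2 - ε) * (2 ^ ε * 8 ^ ε / (2 ^ ε - 1)) with hC0
  have hC0p : 0 ≤ C0 := by
    have : 0 < (2 : ℝ) ^ ε - 1 := by linarith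
    positivity
  refine ⟨C0 + 1, by linarith, ?_⟩
  intro δ hδ hδ1 ι e he hsep w v hw hv hwv J α h hα hh hh1 hJ
  classical
  have hα0 : 0 < α := by linarith
  obtain ⟨p0, hp0, hp1⟩ := exists_nat_pow_near (x := 4 * α / δ) (y := (2 : ℝ)) (by
    rw [le_div_iff₀ hδ]; linarith) (by norm_num)
  set P := p0 + 1 with hP
  have hPup : (2 : ℝ) ^ P ≤ 8 * α / δ := by
    rw [hP, pow_succ]
    have : 8 * α / δ = 4 * α / δ * 2 := by ring
    rw [this]
    gcongr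
  have hPlo : 4 * α ≤ 2 ^ P * δ := by
    rw [div_lt_iff₀ hδ] at hp1
    exact hp1.le
  have hcnt : ∀ p : ℕ, ((J.filter (fun j => ‖w - e j‖ ≤ 2 ^ p * δ)).card : ℝ) ≤
      K * 2 ^ p * ((2 ^ p : ℝ) ^ ε * (24 / h) ^ ((n : ℝ) - 2 - ε)) := by
    intro p
    have h2p : (1 : ℝ) ≤ 2 ^ p := one_le_pow₀ (by norm_num)
    have h24 : 1 ≤ 24 / h := by
      rw [le_div_iff₀ hh]; linarith
    have h1 := hK δ hδ hδ1 e he hsep w v hw hv hwv (J.filter (fun j => ‖w - e j‖ ≤ 2 ^ p * δ))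
      (2 ^ p * δ) (24 * δ / h) (by nlinarith) (by
        have : 24 * δ / h = (24 / h) * δ := by ring
        rw [this]; nlinarith) (by
        intro j hj
        rw [Finset.mem_filter] at hj
        refine ⟨hj.2, ?_⟩
        rw [le_div_iff₀ hh, mul_comm]
        exact (hJ j hj.1).2)
    have e1 : 2 ^ p * δ / δ = (2 : ℝ) ^ p := by field_simp
    have e2 : 24 * δ / h / δ = 24 / h := by field_simp
    rw [e1, e2] at h1
    refine h1.trans ?_
    have hmin : 0 < min ((2 : ℝ) ^ p) (24 / h) := lt_min (by positivity) (by positivity)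
    have h3 : min ((2 : ℝ) ^ p) (24 / h) ^ (n - 2) ≤ (2 ^ p : ℝ) ^ ε * (24 / h) ^ ((n : ℝ) - 2 - ε) := by
      have e3 : min ((2 : ℝ) ^ p) (24 / h) ^ (n - 2) =
          min ((2 : ℝ) ^ p) (24 / h) ^ ε * min ((2 : ℝ) ^ p) (24 / h) ^ ((n : ℝ) - 2 - ε) := by
        rw [← Real.rpow_add hmin, ← Real.rpow_natCast]
        congr 1
        push_cast [Nat.cast_sub (by omega : 2 ≤ n)]
        ring
      rw [e3]
      gcongr
      · exact min_le_left _ _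
      · linarith
      · exact min_le_right _ _
    gcongr
  have hgeo : ∑ p ∈ Finset.range (P + 1), ((2 : ℝ) ^ p) ^ ε ≤
      2 ^ ε * (8 * α / δ) ^ ε / (2 ^ ε - 1) := by
    have e1 : ∀ p : ℕ, ((2 : ℝ) ^ p) ^ ε = ((2 : ℝ) ^ ε) ^ p := by
      intro p
      rw [← Real.rpow_natCast, ← Real.rpow_natCast, ← Real.rpow_mul (by norm_num),
        ← Real.rpow_mul (by norm_num), mul_comm]
    rw [Finset.sum_congr rfl fun p _ => e1 p, geom_sum_eq h2ε.ne']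
    have h3 : 0 < (2 : ℝ) ^ ε - 1 := by linarith
    gcongr
    have h4 : ((2 : ℝ) ^ ε) ^ (P + 1) = 2 ^ ε * ((2 : ℝ) ^ P) ^ ε := by
      rw [pow_succ', ← e1]
    rw [h4]
    have h5 : ((2 : ℝ) ^ P) ^ ε ≤ (8 * α / δ) ^ ε := by gcongr
    have h6 : 2 ^ ε * ((2 : ℝ) ^ P) ^ ε ≤ 2 ^ ε * (8 * α / δ) ^ ε := by gcongr
    linarith
  have hfac : 0 ≤ h ^ (-((n : ℝ) - 2)) * (α * h / δ) ^ ε := by positivity
  have hmain : ∑ j ∈ J, δ / max ‖w - e j‖ δ ≤ C0 * (h ^ (-((n : ℝ) - 2)) * (α * h / δ) ^ ε) := by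
    calc ∑ j ∈ J, δ / max ‖w - e j‖ δ
        ≤ ∑ j ∈ J, 2 * ∑ p ∈ Finset.range (P + 1),
          (if ‖w - e j‖ ≤ 2 ^ p * δ then ((2 : ℝ) ^ p)⁻¹ else 0) :=
          Finset.sum_le_sum fun j hj => dyad hδ ((hJ j hj).1.trans hPlo)
      _ = 2 * ∑ p ∈ Finset.range (P + 1), ((2 : ℝ) ^ p)⁻¹ *
          ((J.filter (fun j => ‖w - e j‖ ≤ 2 ^ p * δ)).card : ℝ) := by
          rw [← Finset.mul_sum, Finset.sum_comm]
          congr 1
          refine Finset.sum_congr rfl fun p _ => ?_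
          rw [← Finset.sum_filter, Finset.sum_const, nsmul_eq_mul, mul_comm]
      _ ≤ 2 * ∑ p ∈ Finset.range (P + 1), ((2 : ℝ) ^ p)⁻¹ *
          (K * 2 ^ p * ((2 ^ p : ℝ) ^ ε * (24 / h) ^ ((n : ℝ) - 2 - ε))) := by
          gcongr with p hp
          exact hcnt p
      _ = 2 * K * (24 / h) ^ ((n : ℝ) - 2 - ε) * ∑ p ∈ Finset.range (P + 1), ((2 : ℝ) ^ p) ^ ε := by
          rw [Finset.mul_sum, Finset.mul_sum]
          refine Finset.sum_congr rfl fun p _ => ?_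
          have : (2 : ℝ) ^ p ≠ 0 := by positivity
          field_simp
      _ ≤ 2 * K * (24 / h) ^ ((n : ℝ) - 2 - ε) * (2 ^ ε * (8 * α / δ) ^ ε / (2 ^ ε - 1)) := by
          gcongr
      _ = C0 * (h ^ (-((n : ℝ) - 2)) * (α * h / δ) ^ ε) := by
          have e1 : (24 / h) ^ ((n : ℝ) - 2 - ε) = 24 ^ ((n : ℝ) - 2 - ε) * h ^ (-((n : ℝ) - 2)) * h ^ ε := by
            rw [Real.div_rpow (by norm_num) hh.le, div_eq_mul_inv, ← Real.rpow_neg hh.le, mul_assoc,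
              ← Real.rpow_add hh]
            congr 2
            ring
          have e2 : (8 * α / δ) ^ ε = 8 ^ ε * (α / δ) ^ ε := by
            rw [mul_div_assoc, Real.mul_rpow (by norm_num) (by positivity)]
          have e3 : (α * h / δ) ^ ε = (α / δ) ^ ε * h ^ ε := by
            rw [← Real.mul_rpow (by positivity) hh.le]
            congr 1
            ring
          rw [e1, e2, e3, hC0]
          ring
  calc ∑ j ∈ J, δ / max ‖w - e j‖ δ ≤ C0 * (h ^ (-((n : ℝ) - 2)) * (α * h / δ) ^ ε) := hmain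
    _ ≤ _ := by nlinarith

end Pool.Agent.Y254
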