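import Pool.Agent.Y254.Cnt
set_option autoImplicit false

/-!
# Counting directions of an `α`-dimensional set near a plane
-/

open MeasureTheory Set Metric
open scoped ENNReal NNReal

namespace Pool.Agent.Y254
open Pool.Agent.TH705.RR (E vb vb_pos sn sn_sq sn_nonneg sn_le_one)

variable {n : ℕ}

/-- A `δ`-separated set of directions is `al`-dimensional with constant `A`: at most
`A (ρ/δ)^al` of them lie in a ball of radius `ρ ≥ δ` about one of them. -/
def DimLE {n : ℕ} {ι : Type} [Fintype ι] (δ al A : ℝ) (e : ι → E n) : Prop :=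
  ∀ i, ∀ ρ : ℝ, δ ≤ ρ →
    (((Finset.univ : Finset ι).filter fun j => ‖e j - e i‖ ≤ ρ).card : ℝ) ≤ A * (ρ / δ) ^ al

theorem DimLE.sub {ι : Type} [Fintype ι] {δ al A : ℝ} {e : ι → E n} (h : DimLE δ al A e)
    (P : ι → Prop) [DecidablePred P] : DimLE δ al A (fun i : {i // P i} => e i) := by
  intro i ρ hρ
  refine le_trans ?_ (h i ρ hρ)
  have h1 : ((Finset.univ : Finset {i // P i}).filter
      fun j : {i // P i} => ‖e j.1 - e i.1‖ ≤ ρ).card =
      (((Finset.univ : Finset {i // P i}).filter fun j : {i // P i} => ‖e j.1 - e i.1‖ ≤ ρ).map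
        (Function.Embedding.subtype P)).card := (Finset.card_map _).symm
  rw [h1]
  have h2 : (((Finset.univ : Finset {i // P i}).filter
      fun j : {i // P i} => ‖e j.1 - e i.1‖ ≤ ρ).map (Function.Embedding.subtype P)) ⊆
      (Finset.univ : Finset ι).filter fun j => ‖e j - e i.1‖ ≤ ρ := by
    intro j hj
    rw [Finset.mem_map] at hj
    obtain ⟨k, hk, rfl⟩ := hj
    rw [Finset.mem_filter] at hk ⊢
    exact ⟨Finset.mem_univ _, hk.2⟩
  exact_mod_cast Finset.card_le_card h2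

theorem res_sq {w v : E n} (hw : ‖w‖ = 1) (hv : ‖v‖ = 1) (hwv : inner ℝ w v = 0) (x : E n) :
    ‖res w v x‖ ^ 2 = ‖x‖ ^ 2 - (inner ℝ x w) ^ 2 - (inner ℝ x v) ^ 2 := by
  have hvw : inner ℝ v w = 0 := by rw [real_inner_comm]; exact hwv
  have hww : inner ℝ w w = (1 : ℝ) := by rw [real_inner_self_eq_norm_sq, hw]; norm_num
  have hvv : inner ℝ v v = (1 : ℝ) := by rw [real_inner_self_eq_norm_sq, hv]; norm_num
  unfold res
  rw [← real_inner_self_eq_norm_sq, ← real_inner_self_eq_norm_sq]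
  simp only [inner_sub_left, inner_sub_right, real_inner_smul_left, real_inner_smul_right, hww, hvv,
    hwv, hvw, real_inner_comm x w, real_inner_comm x v]
  rw [real_inner_comm w x, real_inner_comm v x]
  ring

/-- Two unit vectors close to `w` with close components are close. -/
theorem close_of {w v : E n} (hw : ‖w‖ = 1) (hv : ‖v‖ = 1) (hwv : inner ℝ w v = 0) {x y : E n}
    (hx : ‖x‖ = 1) (hy : ‖y‖ = 1) (hxw : ‖w - x‖ ≤ 1) (hyw : ‖w - y‖ ≤ 1) {ρ : ℝ}
    (h1 : |inner ℝ x v - inner ℝ y v| ≤ ρ) (h2 : ‖res w v x‖ ≤ 3 * ρ) (h3 : ‖res w v y‖ ≤ 3 * ρ) :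
    ‖y - x‖ ≤ 30 * ρ := by
  have hρ : 0 ≤ ρ := (abs_nonneg _).trans h1
  have hc : (1 / 2 : ℝ) ≤ inner ℝ x w := by
    have h4 : ‖w - x‖ ^ 2 = 2 - 2 * inner ℝ x w := by
      rw [norm_sub_sq_real, hw, hx, real_inner_comm]; ring
    have h5 : ‖w - x‖ ^ 2 ≤ 1 := by have := norm_nonneg (w - x); nlinarith
    linarith
  have hc' : (1 / 2 : ℝ) ≤ inner ℝ y w := by
    have h4 : ‖w - y‖ ^ 2 = 2 - 2 * inner ℝ y w := by
      rw [norm_sub_sq_real, hw, hy, real_inner_comm]; ring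
    have h5 : ‖w - y‖ ^ 2 ≤ 1 := by have := norm_nonneg (w - y); nlinarith
    linarith
  have e1 := res_sq hw hv hwv x
  have e2 := res_sq hw hv hwv y
  rw [hx] at e1
  rw [hy] at e2
  have hxv : |inner ℝ x v| ≤ 1 := by
    have := abs_real_inner_le_norm x v
    rwa [hx, hv, one_mul] at this
  have hyv : |inner ℝ y v| ≤ 1 := by
    have := abs_real_inner_le_norm y v
    rwa [hy, hv, one_mul] at this
  have hrx : ‖res w v x‖ ≤ 3 := by
    have := res_norm hw hv x
    rwa [hx, mul_one] at this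
  have hry : ‖res w v y‖ ≤ 3 := by
    have := res_norm hw hv y
    rwa [hy, mul_one] at this
  set c : ℝ := inner ℝ x w
  set c' : ℝ := inner ℝ y w
  set a : ℝ := inner ℝ x v
  set a' : ℝ := inner ℝ y v
  have hrx0 := norm_nonneg (res w v x)
  have hry0 := norm_nonneg (res w v y)
  have hcc : |c' - c| ≤ 20 * ρ := by
    have h4 : (c' - c) * (c' + c) = (a - a') * (a + a') +
        (‖res w v x‖ ^ 2 - ‖res w v y‖ ^ 2) := by
      nlinarith
    have h5 : |(a - a') * (a + a')| ≤ 2 * ρ := by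
      rw [abs_mul]
      have : |a + a'| ≤ 2 := (abs_add_le a a').trans (by linarith)
      have := abs_nonneg (a - a')
      nlinarith [abs_nonneg (a + a')]
    have h6 : |‖res w v x‖ ^ 2 - ‖res w v y‖ ^ 2| ≤ 18 * ρ := by
      rw [abs_le]
      constructor <;> nlinarith
    have h7 : |(c' - c) * (c' + c)| ≤ 20 * ρ := by
      rw [h4]
      refine (abs_add_le _ _).trans ?_
      linarith
    rw [abs_mul, abs_of_nonneg (by linarith : 0 ≤ c' + c)] at h7
    have h8 := abs_nonneg (c' - c)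
    nlinarith
  have h9 : y - x = (c' - c) • w + (a' - a) • v + (res w v y - res w v x) := by
    unfold res
    rw [sub_smul, sub_smul]
    abel
  rw [h9]
  have h10 := norm_add_le ((c' - c) • w + (a' - a) • v) (res w v y - res w v x)
  have h11 := norm_add_le ((c' - c) • w) ((a' - a) • v)
  rw [norm_smul, norm_smul, hw, hv, mul_one, mul_one, Real.norm_eq_abs, Real.norm_eq_abs] at h11
  have h12 := norm_sub_le (res w v y) (res w v x)
  rw [abs_sub_comm] at h1
  linarith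

/-- Counting directions of an `al`-dimensional set near `w` and near the plane of `w` and `v`. -/
theorem countA {al : ℝ} {δ A : ℝ} (hδ : 0 < δ) (hA : 0 ≤ A)
    {ι : Type} [Fintype ι] {e : ι → E n} (he : ∀ i, ‖e i‖ = 1) (hdim : DimLE δ al A e)
    {w v : E n} (hw : ‖w‖ = 1) (hv : ‖v‖ = 1) (hwv : inner ℝ w v = 0)
    (J : Finset ι) {φ ψ : ℝ} (hφ : δ ≤ φ) (hψ : δ ≤ ψ)
    (hJ : ∀ j ∈ J, ‖w - e j‖ ≤ 1 ∧ ‖w - e j‖ ≤ φ ∧ ‖res w v (e j)‖ ≤ ψ) :
    (J.card : ℝ) ≤ 5 * 30 ^ al * A * (φ / δ) * (min (φ / δ) (ψ / δ)) ^ (al - 1) := by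
  classical
  set ρ : ℝ := min φ ψ with hρ
  have hρδ : δ ≤ ρ := le_min hφ hψ
  have hρ0 : 0 < ρ := by linarith
  have hρφ : ρ ≤ φ := min_le_left _ _
  have hφ0 : 0 < φ := by linarith
  have hres : ∀ j ∈ J, ‖res w v (e j)‖ ≤ 3 * ρ := by
    intro j hj
    obtain ⟨_, h1, h2⟩ := hJ j hj
    have h3 : ‖res w v (e j)‖ ≤ 3 * φ := by
      have h4 : res w v (e j) = res w v (e j - w) := by
        rw [res_sub, res_w hw hwv, sub_zero]
      rw [h4]
      refine (res_norm hw hv _).trans ?_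
      rw [norm_sub_rev] at h1
      linarith
    have h5 := norm_nonneg (res w v (e j))
    rcases le_total φ ψ with h | h
    · rw [hρ, min_eq_left h]; exact h3
    · rw [hρ, min_eq_right h]; linarith
  set κ : ι → ℤ := fun j => ⌊inner ℝ (e j) v / ρ⌋ with hκ
  set L : ℤ := ⌈φ / ρ⌉ with hL
  have hmaps : ∀ j ∈ J, κ j ∈ Finset.Icc (-L) L := by
    intro j hj
    obtain ⟨_, h1, _⟩ := hJ j hj
    have h3 : (inner ℝ (e j) v : ℝ) = inner ℝ (e j - w) v := by
      rw [inner_sub_left, hwv, sub_zero]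
    have h4 := abs_real_inner_le_norm (e j - w) v
    rw [hv, mul_one, ← h3] at h4
    rw [norm_sub_rev] at h1
    have h5 : |inner ℝ (e j) v / ρ| ≤ φ / ρ := by
      rw [abs_div, abs_of_pos hρ0]
      gcongr
      exact h4.trans h1
    rw [abs_le] at h5
    have h6 := Int.le_ceil (φ / ρ)
    rw [Finset.mem_Icc]
    constructor
    · rw [hκ]
      dsimp only
      rw [Int.le_floor]
      push_cast
      linarith
    · have h7 : (κ j : ℝ) ≤ L := (Int.floor_le _).trans (h5.2.trans h6)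
      exact_mod_cast h7
  have hfib : ∀ c ∈ Finset.Icc (-L) L, ((J.filter fun j => κ j = c).card : ℝ) ≤
      A * (30 * ρ / δ) ^ al := by
    intro c _
    rcases (J.filter fun j => κ j = c).eq_empty_or_nonempty with h0 | ⟨i, hi⟩
    · rw [h0]
      simp only [Finset.card_empty, Nat.cast_zero]
      positivity
    · obtain ⟨hi1, hi2⟩ := Finset.mem_filter.1 hi
      refine le_trans ?_ (hdim i (30 * ρ) (by linarith))
      have hsub : (J.filter fun j => κ j = c) ⊆
          (Finset.univ : Finset ι).filter fun j => ‖e j - e i‖ ≤ 30 * ρ := by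
        intro j hj
        obtain ⟨hj1, hj2⟩ := Finset.mem_filter.1 hj
        rw [Finset.mem_filter]
        refine ⟨Finset.mem_univ _, ?_⟩
        refine close_of hw hv hwv (he i) (he j) (hJ i hi1).1 (hJ j hj1).1 ?_ (hres i hi1) (hres j hj1)
        have h1 := Int.abs_sub_lt_one_of_floor_eq_floor (hi2.trans hj2.symm)
        have h2 : inner ℝ (e i) v - inner ℝ (e j) v =
            (inner ℝ (e i) v / ρ - inner ℝ (e j) v / ρ) * ρ := by
          field_simp
        rw [h2, abs_mul, abs_of_pos hρ0]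
        nlinarith
      exact_mod_cast Finset.card_le_card hsub
  have hcard : (J.card : ℝ) ≤ (2 * L + 1 : ℝ) * (A * (30 * ρ / δ) ^ al) := by
    have hL0 : (0 : ℤ) ≤ L := Int.ceil_nonneg (by positivity)
    have h1 := Finset.card_eq_sum_card_fiberwise (f := κ) (s := J) (t := Finset.Icc (-L) L)
      (fun j hj => hmaps j hj)
    have h2 : (J.card : ℝ) = ∑ c ∈ Finset.Icc (-L) L, ((J.filter fun j => κ j = c).card : ℝ) := by
      exact_mod_cast h1
    rw [h2]
    refine (Finset.sum_le_sum hfib).trans (le_of_eq ?_)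
    rw [Finset.sum_const, nsmul_eq_mul]
    congr 1
    rw [Int.card_Icc]
    have h3 : ((L + 1 - -L).toNat : ℤ) = 2 * L + 1 := by
      rw [Int.toNat_of_nonneg (by omega)]
      ring
    have h4 : (((L + 1 - -L).toNat : ℤ) : ℝ) = ((2 * L + 1 : ℤ) : ℝ) := by rw [h3]
    push_cast at h4
    exact h4
  have hLr : (L : ℝ) < φ / ρ + 1 := Int.ceil_lt_add_one _
  have h1ρ : 1 ≤ φ / ρ := by rw [le_div_iff₀ hρ0]; linarith
  have hmin : min (φ / δ) (ψ / δ) = ρ / δ := by
    rw [hρ]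
    rcases le_total φ ψ with h | h
    · rw [min_eq_left h, min_eq_left (by gcongr)]
    · rw [min_eq_right h, min_eq_right (by gcongr)]
  rw [hmin]
  calc (J.card : ℝ) ≤ (2 * L + 1 : ℝ) * (A * (30 * ρ / δ) ^ al) := hcard
    _ ≤ (5 * (φ / ρ)) * (A * (30 * ρ / δ) ^ al) := by
        gcongr
        linarith
    _ = 5 * 30 ^ al * A * (φ / ρ * (ρ / δ) ^ al) := by
        have : 30 * ρ / δ = 30 * (ρ / δ) := by ring
        rw [this, Real.mul_rpow (by norm_num) (by positivity)]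
        ring
    _ = _ := by
        have h2 : (ρ / δ) ^ al = (ρ / δ) * (ρ / δ) ^ (al - 1) := by
          nth_rewrite 2 [← Real.rpow_one (ρ / δ)]
          rw [← Real.rpow_add (by positivity)]
          congr 1
          ring
        rw [h2]
        field_simp

/-- The row sum of the hairbrush matrix, for `al`-dimensional sets of directions. -/
theorem rowsumA {al ε : ℝ} (hal : 1 < al) (hε : 0 < ε) (hε1 : ε ≤ al - 1) {A : ℝ} (hA : 0 ≤ A) :
    ∃ C : ℝ, 1 ≤ C ∧ ∀ (δ : ℝ), 0 < δ → δ < 1 → ∀ {ι : Type} [Fintype ι]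
    (e : ι → E n), (∀ i, ‖e i‖ = 1) → DimLE δ al A e →
    ∀ (w v : E n), ‖w‖ = 1 → ‖v‖ = 1 → inner ℝ w v = 0 →
    ∀ (J : Finset ι) (α h : ℝ), δ ≤ α → 0 < h → h ≤ 1 →
      (∀ j ∈ J, ‖w - e j‖ ≤ 1 ∧ ‖w - e j‖ ≤ 4 * α ∧ h * ‖res w v (e j)‖ ≤ 24 * δ) →
      ∑ j ∈ J, δ / max ‖w - e j‖ δ ≤ C * (h ^ (-(al - 1)) * (α * h / δ) ^ ε) := by
  set K : ℝ := 5 * 30 ^ al * A with hK
  have hK0 : 0 ≤ K := by positivity
  have h2ε : 1 < (2 : ℝ) ^ ε := Real.one_lt_rpow (by norm_num) hε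
  set C0 : ℝ := 2 * K * 24 ^ (al - 1 - ε) * (2 ^ ε * 8 ^ ε / (2 ^ ε - 1)) with hC0
  have hC0p : 0 ≤ C0 := by
    have : 0 < (2 : ℝ) ^ ε - 1 := by linarith
    positivity
  refine ⟨C0 + 1, by linarith, ?_⟩
  intro δ hδ hδ1 ι _ e he hdim w v hw hv hwv J α h hα hh hh1 hJ
  classical
  have hα0 : 0 < α := by linarith
  obtain ⟨p0, hp0, hp1⟩ := exists_nat_pow_near (x := 4 * α / δ) (y := (2 : ℝ)) (by
    rw [le_div_iff₀ hδ]; linarith) (by norm_num)
  set P := p0 + 1 with hP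
  have hPup : (2 : ℝ) ^ P ≤ 8 * α / δ := by
    rw [hP, pow_succ]
    have : 8 * α / δ = 4 * α / δ * 2 := by ring
    rw [this]
    gcongr
  have hPlo : 4 * α ≤ 2 ^ P * δ := by
    rw [div_lt_iff₀ hδ] at hp1
    exact hp1.le
  have hcnt : ∀ p : ℕ, ((J.filter (fun j => ‖w - e j‖ ≤ 2 ^ p * δ)).card : ℝ) ≤
      K * 2 ^ p * ((2 ^ p : ℝ) ^ ε * (24 / h) ^ (al - 1 - ε)) := by
    intro p
    have h2p : (1 : ℝ) ≤ 2 ^ p := one_le_pow₀ (by norm_num)
    have h24 : 1 ≤ 24 / h := by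
      rw [le_div_iff₀ hh]; linarith
    have h1 := countA hδ hA he hdim hw hv hwv (J.filter (fun j => ‖w - e j‖ ≤ 2 ^ p * δ))
      (φ := 2 ^ p * δ) (ψ := 24 * δ / h) (by nlinarith) (by
        have : 24 * δ / h = (24 / h) * δ := by ring
        rw [this]; nlinarith) (by
        intro j hj
        rw [Finset.mem_filter] at hj
        refine ⟨(hJ j hj.1).1, hj.2, ?_⟩
        rw [le_div_iff₀ hh, mul_comm]
        exact (hJ j hj.1).2.2)
    have e1 : 2 ^ p * δ / δ = (2 : ℝ) ^ p := by field_simp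
    have e2 : 24 * δ / h / δ = 24 / h := by field_simp
    rw [e1, e2] at h1
    refine h1.trans ?_
    have hmin : 0 < min ((2 : ℝ) ^ p) (24 / h) := lt_min (by positivity) (by positivity)
    have h3 : min ((2 : ℝ) ^ p) (24 / h) ^ (al - 1) ≤ (2 ^ p : ℝ) ^ ε * (24 / h) ^ (al - 1 - ε) := by
      have e3 : min ((2 : ℝ) ^ p) (24 / h) ^ (al - 1) =
          min ((2 : ℝ) ^ p) (24 / h) ^ ε * min ((2 : ℝ) ^ p) (24 / h) ^ (al - 1 - ε) := by
        rw [← Real.rpow_add hmin]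
        congr 1
        ring
      rw [e3]
      gcongr
      · exact min_le_left _ _
      · exact min_le_right _ _
    gcongr
  have hgeo : ∑ p ∈ Finset.range (P + 1), ((2 : ℝ) ^ p) ^ ε ≤
      2 ^ ε * (8 * α / δ) ^ ε / (2 ^ ε - 1) := by
    have e1 : ∀ p : ℕ, ((2 : ℝ) ^ p) ^ ε = ((2 : ℝ) ^ ε) ^ p := by
      intro p
      rw [← Real.rpow_natCast, ← Real.rpow_natCast, ← Real.rpow_mul (by norm_num),
        ← Real.rpow_mul (by norm_num), mul_comm]
    rw [Finset.sum_congr rfl fun p _ => e1 p, geom_sum_eq h2ε.ne']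
    have h3 : 0 < (2 : ℝ) ^ ε - 1 := by linarith
    gcongr
    have h4 : ((2 : ℝ) ^ ε) ^ (P + 1) = 2 ^ ε * ((2 : ℝ) ^ P) ^ ε := by
      rw [pow_succ', ← e1]
    rw [h4]
    have h5 : ((2 : ℝ) ^ P) ^ ε ≤ (8 * α / δ) ^ ε := by gcongr
    have h6 : 2 ^ ε * ((2 : ℝ) ^ P) ^ ε ≤ 2 ^ ε * (8 * α / δ) ^ ε := by gcongr
    linarith
  have hfac : 0 ≤ h ^ (-(al - 1)) * (α * h / δ) ^ ε := by positivity
  have hmain : ∑ j ∈ J, δ / max ‖w - e j‖ δ ≤ C0 * (h ^ (-(al - 1)) * (α * h / δ) ^ ε) := by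
    calc ∑ j ∈ J, δ / max ‖w - e j‖ δ
        ≤ ∑ j ∈ J, 2 * ∑ p ∈ Finset.range (P + 1),
          (if ‖w - e j‖ ≤ 2 ^ p * δ then ((2 : ℝ) ^ p)⁻¹ else 0) :=
          Finset.sum_le_sum fun j hj => dyad hδ ((hJ j hj).2.1.trans hPlo)
      _ = 2 * ∑ p ∈ Finset.range (P + 1), ((2 : ℝ) ^ p)⁻¹ *
          ((J.filter (fun j => ‖w - e j‖ ≤ 2 ^ p * δ)).card : ℝ) := by
          rw [← Finset.mul_sum, Finset.sum_comm]
          congr 1
          refine Finset.sum_congr rfl fun p _ => ?_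
          rw [← Finset.sum_filter, Finset.sum_const, nsmul_eq_mul, mul_comm]
      _ ≤ 2 * ∑ p ∈ Finset.range (P + 1), ((2 : ℝ) ^ p)⁻¹ *
          (K * 2 ^ p * ((2 ^ p : ℝ) ^ ε * (24 / h) ^ (al - 1 - ε))) := by
          gcongr with p hp
          exact hcnt p
      _ = 2 * K * (24 / h) ^ (al - 1 - ε) * ∑ p ∈ Finset.range (P + 1), ((2 : ℝ) ^ p) ^ ε := by
          rw [Finset.mul_sum, Finset.mul_sum]
          refine Finset.sum_congr rfl fun p _ => ?_
          have : (2 : ℝ) ^ p ≠ 0 := by positivity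
          field_simp
      _ ≤ 2 * K * (24 / h) ^ (al - 1 - ε) * (2 ^ ε * (8 * α / δ) ^ ε / (2 ^ ε - 1)) := by
          gcongr
      _ = C0 * (h ^ (-(al - 1)) * (α * h / δ) ^ ε) := by
          have e1 : (24 / h) ^ (al - 1 - ε) = 24 ^ (al - 1 - ε) * h ^ (-(al - 1)) * h ^ ε := by
            rw [Real.div_rpow (by norm_num) hh.le, div_eq_mul_inv, ← Real.rpow_neg hh.le, mul_assoc,
              ← Real.rpow_add hh]
            congr 2
            ring
          have e2 : (8 * α / δ) ^ ε = 8 ^ ε * (α / δ) ^ ε := by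
            rw [mul_div_assoc, Real.mul_rpow (by norm_num) (by positivity)]
          have e3 : (α * h / δ) ^ ε = (α / δ) ^ ε * h ^ ε := by
            rw [← Real.mul_rpow (by positivity) hh.le]
            congr 1
            ring
          rw [e1, e2, e3, hC0]
          ring
  calc ∑ j ∈ J, δ / max ‖w - e j‖ δ ≤ C0 * (h ^ (-(al - 1)) * (α * h / δ) ^ ε) := hmain
    _ ≤ _ := by nlinarith

end Pool.Agent.Y254
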