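import Pool.Agent.TH705.RR.Vol
set_option autoImplicit false

/-!
# Geometry of tubes: pieces, intersections, coplanarity
-/

open MeasureTheory Set Metric
open scoped ENNReal NNReal

namespace Pool.Agent.Y254
open Pool.Agent.TH705.RR (E vb vb_pos Rod vol_rod vol_cball vol_ball sn sn_sq sn_nonneg sn_le_one
  diff_sq perp_norm)

variable {n : ℕ}

/-- The `δ`-tube with centre `a` and direction `e`. -/
def tube (δ : ℝ) (a e : E n) : Set (E n) :=
  {y | |inner ℝ (y - a) e| ≤ 1 / 2 ∧ ‖(y - a) - (inner ℝ (y - a) e) • e‖ ≤ δ}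

theorem tube_closed (δ : ℝ) (a e : E n) : IsClosed (tube δ a e) := by
  have h1 : Continuous fun y : E n => |inner ℝ (y - a) e| := by fun_prop
  have h2 : Continuous fun y : E n => ‖(y - a) - (inner ℝ (y - a) e) • e‖ := by fun_prop
  exact (isClosed_le h1 continuous_const).inter (isClosed_le h2 continuous_const)

theorem tube_meas (δ : ℝ) (a e : E n) : MeasurableSet (tube δ a e) :=
  (tube_closed δ a e).measurableSet

/-- Two points of a tube differ by a multiple of the direction, up to `2 δ`. -/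
theorem tube_diff {δ : ℝ} {a e x y : E n} (hx : x ∈ tube δ a e) (hy : y ∈ tube δ a e) :
    ‖(y - x) - (inner ℝ (y - x) e) • e‖ ≤ 2 * δ := by
  have h1 : (y - x) - (inner ℝ (y - x) e) • e =
      ((y - a) - (inner ℝ (y - a) e) • e) - ((x - a) - (inner ℝ (x - a) e) • e) := by
    have h2 : (inner ℝ (y - x) e : ℝ) = inner ℝ (y - a) e - inner ℝ (x - a) e := by
      rw [← inner_sub_left]
      congr 1
      abel
    rw [h2, sub_smul]
    abel
  rw [h1]
  calc _ ≤ ‖(y - a) - (inner ℝ (y - a) e) • e‖ + ‖(x - a) - (inner ℝ (x - a) e) • e‖ := norm_sub_le _ _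
    _ ≤ δ + δ := add_le_add hy.2 hx.2
    _ = _ := by ring

/-- The constant in the volume of a piece of a tube. -/
noncomputable def Cv (n : ℕ) : ℝ := 2 ^ n * vb n * 10 * 2 ^ (n - 1)

theorem Cv_pos (n : ℕ) : 0 < Cv n := by
  have := vb_pos n
  unfold Cv
  positivity

theorem vol_near (hn : 1 ≤ n) {a e : E n} (he : ‖e‖ = 1) {δ r : ℝ} (hδ : 0 < δ) (hr : 0 < r)
    (z : E n) : volume {x | x ∈ tube δ a e ∧ ‖x - z‖ ≤ r} ≤ ENNReal.ofReal (Cv n * r * δ ^ (n - 1)) := by
  have hv := vb_pos n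
  rcases Set.eq_empty_or_nonempty {x | x ∈ tube δ a e ∧ ‖x - z‖ ≤ r} with h0 | ⟨x0, hx0, hx0z⟩
  · rw [h0]; simp
  have hclose : ∀ x, x ∈ {x | x ∈ tube δ a e ∧ ‖x - z‖ ≤ r} → ‖x - x0‖ ≤ 2 * r := by
    rintro x ⟨_, hx⟩
    have h1 : x - x0 = (x - z) - (x0 - z) := by abel
    rw [h1]
    refine (norm_sub_le _ _).trans ?_
    linarith
  rcases le_total δ r with h | h
  · have hsub : {x | x ∈ tube δ a e ∧ ‖x - z‖ ≤ r} ⊆ Rod x0 e (2 * r) (2 * δ) := by
      intro x hx
      refine ⟨inner ℝ (x - x0) e, ?_, tube_diff hx0 hx.1⟩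
      have := abs_real_inner_le_norm (x - x0) e
      rw [he, mul_one] at this
      exact this.trans (hclose x hx)
    refine (measure_mono hsub).trans ((vol_rod hn x0 he (by positivity) (by positivity)).trans ?_)
    apply ENNReal.ofReal_le_ofReal
    have h1 : 2 * (2 * r) + 3 * (2 * δ) ≤ 10 * r := by linarith
    unfold Cv
    calc 2 ^ n * vb n * (2 * (2 * r) + 3 * (2 * δ)) * (2 * δ) ^ (n - 1)
        ≤ 2 ^ n * vb n * (10 * r) * (2 * δ) ^ (n - 1) := by gcongr
      _ = _ := by rw [mul_pow]; ring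
  · have hsub : {x | x ∈ tube δ a e ∧ ‖x - z‖ ≤ r} ⊆ closedBall x0 (2 * r) := by
      intro x hx
      rw [mem_closedBall, dist_eq_norm]
      exact hclose x hx
    refine (measure_mono hsub).trans (le_of_eq_of_le (vol_cball _ (by positivity)) ?_)
    apply ENNReal.ofReal_le_ofReal
    obtain ⟨m, rfl⟩ : ∃ m, n = m + 1 := ⟨n - 1, by omega⟩
    unfold Cv
    rw [Nat.add_sub_cancel]
    have h2m : (1 : ℝ) ≤ 2 ^ m := one_le_pow₀ (by norm_num)
    calc (2 * r) ^ (m + 1) * vb (m + 1) = 2 ^ (m + 1) * vb (m + 1) * (r ^ m * r) := by ring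
      _ ≤ 2 ^ (m + 1) * vb (m + 1) * (δ ^ m * r) := by gcongr
      _ ≤ (2 ^ (m + 1) * vb (m + 1) * (δ ^ m * r)) * (10 * 2 ^ m) := by
          apply le_mul_of_one_le_right (by positivity)
          nlinarith
      _ = _ := by ring

theorem vol_tube (hn : 1 ≤ n) {a e : E n} (he : ‖e‖ = 1) {δ : ℝ} (hδ : 0 < δ) (hδ1 : δ < 1) :
    volume (tube δ a e) ≤ ENNReal.ofReal (Cv n * 2 * δ ^ (n - 1)) := by
  refine le_trans (measure_mono ?_) (vol_near hn (a := a) he hδ two_pos a)
  intro x hx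
  refine ⟨hx, ?_⟩
  have h1 : x - a = ((x - a) - (inner ℝ (x - a) e) • e) + (inner ℝ (x - a) e) • e := by abel
  rw [h1]
  refine (norm_add_le _ _).trans ?_
  rw [norm_smul, he, mul_one, Real.norm_eq_abs]
  have := hx.1
  have := hx.2
  linarith

theorem inter_near {δ : ℝ} (hδ : 0 < δ) {a a' e e' x y : E n} (he : ‖e‖ = 1) (he' : ‖e'‖ = 1)
    (hx : x ∈ tube δ a e ∩ tube δ a' e') (hy : y ∈ tube δ a e ∩ tube δ a' e') :
    ‖y - x‖ * sn e e' ≤ 6 * δ := by
  have h1 := tube_diff hx.1 hy.1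
  have h2 := tube_diff hx.2 hy.2
  set s : ℝ := inner ℝ (y - x) e
  set t : ℝ := inner ℝ (y - x) e'
  have h3 : ‖t • e' - s • e‖ ≤ 4 * δ := by
    have h4 : t • e' - s • e = ((y - x) - s • e) - ((y - x) - t • e') := by abel
    rw [h4]
    refine (norm_sub_le _ _).trans ?_
    linarith
  have h5 := diff_sq he he' s t
  have h6 : (s * sn e e') ^ 2 ≤ (4 * δ) ^ 2 := by
    calc (s * sn e e') ^ 2 ≤ ‖t • e' - s • e‖ ^ 2 := by
          rw [h5]
          nlinarith [sq_nonneg (t - s * inner ℝ e e')]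
      _ ≤ _ := by gcongr
  have h7 : |s| * sn e e' ≤ 4 * δ := by
    have := abs_le_of_sq_le_sq h6 (by positivity)
    rw [abs_mul, abs_of_nonneg (sn_nonneg e e')] at this
    exact this
  have h8 : ‖y - x‖ ≤ |s| + 2 * δ := by
    have h9 : y - x = s • e + ((y - x) - s • e) := by abel
    calc ‖y - x‖ = ‖s • e + ((y - x) - s • e)‖ := by rw [← h9]
      _ ≤ ‖s • e‖ + ‖(y - x) - s • e‖ := norm_add_le _ _
      _ ≤ |s| + 2 * δ := by
          rw [norm_smul, he, mul_one, Real.norm_eq_abs]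
          linarith
  have h10 := sn_le_one e e'
  have h11 := sn_nonneg e e'
  calc ‖y - x‖ * sn e e' ≤ (|s| + 2 * δ) * sn e e' := by gcongr
    _ = |s| * sn e e' + 2 * δ * sn e e' := by ring
    _ ≤ 4 * δ + 2 * δ * 1 := by gcongr
    _ = _ := by ring

theorem vol_inter (hn : 1 ≤ n) {δ : ℝ} (hδ : 0 < δ) {a a' e e' : E n} (he : ‖e‖ = 1)
    (he' : ‖e'‖ = 1) (hs : 0 < sn e e') :
    volume (tube δ a e ∩ tube δ a' e') ≤
      ENNReal.ofReal (Cv n * (6 * δ / sn e e') * δ ^ (n - 1)) := by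
  rcases Set.eq_empty_or_nonempty (tube δ a e ∩ tube δ a' e') with h0 | ⟨x0, hx0⟩
  · rw [h0]; simp
  refine le_trans (measure_mono ?_) (vol_near hn (a := a) he hδ (by positivity) x0)
  intro x hx
  refine ⟨hx.1, ?_⟩
  rw [le_div_iff₀ hs]
  exact inter_near hδ he he' hx0 hx

/-- Nearby directions: the sine of the angle is comparable with the distance. -/
theorem sn_ge {e e' : E n} (he : ‖e‖ = 1) (he' : ‖e'‖ = 1) (h : ‖e - e'‖ ≤ 1) :
    ‖e - e'‖ / 2 ≤ sn e e' := by
  have h1 : ‖e - e'‖ ^ 2 = 2 - 2 * inner ℝ e e' := by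
    rw [norm_sub_sq_real, he, he']; ring
  have h2 : ‖e - e'‖ ^ 2 ≤ 1 := by
    have := norm_nonneg (e - e')
    nlinarith
  have h3 : (‖e - e'‖ / 2) ^ 2 ≤ sn e e' ^ 2 := by
    rw [sn_sq he he', div_pow, h1]
    nlinarith
  exact abs_le_of_sq_le_sq' h3 (sn_nonneg _ _) |>.2

/-- Volume of the intersection of two tubes with nearby directions. -/
theorem vol_inter' (hn : 1 ≤ n) {δ : ℝ} (hδ : 0 < δ) {a a' e e' : E n} (he : ‖e‖ = 1)
    (he' : ‖e'‖ = 1) (h1 : ‖e - e'‖ ≤ 1) (h0 : 0 < ‖e - e'‖) :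
    volume (tube δ a e ∩ tube δ a' e') ≤
      ENNReal.ofReal (Cv n * 12 * (δ / ‖e - e'‖) * δ ^ (n - 1)) := by
  have h2 := sn_ge he he' h1
  have hs : 0 < sn e e' := by linarith
  refine (vol_inter hn hδ he he' hs).trans (ENNReal.ofReal_le_ofReal ?_)
  have hC := Cv_pos n
  have h3 : 6 * δ / sn e e' ≤ 12 * (δ / ‖e - e'‖) := by
    rw [div_le_iff₀ hs]
    calc 6 * δ = 12 * (δ / ‖e - e'‖) * (‖e - e'‖ / 2) := by field_simp; norm_num
      _ ≤ _ := by gcongr
  calc Cv n * (6 * δ / sn e e') * δ ^ (n - 1) ≤ Cv n * (12 * (δ / ‖e - e'‖)) * δ ^ (n - 1) := by gcongr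
    _ = _ := by ring

/-- The component of `x` orthogonal to `w` and `v` (for orthonormal `w`, `v`). -/
noncomputable def res (w v x : E n) : E n := x - (inner ℝ x w) • w - (inner ℝ x v) • v

theorem res_add (w v x y : E n) : res w v (x + y) = res w v x + res w v y := by
  unfold res
  rw [inner_add_left, inner_add_left, add_smul, add_smul]
  abel

theorem res_smul (w v x : E n) (t : ℝ) : res w v (t • x) = t • res w v x := by
  unfold res
  rw [real_inner_smul_left, real_inner_smul_left, smul_sub, smul_sub, smul_smul, smul_smul]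

theorem res_sub (w v x y : E n) : res w v (x - y) = res w v x - res w v y := by
  unfold res
  rw [inner_sub_left, inner_sub_left, sub_smul, sub_smul]
  abel

theorem res_norm {w v : E n} (hw : ‖w‖ = 1) (hv : ‖v‖ = 1) (x : E n) : ‖res w v x‖ ≤ 3 * ‖x‖ := by
  unfold res
  have h1 := abs_real_inner_le_norm x w
  have h2 := abs_real_inner_le_norm x v
  rw [hw, mul_one] at h1
  rw [hv, mul_one] at h2
  calc ‖x - (inner ℝ x w) • w - (inner ℝ x v) • v‖
      ≤ ‖x‖ + ‖(inner ℝ x w) • w‖ + ‖(inner ℝ x v) • v‖ :=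
        (norm_sub_le _ _).trans (by gcongr; exact norm_sub_le _ _)
    _ ≤ ‖x‖ + ‖x‖ + ‖x‖ := by
        rw [norm_smul, norm_smul, hw, hv, mul_one, mul_one, Real.norm_eq_abs, Real.norm_eq_abs]
        gcongr
    _ = _ := by ring

/-- The unit vector of the plane of `w` and `e`, orthogonal to `w`. -/
noncomputable def dirn (w e : E n) : E n := (sn w e)⁻¹ • (e - (inner ℝ w e) • w)

theorem dirn_norm {w e : E n} (hw : ‖w‖ = 1) (he : ‖e‖ = 1) (h : 0 < sn w e) : ‖dirn w e‖ = 1 := by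
  unfold dirn
  rw [norm_smul, perp_norm hw he, norm_inv, Real.norm_eq_abs, abs_of_pos h, inv_mul_cancel₀ h.ne']

theorem dirn_inner {w e : E n} (hw : ‖w‖ = 1) : inner ℝ w (dirn w e) = 0 := by
  unfold dirn
  rw [real_inner_smul_right, inner_sub_right, real_inner_smul_right, real_inner_self_eq_norm_sq, hw]
  ring

theorem res_w {w v : E n} (hw : ‖w‖ = 1) (hwv : inner ℝ w v = 0) : res w v w = 0 := by
  unfold res
  rw [real_inner_self_eq_norm_sq, hw, hwv]
  simp

theorem res_v {w v : E n} (hv : ‖v‖ = 1) (hwv : inner ℝ w v = 0) : res w v v = 0 := by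
  unfold res
  rw [real_inner_self_eq_norm_sq, hv, real_inner_comm, hwv]
  simp

theorem res_e {w e : E n} (hw : ‖w‖ = 1) (he : ‖e‖ = 1) (h : 0 < sn w e) :
    res w (dirn w e) e = 0 := by
  have h1 : e = (inner ℝ w e : ℝ) • w + sn w e • dirn w e := by
    unfold dirn
    rw [smul_smul, mul_inv_cancel₀ h.ne', one_smul]
    abel
  have h2 : res w (dirn w e) ((inner ℝ w e : ℝ) • w + sn w e • dirn w e) = 0 := by
    rw [res_add, res_smul, res_smul, res_w hw (dirn_inner hw),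
      res_v (dirn_norm hw he h) (dirn_inner hw)]
    simp
  rw [← h1] at h2
  exact h2

/-- Three tubes meeting pairwise: the third direction is near the plane of the first two. -/
theorem coplanar {δ h : ℝ} (hδ : 0 < δ) {a a' a'' e e' e'' x x'' y : E n}
    (he : ‖e‖ = 1) (he' : ‖e'‖ = 1) (he'' : ‖e''‖ = 1) (hs : 0 < sn e' e)
    (hx : x ∈ tube δ a e ∩ tube δ a' e') (hx'' : x'' ∈ tube δ a e ∩ tube δ a'' e'')
    (hy : y ∈ tube δ a' e' ∩ tube δ a'' e'') (hh : h ≤ ‖y - x''‖) :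
    h * ‖res e' (dirn e' e) e''‖ ≤ 24 * δ := by
  set v := dirn e' e with hv
  have hvn : ‖v‖ = 1 := dirn_norm he' he hs
  have hvi : inner ℝ e' v = 0 := dirn_inner he'
  have h1 := tube_diff hx''.2 hy.2
  have h2 := tube_diff hx.2 hy.1
  have h3 := tube_diff hx''.1 hx.1
  set s'' : ℝ := inner ℝ (y - x'') e''
  set s' : ℝ := inner ℝ (y - x) e'
  set s : ℝ := inner ℝ (x - x'') e
  have h4 : s'' • e'' = s' • e' + s • e + (((y - x) - s' • e') + ((x - x'') - s • e) -
      ((y - x'') - s'' • e'')) := by abel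
  have h5 : s'' • res e' v e'' = res e' v (((y - x) - s' • e') + ((x - x'') - s • e) -
      ((y - x'') - s'' • e'')) := by
    rw [← res_smul]
    nth_rewrite 1 [h4]
    rw [res_add, res_add, res_smul, res_smul, res_w he' hvi, res_e he' he hs]
    simp
  have h6 : ‖((y - x) - s' • e') + ((x - x'') - s • e) - ((y - x'') - s'' • e'')‖ ≤ 6 * δ := by
    refine (norm_sub_le _ _).trans ?_
    have := norm_add_le ((y - x) - s' • e') ((x - x'') - s • e)
    linarith
  have h7 : |s''| * ‖res e' v e''‖ ≤ 18 * δ := by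
    have h8 : |s''| * ‖res e' v e''‖ = ‖s'' • res e' v e''‖ := by
      rw [norm_smul, Real.norm_eq_abs]
    rw [h8, h5]
    refine (res_norm he' hvn _).trans ?_
    linarith
  have h9 : ‖y - x''‖ ≤ |s''| + 2 * δ := by
    have h10 : y - x'' = s'' • e'' + ((y - x'') - s'' • e'') := by abel
    calc ‖y - x''‖ = ‖s'' • e'' + ((y - x'') - s'' • e'')‖ := by rw [← h10]
      _ ≤ ‖s'' • e''‖ + ‖(y - x'') - s'' • e''‖ := norm_add_le _ _
      _ ≤ |s''| + 2 * δ := by
          rw [norm_smul, he'', mul_one, Real.norm_eq_abs]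
          linarith
  have h11 : ‖res e' v e''‖ ≤ 3 := by
    have := res_norm he' hvn e''
    rwa [he'', mul_one] at this
  have h12 := norm_nonneg (res e' v e'')
  calc h * ‖res e' v e''‖ ≤ (|s''| + 2 * δ) * ‖res e' v e''‖ := by
        gcongr
        exact hh.trans h9
    _ = |s''| * ‖res e' v e''‖ + 2 * δ * ‖res e' v e''‖ := by ring
    _ ≤ 18 * δ + 2 * δ * 3 := by gcongr
    _ = _ := by ring

end Pool.Agent.Y254
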