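import Mathlib
set_option autoImplicit false
set_option linter.unusedSectionVars false

/-!
# An abstract hairbrush inequality

A family of sets `A i`, whose multiplicity is at least `l` wherever it is positive, which is
transversal (at each point at least half of the sets through it are transversal to a given one), is
controlled by the largest local mass `κ`, by the pair bounds `b k` and by the row sums `R k`.
-/

open MeasureTheory Set
open scoped ENNReal NNReal

namespace Pool.Agent.Y254

theorem two_mul_le' (a b : ℝ≥0∞) : 2 * a * b ≤ a ^ 2 + b ^ 2 := by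
  by_cases ha : a = ∞
  · subst ha; simp
  by_cases hb : b = ∞
  · subst hb; simp
  lift a to ℝ≥0 using ha
  lift b to ℝ≥0 using hb
  exact_mod_cast two_mul_le_add_sq a b

theorem sum_sq_le {ι : Type*} (s : Finset ι) (a : ι → ℝ≥0∞) :
    (∑ i ∈ s, a i) ^ 2 ≤ s.card * ∑ i ∈ s, a i ^ 2 := by
  have h : 2 * (∑ i ∈ s, a i) ^ 2 ≤ 2 * (s.card * ∑ i ∈ s, a i ^ 2) := by
    calc 2 * (∑ i ∈ s, a i) ^ 2 = ∑ i ∈ s, ∑ j ∈ s, 2 * a i * a j := by
          rw [sq, Finset.sum_mul_sum, Finset.mul_sum]
          refine Finset.sum_congr rfl fun i _ => ?_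
          rw [Finset.mul_sum]
          refine Finset.sum_congr rfl fun j _ => ?_
          ring
      _ ≤ ∑ i ∈ s, ∑ j ∈ s, (a i ^ 2 + a j ^ 2) :=
          Finset.sum_le_sum fun i _ => Finset.sum_le_sum fun j _ => two_mul_le' _ _
      _ = _ := by
          simp only [Finset.sum_add_distrib, Finset.sum_const, nsmul_eq_mul]
          rw [← Finset.mul_sum]
          ring
  exact (ENNReal.mul_le_mul_iff_right (by norm_num) (by norm_num)).1 h

theorem cs_sq {X : Type*} [MeasurableSpace X] (m : Measure X) {f g : X → ℝ≥0∞}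
    (hf : Measurable f) (hg : Measurable g) :
    (∫⁻ x, f x * g x ∂m) ^ 2 ≤ (∫⁻ x, f x ^ 2 ∂m) * ∫⁻ x, g x ^ 2 ∂m := by
  have h := ENNReal.lintegral_mul_le_Lp_mul_Lq m Real.HolderConjugate.two_two hf.aemeasurable
    hg.aemeasurable
  have h2 := ENNReal.rpow_le_rpow h (by norm_num : (0 : ℝ) ≤ 2)
  rw [ENNReal.mul_rpow_of_nonneg _ _ (by norm_num), ← ENNReal.rpow_mul, ← ENNReal.rpow_mul] at h2
  norm_num at h2
  exact h2

/-- Schur's test for a symmetric matrix. -/
theorem schur {ι : Type*} (T : Finset ι) (M : ι → ι → ℝ≥0∞) (hM : ∀ j l, M j l = M l j)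
    (W : ι → ℝ≥0∞) (R : ℝ≥0∞) (hR : ∀ j ∈ T, ∑ l ∈ T, M j l ≤ R) :
    ∑ j ∈ T, ∑ l ∈ T, M j l * (W j * W l) ≤ R * ∑ j ∈ T, W j ^ 2 := by
  have h : 2 * (∑ j ∈ T, ∑ l ∈ T, M j l * (W j * W l)) ≤ 2 * (R * ∑ j ∈ T, W j ^ 2) := by
    calc 2 * (∑ j ∈ T, ∑ l ∈ T, M j l * (W j * W l))
        = ∑ j ∈ T, ∑ l ∈ T, M j l * (2 * W j * W l) := by
          rw [Finset.mul_sum]
          refine Finset.sum_congr rfl fun i _ => ?_
          rw [Finset.mul_sum]
          refine Finset.sum_congr rfl fun j _ => ?_
          ring
      _ ≤ ∑ j ∈ T, ∑ l ∈ T, M j l * (W j ^ 2 + W l ^ 2) :=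
          Finset.sum_le_sum fun i _ => Finset.sum_le_sum fun j _ => by
            gcongr
            exact two_mul_le' _ _
      _ = (∑ j ∈ T, ∑ l ∈ T, M j l * W j ^ 2) + ∑ j ∈ T, ∑ l ∈ T, M j l * W l ^ 2 := by
          simp only [mul_add, Finset.sum_add_distrib]
      _ = (∑ j ∈ T, ∑ l ∈ T, M j l * W j ^ 2) + ∑ j ∈ T, ∑ l ∈ T, M j l * W j ^ 2 := by
          congr 1
          rw [Finset.sum_comm]
          refine Finset.sum_congr rfl fun i _ => Finset.sum_congr rfl fun j _ => ?_
          rw [hM]
      _ = 2 * (∑ j ∈ T, (∑ l ∈ T, M j l) * W j ^ 2) := by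
          rw [← two_mul]
          congr 1
          refine Finset.sum_congr rfl fun i _ => ?_
          rw [Finset.sum_mul]
      _ ≤ 2 * (∑ j ∈ T, R * W j ^ 2) := by
          gcongr with j hj
          exact hR j hj
      _ = _ := by rw [← Finset.mul_sum]
  exact (ENNReal.mul_le_mul_iff_right (by norm_num) (by norm_num)).1 h

section hair

variable {X : Type*} [MeasurableSpace X] {ι : Type*} [Fintype ι]

/-- The multiplicity of a family of sets. -/
noncomputable def mult (A : ι → Set X) (x : X) : ℝ≥0∞ := ∑ i, (A i).indicator 1 x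

theorem mult_meas {A : ι → Set X} (hA : ∀ i, MeasurableSet (A i)) : Measurable (mult A) :=
  Finset.measurable_sum _ fun i _ => measurable_one.indicator (hA i)

theorem mult_le (A : ι → Set X) (x : X) : mult A x ≤ Fintype.card ι := by
  unfold mult
  calc ∑ i, (A i).indicator 1 x ≤ ∑ _i : ι, (1 : ℝ≥0∞) := Finset.sum_le_sum fun i _ => by
        by_cases h : x ∈ A i
        · rw [indicator_of_mem h]; rfl
        · rw [indicator_of_notMem h]; exact zero_le
    _ = _ := by simp

theorem mult_ne_top (A : ι → Set X) (x : X) : mult A x ≠ ∞ :=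
  ne_top_of_le_ne_top (ENNReal.natCast_ne_top _) (mult_le A x)

theorem one_le_mult {A : ι → Set X} {x : X} {i : ι} (h : x ∈ A i) : 1 ≤ mult A x := by
  unfold mult
  calc (1 : ℝ≥0∞) = (A i).indicator 1 x := by rw [indicator_of_mem h]; rfl
    _ ≤ _ := Finset.single_le_sum (f := fun i => (A i).indicator (1 : X → ℝ≥0∞) x)
        (fun _ _ => zero_le) (Finset.mem_univ i)

theorem lint_mult (m : Measure X) {A : ι → Set X} (hA : ∀ i, MeasurableSet (A i)) :
    ∫⁻ x, mult A x ∂m = ∑ i, m (A i) := by
  unfold mult
  rw [lintegral_finsetSum _ fun i _ => measurable_one.indicator (hA i)]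
  refine Finset.sum_congr rfl fun i _ => ?_
  exact lintegral_indicator_one (hA i)

/-- The weighted kernel. -/
noncomputable def ker (m : Measure X) (A : ι → Set X) (far : Set (X × X)) (i j : ι) (y : X) : ℝ≥0∞ :=
  ∫⁻ x, (A i).indicator 1 x * (A j).indicator 1 x * (mult A x)⁻¹ * far.indicator 1 (x, y) ∂m

/-- The weighted intersection. -/
noncomputable def wt (m : Measure X) (A : ι → Set X) (i j : ι) : ℝ≥0∞ :=
  ∫⁻ x, (A i).indicator 1 x * (A j).indicator 1 x * (mult A x)⁻¹ ∂m

/-- The weighted number of pairs. -/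
noncomputable def prs (m : Measure X) (A : ι → Set X) (far : Set (X × X)) (i j : ι) : ℝ≥0∞ :=
  ∫⁻ y, (A j).indicator 1 y * ker m A far i j y ∂m

/-- The relation of lying in one hairbrush. -/
def Brush (A : ι → Set X) (far : Set (X × X)) (i j l : ι) : Prop :=
  ∃ y ∈ A j ∩ A l, (∃ x ∈ A i ∩ A j, (x, y) ∈ far) ∧ ∃ x ∈ A i ∩ A l, (x, y) ∈ far

theorem brush_comm {A : ι → Set X} {far : Set (X × X)} {i j l : ι} :
    Brush A far i j l ↔ Brush A far i l j := by
  constructor <;>
  · rintro ⟨y, hy, h1, h2⟩
    exact ⟨y, ⟨hy.2, hy.1⟩, h2, h1⟩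

variable {m : Measure X} [SFinite m] {A : ι → Set X} {far : Set (X × X)}

theorem base_meas (hA : ∀ i, MeasurableSet (A i)) (i j : ι) :
    Measurable fun x => (A i).indicator (1 : X → ℝ≥0∞) x * (A j).indicator 1 x * (mult A x)⁻¹ :=
  ((measurable_one.indicator (hA i)).mul (measurable_one.indicator (hA j))).mul (mult_meas hA).inv

theorem far_meas (hfar : MeasurableSet far) :
    Measurable fun p : X × X => far.indicator (1 : X × X → ℝ≥0∞) p :=
  measurable_one.indicator hfar

theorem ker_meas (hA : ∀ i, MeasurableSet (A i)) (hfar : MeasurableSet far) (i j : ι) :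
    Measurable (ker m A far i j) := by
  unfold ker
  apply Measurable.lintegral_prod_left' (f := fun p : X × X => (A i).indicator (1 : X → ℝ≥0∞) p.1 *
    (A j).indicator 1 p.1 * (mult A p.1)⁻¹ * far.indicator 1 p)
  exact ((base_meas hA i j).comp measurable_fst).mul (far_meas hfar)

theorem ker_le (i j : ι) (y : X) : ker m A far i j y ≤ wt m A i j := by
  unfold ker wt
  apply lintegral_mono
  intro x
  dsimp only
  conv_rhs => rw [← mul_one ((A i).indicator 1 x * (A j).indicator 1 x * (mult A x)⁻¹)]
  gcongr
  by_cases h : (x, y) ∈ far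
  · rw [indicator_of_mem h]; rfl
  · rw [indicator_of_notMem h]; exact zero_le

theorem ker_ne_zero {i j : ι} {y : X} (h : ker m A far i j y ≠ 0) :
    ∃ x ∈ A i ∩ A j, (x, y) ∈ far := by
  by_contra hcon
  apply h
  unfold ker
  rw [lintegral_eq_zero_of_ae_eq_zero]
  refine Filter.Eventually.of_forall fun x => ?_
  simp only [Pi.zero_apply, mul_eq_zero]
  by_cases h1 : x ∈ A i
  · by_cases h2 : x ∈ A j
    · right
      rw [indicator_of_notMem]
      intro h3
      exact hcon ⟨x, ⟨h1, h2⟩, h3⟩
    · left; left; right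
      rw [indicator_of_notMem h2]
  · left; left; left
    rw [indicator_of_notMem h1]

theorem wt_le {l : ℝ≥0∞} (hA : ∀ i, MeasurableSet (A i)) (hl : ∀ x, ∀ i, x ∈ A i → l ≤ mult A x)
    (i j : ι) : wt m A i j ≤ l⁻¹ * m (A i ∩ A j) := by
  unfold wt
  calc ∫⁻ x, (A i).indicator 1 x * (A j).indicator 1 x * (mult A x)⁻¹ ∂m
      ≤ ∫⁻ x, l⁻¹ * (A i ∩ A j).indicator 1 x ∂m := by
        apply lintegral_mono
        intro x
        dsimp only
        by_cases h1 : x ∈ A i
        · by_cases h2 : x ∈ A j
          · rw [indicator_of_mem h1, indicator_of_mem h2, indicator_of_mem (mem_inter h1 h2)]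
            simp only [Pi.one_apply, one_mul, mul_one]
            exact ENNReal.inv_le_inv.2 (hl x i h1)
          · rw [indicator_of_notMem h2]; simp
        · rw [indicator_of_notMem h1]; simp
    _ = l⁻¹ * m (A i ∩ A j) := by
        rw [lintegral_const_mul _ (measurable_one.indicator ((hA i).inter (hA j))),
          lintegral_indicator_one ((hA i).inter (hA j))]

theorem sum_wt (hA : ∀ i, MeasurableSet (A i)) :
    ∑ i, ∑ j, wt m A i j = ∫⁻ x, mult A x ∂m := by
  unfold wt
  have h1 : ∀ i, ∑ j, ∫⁻ x, (A i).indicator 1 x * (A j).indicator 1 x * (mult A x)⁻¹ ∂m =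
      ∫⁻ x, ∑ j, (A i).indicator 1 x * (A j).indicator 1 x * (mult A x)⁻¹ ∂m := by
    intro i
    rw [lintegral_finsetSum _ fun j _ => base_meas hA i j]
  rw [Finset.sum_congr rfl fun i _ => h1 i, ← lintegral_finsetSum _ fun i _ =>
    Finset.measurable_sum _ fun j _ => base_meas hA i j]
  apply lintegral_congr
  intro x
  have h2 : ∑ i, ∑ j, (A i).indicator (1 : X → ℝ≥0∞) x * (A j).indicator 1 x * (mult A x)⁻¹ =
      mult A x * mult A x * (mult A x)⁻¹ := by
    conv_rhs => unfold mult
    rw [Finset.sum_mul_sum, Finset.sum_mul]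
    refine Finset.sum_congr rfl fun i _ => ?_
    rw [Finset.sum_mul]
    rfl
  rw [h2]
  by_cases h0 : mult A x = 0
  · rw [h0]; simp
  · rw [mul_assoc, ENNReal.mul_inv_cancel h0 (mult_ne_top A x), mul_one]

/-- The lower bound for the number of pairs. -/
theorem pairs_lower (hA : ∀ i, MeasurableSet (A i)) (hfar : MeasurableSet far)
    {κ : ℝ≥0∞} (hκ : ∀ x j, m {y | y ∈ A j ∧ (x, y) ∉ far} ≤ κ) (Tr : ι → ι → Prop)
    [∀ i j, Decidable (Tr i j)]
    (htr : ∀ x j, x ∈ A j → mult A x ≤ 2 * ∑ i, if Tr i j then (A i).indicator 1 x else 0) (j : ι) :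
    m (A j) ^ 2 ≤ 2 * (∑ i, if Tr i j then prs m A far i j else 0) + κ * m (A j) := by
  classical
  set D : X → ℝ≥0∞ := fun x => ∫⁻ y, (A j).indicator 1 y * far.indicator 1 (x, y) ∂m with hD
  have hDm : Measurable D := by
    apply Measurable.lintegral_prod_right' (f := fun p : X × X => (A j).indicator (1 : X → ℝ≥0∞) p.2 *
      far.indicator 1 p)
    exact ((measurable_one.indicator (hA j)).comp measurable_snd).mul (far_meas hfar)
  have hmD : ∀ x, m (A j) ≤ D x + κ := by
    intro x
    have h1 : A j ⊆ {y | y ∈ A j ∧ (x, y) ∈ far} ∪ {y | y ∈ A j ∧ (x, y) ∉ far} := by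
      intro y hy
      by_cases h : (x, y) ∈ far
      · exact Or.inl ⟨hy, h⟩
      · exact Or.inr ⟨hy, h⟩
    have hms : MeasurableSet {y | y ∈ A j ∧ (x, y) ∈ far} :=
      (hA j).inter (measurable_prodMk_left hfar)
    have h2 : m {y | y ∈ A j ∧ (x, y) ∈ far} = D x := by
      rw [hD, ← lintegral_indicator_one hms]
      apply lintegral_congr
      intro y
      by_cases h : y ∈ A j
      · by_cases h' : (x, y) ∈ far
        · rw [indicator_of_mem (show y ∈ {y | y ∈ A j ∧ (x, y) ∈ far} from ⟨h, h'⟩),
            indicator_of_mem h, indicator_of_mem h']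
          simp
        · rw [indicator_of_notMem (show y ∉ {y | y ∈ A j ∧ (x, y) ∈ far} from fun hh => h' hh.2),
            indicator_of_notMem h']
          simp
      · rw [indicator_of_notMem (show y ∉ {y | y ∈ A j ∧ (x, y) ∈ far} from fun hh => h hh.1),
          indicator_of_notMem h]
        simp
    calc m (A j) ≤ m {y | y ∈ A j ∧ (x, y) ∈ far} + m {y | y ∈ A j ∧ (x, y) ∉ far} :=
          (measure_mono h1).trans (measure_union_le _ _)
      _ ≤ D x + κ := by
          rw [h2]
          gcongr
          exact hκ x j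
  -- the weights
  have hone : ∀ x, x ∈ A j → (1 : ℝ≥0∞) ≤
      2 * ∑ i, if Tr i j then (A i).indicator 1 x * (mult A x)⁻¹ else 0 := by
    intro x hx
    have h0 : mult A x ≠ 0 := by
      have := one_le_mult hx
      intro h
      rw [h] at this
      simp at this
    have h1 := htr x j hx
    have h2 : mult A x * (mult A x)⁻¹ ≤
        2 * (∑ i, if Tr i j then (A i).indicator 1 x else 0) * (mult A x)⁻¹ := by
      gcongr
    rw [ENNReal.mul_inv_cancel h0 (mult_ne_top A x)] at h2
    refine h2.trans (le_of_eq ?_)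
    rw [mul_assoc, Finset.sum_mul]
    congr 1
    refine Finset.sum_congr rfl fun i _ => ?_
    split_ifs <;> simp
  have hprs : ∀ i, ∫⁻ x, (A i).indicator 1 x * (A j).indicator 1 x * (mult A x)⁻¹ * D x ∂m =
      prs m A far i j := by
    intro i
    unfold prs ker
    have e1 : ∀ x, (A i).indicator 1 x * (A j).indicator 1 x * (mult A x)⁻¹ * D x =
        ∫⁻ y, (A i).indicator 1 x * (A j).indicator 1 x * (mult A x)⁻¹ *
          ((A j).indicator 1 y * far.indicator 1 (x, y)) ∂m := by
      intro x
      rw [hD, lintegral_const_mul]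
      exact (measurable_one.indicator (hA j)).mul ((far_meas hfar).comp measurable_prodMk_left)
    have e2 : ∀ y, (A j).indicator 1 y * ∫⁻ x, (A i).indicator 1 x * (A j).indicator 1 x *
        (mult A x)⁻¹ * far.indicator 1 (x, y) ∂m =
        ∫⁻ x, (A j).indicator 1 y * ((A i).indicator 1 x * (A j).indicator 1 x *
        (mult A x)⁻¹ * far.indicator 1 (x, y)) ∂m := by
      intro y
      rw [lintegral_const_mul]
      exact (base_meas hA i j).mul ((far_meas hfar).comp measurable_prodMk_right)
    simp only [e1, e2]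
    rw [lintegral_lintegral_swap]
    · apply lintegral_congr; intro y
      apply lintegral_congr; intro x
      ring
    · apply Measurable.aemeasurable
      exact ((base_meas hA i j).comp measurable_fst).mul
        (((measurable_one.indicator (hA j)).comp measurable_snd).mul (far_meas hfar))
  calc m (A j) ^ 2 = ∫⁻ x, (A j).indicator 1 x * m (A j) ∂m := by
        rw [lintegral_mul_const _ (measurable_one.indicator (hA j)),
          lintegral_indicator_one (hA j), sq]
    _ ≤ ∫⁻ x, ((A j).indicator 1 x * D x + (A j).indicator 1 x * κ) ∂m := by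
        apply lintegral_mono
        intro x
        dsimp only
        rw [← mul_add]
        gcongr
        exact hmD x
    _ = ∫⁻ x, (A j).indicator 1 x * D x ∂m + κ * m (A j) := by
        rw [lintegral_add_right _ ((measurable_one.indicator (hA j)).mul_const _),
          lintegral_mul_const _ (measurable_one.indicator (hA j)),
          lintegral_indicator_one (hA j), mul_comm κ]
    _ ≤ ∫⁻ x, 2 * (∑ i, if Tr i j then (A i).indicator 1 x * (A j).indicator 1 x * (mult A x)⁻¹ * D x
          else 0) ∂m + κ * m (A j) := by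
        refine add_le_add (lintegral_mono fun x => ?_) le_rfl
        dsimp only
        by_cases hx : x ∈ A j
        · have h1 := hone x hx
          calc (A j).indicator 1 x * D x = 1 * D x := by rw [indicator_of_mem hx]; rfl
            _ ≤ (2 * ∑ i, if Tr i j then (A i).indicator 1 x * (mult A x)⁻¹ else 0) * D x := by
                gcongr
            _ = _ := by
                rw [mul_assoc, Finset.sum_mul]
                congr 1
                refine Finset.sum_congr rfl fun i _ => ?_
                rw [indicator_of_mem hx]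
                split_ifs <;> simp
        · rw [indicator_of_notMem hx]; simp
    _ = 2 * (∑ i, if Tr i j then prs m A far i j else 0) + κ * m (A j) := by
        have hm1 : ∀ i, Measurable fun x => if Tr i j then (A i).indicator (1 : X → ℝ≥0∞) x *
            (A j).indicator 1 x * (mult A x)⁻¹ * D x else 0 := by
          intro i
          by_cases h : Tr i j
          · simp only [h, if_true]
            exact (base_meas hA i j).mul hDm
          · simp only [h, if_false]
            exact measurable_const
        rw [lintegral_const_mul _ (Finset.measurable_sum _ fun i _ => hm1 i),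
          lintegral_finsetSum _ fun i _ => hm1 i]
        congr 2
        refine Finset.sum_congr rfl fun i _ => ?_
        by_cases h : Tr i j
        · simp only [h, if_true]
          exact hprs i
        · simp [h]

/-- The upper bound for one stem and one class. -/
theorem brush_upper (hA : ∀ i, MeasurableSet (A i)) (hfar : MeasurableSet far) (i : ι)
    (T : Finset ι) {R b : ℝ≥0∞} (hb : ∀ j ∈ T, wt m A i j ≤ b)
    (hR : ∀ j ∈ T, ∑ l ∈ T, (open Classical in if Brush A far i j l then m (A j ∩ A l) else 0) ≤ R) :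
    (∑ j ∈ T, prs m A far i j) ^ 2 ≤ m (⋃ j, A j) * (R * (b * ∑ j ∈ T, wt m A i j)) := by
  classical
  have hU : MeasurableSet (⋃ j, A j) := MeasurableSet.iUnion hA
  set G : X → ℝ≥0∞ := fun y => ∑ j ∈ T, (A j).indicator 1 y * ker m A far i j y with hG
  have hGm1 : ∀ j, Measurable fun y => (A j).indicator (1 : X → ℝ≥0∞) y * ker m A far i j y :=
    fun j => (measurable_one.indicator (hA j)).mul (ker_meas hA hfar i j)
  have hGm : Measurable G := Finset.measurable_sum _ fun j _ => hGm1 j
  have h1 : ∑ j ∈ T, prs m A far i j = ∫⁻ y, (⋃ j, A j).indicator 1 y * G y ∂m := by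
    unfold prs
    rw [← lintegral_finsetSum _ fun j _ => hGm1 j]
    apply lintegral_congr
    intro y
    by_cases hy : y ∈ ⋃ j, A j
    · rw [indicator_of_mem hy]
      simp [hG]
    · rw [indicator_of_notMem hy, zero_mul]
      apply Finset.sum_eq_zero
      intro j _
      rw [indicator_of_notMem (fun h => hy (mem_iUnion.2 ⟨j, h⟩)), zero_mul]
  have h2 := cs_sq m (measurable_one.indicator hU) hGm
  rw [← h1] at h2
  have h3 : ∫⁻ x, (⋃ j, A j).indicator (1 : X → ℝ≥0∞) x ^ 2 ∂m = m (⋃ j, A j) := by
    rw [← lintegral_indicator_one hU]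
    apply lintegral_congr
    intro y
    by_cases hy : y ∈ ⋃ j, A j
    · rw [indicator_of_mem hy]; simp
    · rw [indicator_of_notMem hy]; simp
  rw [h3] at h2
  refine h2.trans (mul_le_mul' le_rfl ?_)
  have h4 : ∀ j l, ∫⁻ y, ((A j).indicator 1 y * ker m A far i j y) *
      ((A l).indicator 1 y * ker m A far i l y) ∂m ≤
      (if Brush A far i j l then m (A j ∩ A l) else 0) * (wt m A i j * wt m A i l) := by
    intro j l
    by_cases hB : Brush A far i j l
    · rw [if_pos hB]
      calc ∫⁻ y, ((A j).indicator 1 y * ker m A far i j y) *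
          ((A l).indicator 1 y * ker m A far i l y) ∂m
          ≤ ∫⁻ y, (A j ∩ A l).indicator 1 y * (wt m A i j * wt m A i l) ∂m := by
            apply lintegral_mono
            intro y
            dsimp only
            by_cases hj : y ∈ A j
            · by_cases hl : y ∈ A l
              · rw [indicator_of_mem hj, indicator_of_mem hl,
                  indicator_of_mem (mem_inter hj hl)]
                simp only [Pi.one_apply, one_mul]
                gcongr
                · exact ker_le i j y
                · exact ker_le i l y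
              · rw [indicator_of_notMem hl]; simp
            · rw [indicator_of_notMem hj]; simp
        _ = _ := by
            rw [lintegral_mul_const _ (measurable_one.indicator ((hA j).inter (hA l))),
              lintegral_indicator_one ((hA j).inter (hA l))]
    · rw [if_neg hB, zero_mul]
      rw [nonpos_iff_eq_zero, lintegral_eq_zero_of_ae_eq_zero]
      refine Filter.Eventually.of_forall fun y => ?_
      simp only [Pi.zero_apply]
      by_contra hcon
      apply hB
      have hne := mul_ne_zero_iff.1 hcon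
      have hj := mul_ne_zero_iff.1 hne.1
      have hl := mul_ne_zero_iff.1 hne.2
      have hyj : y ∈ A j := by
        by_contra h
        exact hj.1 (indicator_of_notMem h _)
      have hyl : y ∈ A l := by
        by_contra h
        exact hl.1 (indicator_of_notMem h _)
      exact ⟨y, ⟨hyj, hyl⟩, ker_ne_zero hj.2, ker_ne_zero hl.2⟩
  calc ∫⁻ x, G x ^ 2 ∂m = ∫⁻ y, ∑ j ∈ T, ∑ l ∈ T, ((A j).indicator 1 y * ker m A far i j y) *
      ((A l).indicator 1 y * ker m A far i l y) ∂m := by
        apply lintegral_congr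
        intro y
        rw [hG, sq, Finset.sum_mul_sum]
    _ = ∑ j ∈ T, ∑ l ∈ T, ∫⁻ y, ((A j).indicator 1 y * ker m A far i j y) *
      ((A l).indicator 1 y * ker m A far i l y) ∂m := by
        have hGm2 : ∀ j l, Measurable fun y => ((A j).indicator (1 : X → ℝ≥0∞) y *
            ker m A far i j y) * ((A l).indicator 1 y * ker m A far i l y) :=
          fun j l => (hGm1 j).mul (hGm1 l)
        rw [lintegral_finsetSum _ fun j _ => Finset.measurable_sum _ fun l _ => hGm2 j l]
        refine Finset.sum_congr rfl fun j _ => ?_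
        rw [lintegral_finsetSum _ fun l _ => hGm2 j l]
    _ ≤ ∑ j ∈ T, ∑ l ∈ T, (if Brush A far i j l then m (A j ∩ A l) else 0) *
        (wt m A i j * wt m A i l) :=
        Finset.sum_le_sum fun j _ => Finset.sum_le_sum fun l _ => h4 j l
    _ ≤ R * ∑ j ∈ T, wt m A i j ^ 2 := by
        apply schur
        · intro j l
          by_cases hB : Brush A far i j l
          · rw [if_pos hB, if_pos (brush_comm.1 hB), inter_comm]
          · rw [if_neg hB, if_neg (fun h => hB (brush_comm.1 h))]
        · exact hR
    _ ≤ R * (b * ∑ j ∈ T, wt m A i j) := by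
        refine mul_le_mul' le_rfl ?_
        rw [Finset.mul_sum]
        apply Finset.sum_le_sum
        intro j hj
        rw [sq]
        gcongr
        exact hb j hj

/-- The hairbrush inequality. -/
theorem hair (hA : ∀ i, MeasurableSet (A i)) (hfar : MeasurableSet far)
    (hfin : ∀ i, m (A i) ≠ ∞) {l κ : ℝ} (hl0 : 0 < l) (hκ0 : 0 ≤ κ)
    (hl : ∀ x, ∀ i, x ∈ A i → ENNReal.ofReal l ≤ mult A x)
    (hκ : ∀ x j, m {y | y ∈ A j ∧ (x, y) ∉ far} ≤ ENNReal.ofReal κ)
    (K : ℕ) (Cls : ℕ → ι → ι → Prop) [∀ k i j, Decidable (Cls k i j)]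
    (htr : ∀ x j, x ∈ A j → mult A x ≤
      2 * ∑ i, open Classical in if ∃ k < K, Cls k i j then (A i).indicator 1 x else 0)
    (b R : ℕ → ℝ) (hb0 : ∀ k, 0 ≤ b k) (hR0 : ∀ k, 0 ≤ R k)
    (hb : ∀ k < K, ∀ i j, Cls k i j → m (A i ∩ A j) ≤ ENNReal.ofReal (b k))
    (hR : ∀ k < K, ∀ i j, Cls k i j → ∑ l', (open Classical in
       if Cls k i l' ∧ Brush A far i j l' then m (A j ∩ A l') else 0) ≤ ENNReal.ofReal (R k)) :
    ∫⁻ x, mult A x ∂m ≤ ENNReal.ofReal ((Fintype.card ι : ℝ) *
      (κ + 2 / l * ∑ k ∈ Finset.range K, Real.sqrt ((Fintype.card ι : ℝ) * (R k * b k)))) := by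
  classical
  set S : ℝ≥0∞ := ∫⁻ x, mult A x ∂m with hS
  have hSs : S = ∑ i, m (A i) := lint_mult m hA
  have hStop : S ≠ ∞ := by
    rw [hSs]
    exact ENNReal.sum_ne_top.2 fun i _ => hfin i
  set N : ℝ := (Fintype.card ι : ℝ) with hN
  have hN0 : 0 ≤ N := by positivity
  have hNe : (Fintype.card ι : ℝ≥0∞) = ENNReal.ofReal N := by
    rw [hN, ENNReal.ofReal_natCast]
  set L : ℝ≥0∞ := ENNReal.ofReal l with hL
  have hL0 : L ≠ 0 := by
    rw [hL, ne_eq, ENNReal.ofReal_eq_zero, not_le]; exact hl0
  have hLt : L ≠ ∞ := ENNReal.ofReal_ne_top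
  have hmU : m (⋃ j, A j) ≤ L⁻¹ * S := by
    have h1 : L * m (⋃ j, A j) ≤ S := by
      rw [← lintegral_indicator_one (MeasurableSet.iUnion hA),
        ← lintegral_const_mul _ (measurable_one.indicator (MeasurableSet.iUnion hA)), hS]
      apply lintegral_mono
      intro x
      dsimp only
      by_cases hx : x ∈ ⋃ j, A j
      · obtain ⟨j, hj⟩ := mem_iUnion.1 hx
        rw [indicator_of_mem hx]
        simp only [Pi.one_apply, mul_one]
        exact hl x j hj
      · rw [indicator_of_notMem hx]; simp
    calc m (⋃ j, A j) = L⁻¹ * (L * m (⋃ j, A j)) := by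
          rw [← mul_assoc, ENNReal.inv_mul_cancel hL0 hLt, one_mul]
      _ ≤ _ := by gcongr
  -- each class
  set J : ℕ → ℝ≥0∞ := fun k => ∑ i, ∑ j, if Cls k i j then prs m A far i j else 0 with hJ
  have hJk : ∀ k < K, J k ≤ L⁻¹ * S * ENNReal.ofReal (Real.sqrt (N * (R k * b k))) := by
    intro k hk
    have h1 : J k ^ 2 ≤ (L⁻¹ * S * ENNReal.ofReal (Real.sqrt (N * (R k * b k)))) ^ 2 := by
      calc J k ^ 2 ≤ (Fintype.card ι : ℝ≥0∞) *
            ∑ i, (∑ j, if Cls k i j then prs m A far i j else 0) ^ 2 :=
            sum_sq_le Finset.univ _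
        _ ≤ (Fintype.card ι : ℝ≥0∞) * ∑ i, m (⋃ j, A j) * (ENNReal.ofReal (R k) *
              ((L⁻¹ * ENNReal.ofReal (b k)) * ∑ j, wt m A i j)) := by
            refine mul_le_mul' le_rfl (Finset.sum_le_sum fun i _ => ?_)
            rw [← Finset.sum_filter]
            refine (brush_upper hA hfar i (Finset.univ.filter (Cls k i)) (R := ENNReal.ofReal (R k))
              (b := L⁻¹ * ENNReal.ofReal (b k)) ?_ ?_).trans ?_
            · intro j hj
              have hc := (Finset.mem_filter.1 hj).2
              refine (wt_le hA hl i j).trans ?_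
              gcongr
              exact hb k hk i j hc
            · intro j hj
              have hc := (Finset.mem_filter.1 hj).2
              refine le_trans (le_of_eq ?_) (hR k hk i j hc)
              rw [Finset.sum_filter]
              refine Finset.sum_congr rfl fun l' _ => ?_
              by_cases h1 : Cls k i l' <;> by_cases h2 : Brush A far i j l' <;> simp [h1, h2]
            · gcongr
              exact Finset.filter_subset _ _
        _ = (Fintype.card ι : ℝ≥0∞) * (m (⋃ j, A j) * (ENNReal.ofReal (R k) *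
              ((L⁻¹ * ENNReal.ofReal (b k)) * S))) := by
            rw [← Finset.mul_sum, ← Finset.mul_sum, ← Finset.mul_sum, sum_wt hA]
        _ ≤ ENNReal.ofReal N * ((L⁻¹ * S) * (ENNReal.ofReal (R k) *
              ((L⁻¹ * ENNReal.ofReal (b k)) * S))) := by
            rw [hNe]
            gcongr
        _ = (L⁻¹ * S * ENNReal.ofReal (Real.sqrt (N * (R k * b k)))) ^ 2 := by
            have h2 : ENNReal.ofReal (Real.sqrt (N * (R k * b k))) ^ 2 =
                ENNReal.ofReal N * (ENNReal.ofReal (R k) * ENNReal.ofReal (b k)) := by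
              rw [← ENNReal.ofReal_pow (Real.sqrt_nonneg _), Real.sq_sqrt (by
                have := hR0 k
                have := hb0 k
                positivity), ENNReal.ofReal_mul hN0, ENNReal.ofReal_mul (hR0 k)]
            rw [mul_pow, h2]
            ring
    exact (ENNReal.pow_le_pow_left_iff two_ne_zero).1 h1
  -- the lower bound
  have hlow : S ^ 2 ≤ S * ENNReal.ofReal (N * (κ + 2 / l * ∑ k ∈ Finset.range K,
      Real.sqrt (N * (R k * b k)))) := by
    calc S ^ 2 ≤ (Fintype.card ι : ℝ≥0∞) * ∑ j, m (A j) ^ 2 := by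
          rw [hSs]
          exact sum_sq_le Finset.univ _
      _ ≤ (Fintype.card ι : ℝ≥0∞) * ∑ j, (2 * (∑ i, if ∃ k < K, Cls k i j then prs m A far i j else 0)
            + ENNReal.ofReal κ * m (A j)) := by
          refine mul_le_mul' le_rfl (Finset.sum_le_sum fun j _ => ?_)
          exact pairs_lower hA hfar hκ (fun i j => ∃ k < K, Cls k i j) htr j
      _ ≤ (Fintype.card ι : ℝ≥0∞) * (2 * (∑ k ∈ Finset.range K, J k) + ENNReal.ofReal κ * S) := by
          rw [Finset.sum_add_distrib, ← Finset.mul_sum, ← Finset.mul_sum, ← hSs]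
          gcongr
          calc ∑ j, ∑ i, (if ∃ k < K, Cls k i j then prs m A far i j else 0)
              ≤ ∑ j, ∑ i, ∑ k ∈ Finset.range K, (if Cls k i j then prs m A far i j else 0) := by
                refine Finset.sum_le_sum fun j _ => Finset.sum_le_sum fun i _ => ?_
                split_ifs with h
                · obtain ⟨k, hk, hc⟩ := h
                  calc prs m A far i j = if Cls k i j then prs m A far i j else 0 := by rw [if_pos hc]
                    _ ≤ _ := Finset.single_le_sum
                        (f := fun k => if Cls k i j then prs m A far i j else 0)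
                        (fun _ _ => zero_le) (Finset.mem_range.2 hk)
                · exact zero_le
            _ = ∑ k ∈ Finset.range K, J k := by
                rw [hJ]
                simp only
                rw [Finset.sum_comm]
                symm
                rw [Finset.sum_comm]
                refine Finset.sum_congr rfl fun i _ => ?_
                rw [Finset.sum_comm]
      _ ≤ (Fintype.card ι : ℝ≥0∞) * (2 * (∑ k ∈ Finset.range K,
            L⁻¹ * S * ENNReal.ofReal (Real.sqrt (N * (R k * b k)))) + ENNReal.ofReal κ * S) := by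
          gcongr with k hk
          exact hJk k (Finset.mem_range.1 hk)
      _ = _ := by
          rw [← Finset.mul_sum, ENNReal.ofReal_mul hN0, ENNReal.ofReal_add hκ0 (by positivity),
            ENNReal.ofReal_mul (by positivity), ENNReal.ofReal_div_of_pos hl0,
            ENNReal.ofReal_sum_of_nonneg (fun k _ => Real.sqrt_nonneg _), hNe, ← hL,
            ENNReal.ofReal_ofNat, ENNReal.div_eq_inv_mul]
          ring
  rcases eq_or_ne S 0 with h0 | h0
  · rw [h0]; exact zero_le
  · rw [sq] at hlow
    exact (ENNReal.mul_le_mul_iff_right h0 hStop).1 hlow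

end hair

end Pool.Agent.Y254
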