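import Pool.Agent.Y254.TransA
import Pool.Agent.Y254.Ind
set_option autoImplicit false

/-!
# The induction on the number of tubes, for sets of directions of dimension `al`
-/

open MeasureTheory Set Metric
open scoped ENNReal NNReal

namespace Pool.Agent.Y254
open Pool.Agent.TH705.RR (E vb vb_pos sn sn_sq sn_nonneg sn_le_one)

variable {n : ℕ}

/-- The bound for families of `N` tubes with nearby directions in a set of dimension `al`. -/
def GoodA (n : ℕ) (al A0 q β A : ℝ) (N : ℕ) : Prop :=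
  ∀ δ : ℝ, 0 < δ → δ < 1 → ∀ {ι : Type} [Fintype ι] (a e : ι → E n), (∀ i, ‖e i‖ = 1) →
    (∀ i j, i ≠ j → δ ≤ ‖e i - e j‖) → (∀ i j, ‖e i - e j‖ ≤ 1) → DimLE δ al A0 e →
    Fintype.card ι = N →
    ∫⁻ x, mult (fun i => tube δ (a i) (e i)) x ^ q ≤ ENNReal.ofReal (A * (δ ^ (n - 1) * (N : ℝ) ^ β))

theorem goodA_mono {al A0 q β A A' : ℝ} {N : ℕ} (h : GoodA n al A0 q β A N) (hA : A ≤ A') :
    GoodA n al A0 q β A' N := by
  intro δ hδ hδ1 ι _ a e he hsep hpair hdim hN
  refine (h δ hδ hδ1 a e he hsep hpair hdim hN).trans (ENNReal.ofReal_le_ofReal ?_)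
  gcongr

/-- Few tubes. -/
theorem goodA_small (hn : 1 ≤ n) {al A0 : ℝ} (hal : 1 ≤ al) {q : ℝ} (hq : 1 < q) {M : ℝ} {N : ℕ}
    (hN : (N : ℝ) ≤ M) : GoodA n al A0 q (q - 1 / al) (2 * Cv n * M) N := by
  intro δ hδ hδ1 ι _ a e he hsep hpair hdim hcard
  have hCv := Cv_pos n
  set T : ι → Set (E n) := fun i => tube δ (a i) (e i) with hT
  rcases Nat.eq_zero_or_pos N with h0 | h0
  · have : IsEmpty ι := Fintype.card_eq_zero_iff.1 (hcard.trans h0)
    have h1 : ∀ x, mult T x ^ q = 0 := by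
      intro x
      unfold mult
      rw [Finset.univ_eq_empty, Finset.sum_empty, ENNReal.zero_rpow_of_pos (by linarith)]
    rw [lintegral_congr h1]
    simp
  have hNr : (1 : ℝ) ≤ N := by exact_mod_cast h0
  have h1 : ∀ x, mult T x ^ q ≤ ENNReal.ofReal ((N : ℝ) ^ (q - 1)) * mult T x := by
    intro x
    rcases mult_zero_or T x with h | h
    · rw [h, ENNReal.zero_rpow_of_pos (by linarith)]; exact zero_le
    · have hne : mult T x ≠ 0 := by intro h'; rw [h'] at h; simp at h
      calc mult T x ^ q = mult T x ^ (q - 1) * mult T x := by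
            nth_rewrite 3 [← ENNReal.rpow_one (mult T x)]
            rw [← ENNReal.rpow_add _ _ hne (mult_ne_top T x)]
            congr 1
            ring
        _ ≤ _ := by
            gcongr
            rw [← ENNReal.ofReal_rpow_of_nonneg (by positivity) (by linarith)]
            apply ENNReal.rpow_le_rpow _ (by linarith)
            rw [ENNReal.ofReal_natCast, ← hcard]
            exact mult_le T x
  calc ∫⁻ x, mult T x ^ q ≤ ∫⁻ x, ENNReal.ofReal ((N : ℝ) ^ (q - 1)) * mult T x := lintegral_mono h1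
    _ = ENNReal.ofReal ((N : ℝ) ^ (q - 1)) * ∫⁻ x, mult T x := by
        rw [lintegral_const_mul _ (mult_meas fun i => tube_meas _ _ _)]
    _ ≤ ENNReal.ofReal ((N : ℝ) ^ (q - 1)) * ENNReal.ofReal (2 * Cv n * (N * δ ^ (n - 1))) := by
        gcongr
        rw [← hcard]
        exact mass hn hδ hδ1 a e he
    _ = ENNReal.ofReal ((N : ℝ) ^ (q - 1) * (2 * Cv n * (N * δ ^ (n - 1)))) := by
        rw [← ENNReal.ofReal_mul (by positivity)]
    _ ≤ _ := by
        apply ENNReal.ofReal_le_ofReal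
        have h2 : (N : ℝ) ^ (q - 1) * N ≤ M * (N : ℝ) ^ (q - 1 / al) := by
          calc (N : ℝ) ^ (q - 1) * N = (N : ℝ) ^ (1 / al) * (N : ℝ) ^ (q - 1 / al) := by
                nth_rewrite 2 [← Real.rpow_one (N : ℝ)]
                rw [← Real.rpow_add (by linarith), ← Real.rpow_add (by linarith)]
                congr 1
                ring
            _ ≤ _ := by
                gcongr
                calc (N : ℝ) ^ (1 / al) ≤ (N : ℝ) ^ (1 : ℝ) := by
                      apply Real.rpow_le_rpow_of_exponent_le hNr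
                      rw [div_le_one (by linarith)]
                      exact hal
                  _ ≤ M := by rw [Real.rpow_one]; exact hN
        calc (N : ℝ) ^ (q - 1) * (2 * Cv n * (N * δ ^ (n - 1)))
            = 2 * Cv n * δ ^ (n - 1) * ((N : ℝ) ^ (q - 1) * N) := by ring
          _ ≤ 2 * Cv n * δ ^ (n - 1) * (M * (N : ℝ) ^ (q - 1 / al)) := by gcongr
          _ = _ := by ring


/-- The transversal part. -/
theorem trans_partA (hn1 : 1 ≤ n) {al A0 : ℝ} (hal : 1 < al) (hA0 : 0 ≤ A0) {q : ℝ}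
    (hq : 1 + 2 / (al + 1) < q) {M : ℝ} (hM : 1 ≤ M) :
    ∃ C : ℝ, 0 ≤ C ∧ ∀ δ : ℝ, 0 < δ → δ < 1 → ∀ {ι : Type} [Fintype ι] (a e : ι → E n),
    (∀ i, ‖e i‖ = 1) → (∀ i j, i ≠ j → δ ≤ ‖e i - e j‖) → (∀ i j, ‖e i - e j‖ ≤ 1) →
    DimLE δ al A0 e → M ≤ Fintype.card ι →
    ∫⁻ x in trans δ (δ * (Fintype.card ι / M) ^ (1 / al)) a e,
      mult (fun i => tube δ (a i) (e i)) x ^ q ≤
      ENNReal.ofReal (C * (δ ^ (n - 1) * (Fintype.card ι : ℝ) ^ (q - 1 / al))) := by
  set ν : ℝ := al + 1 with hν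
  have hal0 : 0 < al := by linarith
  have hν0 : 0 < ν := by linarith
  set g : ℝ := q - 1 - 2 / ν with hg
  have hg0 : 0 < g := by rw [hg]; linarith
  set ε : ℝ := min (min (1 / 2) (al - 1)) (ν * g / 2) with hε
  have hε0 : 0 < ε := lt_min (lt_min (by norm_num) (by linarith)) (by positivity)
  have hεm : ε ≤ min (1 / 2) (al - 1) := min_le_left _ _
  have hε1 : ε < 1 := lt_of_le_of_lt (hεm.trans (min_le_left _ _)) (by norm_num)
  have hε2 : ε ≤ al - 1 := hεm.trans (min_le_right _ _)
  have hεg : ε / ν ≤ g / 2 := by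
    rw [div_le_iff₀ hν0]
    have := min_le_right (min (1 / 2) (al - 1)) (ν * g / 2)
    rw [← hε] at this
    linarith
  set γ : ℝ := g - ε / ν with hγ
  have hγ0 : 0 < γ := by rw [hγ]; linarith
  have h2γ : 1 < (2 : ℝ) ^ γ := Real.one_lt_rpow (by norm_num) hγ0
  have h2γ' : 0 < (2 : ℝ) ^ γ - 1 := by linarith
  obtain ⟨C, hC1, hC⟩ := trans_boundA (n := n) hn1 hal hε0 hε1 hε2 hA0
  refine ⟨2 ^ (q - 1) * (2 * C * M) * (2 ^ γ / (2 ^ γ - 1)), by positivity, ?_⟩
  intro δ hδ hδ1 ι _ a e he hsep hpair hdim hNM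
  classical
  set T : ι → Set (E n) := fun i => tube δ (a i) (e i) with hT
  have hTm : ∀ i, MeasurableSet (T i) := fun i => tube_meas _ _ _
  set N : ℝ := (Fintype.card ι : ℝ) with hN
  have hN1 : 1 ≤ N := hM.trans hNM
  have hN0 : 0 < N := by linarith
  have hM0 : 0 < M := by linarith
  set p : ℝ := 1 / al with hp
  have hp0 : 0 < p := by positivity
  set s : ℝ := δ * (N / M) ^ p with hs
  have hNM1 : 1 ≤ N / M := by rw [le_div_iff₀ hM0]; linarith
  have hsδ : δ ≤ s := by
    rw [hs]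
    have : 1 ≤ (N / M) ^ p := Real.one_le_rpow hNM1 hp0.le
    nlinarith
  have hs0 : 0 < s := by linarith
  obtain ⟨J0, hJ0, hJ1⟩ := exists_nat_pow_near hN1 (by norm_num : (1 : ℝ) < 2)
  set J := J0 + 1 with hJ
  have hJN : Fintype.card ι < 2 ^ J := by
    have : (Fintype.card ι : ℝ) < ((2 ^ J : ℕ) : ℝ) := by push_cast; exact hJ1
    exact Nat.cast_lt.1 this
  have hJup : (2 : ℝ) ^ J ≤ 2 * N := by
    rw [hJ, pow_succ]; linarith
  -- one dyadic level
  have hlev : ∀ j ∈ Finset.range J, ∫⁻ x in trans δ s a e,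
      (if ENNReal.ofReal (2 ^ j) ≤ mult T x then mult T x else 0) ≤
      ENNReal.ofReal (2 * C * M * (δ ^ (n - 1) * (N ^ (q - p - γ) * (2 ^ j : ℝ) ^ (-(2 / ν) - ε / ν)))) := by
    intro j hj
    have hj1 : (2 : ℝ) ^ j ≤ N := by
      refine le_trans (pow_le_pow_right₀ (by norm_num) ?_) hJ0
      have := Finset.mem_range.1 hj
      omega
    have hl0 : (0 : ℝ) < 2 ^ j := by positivity
    set l : ℝ := 2 ^ j with hl
    set h : ℝ := (δ * N / (s * l ^ 2)) ^ (ν⁻¹) with hh
    have hh0 : 0 < h := by positivity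
    have hhn : h ^ ν = δ * N / (s * l ^ 2) := by
      rw [hh]
      exact Real.rpow_inv_rpow (by positivity) hν0.ne'
    set S : Set (E n) := {x | ENNReal.ofReal l ≤ mult T x} with hS
    have hSm : MeasurableSet S := measurableSet_le measurable_const (mult_meas hTm)
    have h1 : ∫⁻ x in trans δ s a e, (if ENNReal.ofReal l ≤ mult T x then mult T x else 0) =
        ∫⁻ x in trans δ s a e ∩ S, mult T x := by
      rw [← lintegral_indicator (trans_meas _ _ _ _), ← lintegral_indicator
        ((trans_meas _ _ _ _).inter hSm)]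
      apply lintegral_congr
      intro x
      by_cases hx : x ∈ trans δ s a e
      · rw [indicator_of_mem hx]
        by_cases hx' : ENNReal.ofReal l ≤ mult T x
        · rw [if_pos hx', indicator_of_mem (show x ∈ trans δ s a e ∩ S from ⟨hx, hx'⟩)]
        · rw [if_neg hx', indicator_of_notMem (show x ∉ trans δ s a e ∩ S from fun hh => hx' hh.2)]
      · rw [indicator_of_notMem hx,
          indicator_of_notMem (show x ∉ trans δ s a e ∩ S from fun hh => hx hh.1)]
    rw [h1]
    refine (hC δ hδ hδ1 a e he hsep hpair hdim (trans δ s a e ∩ S) ((trans_meas _ _ _ _).inter hSm) s l h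
      hsδ hl0 hh0 hhn (fun x hx i _ => hx.2) (fun x hx i hi => by
        convert hx.1 i hi)).trans (ENNReal.ofReal_le_ofReal ?_)
    -- the arithmetic of one level
    have hsd : s / δ = (N / M) ^ p := by
      rw [hs]; field_simp
    have hX : (s * h / δ) ^ (ε / 2) ≤ (N / l) ^ (ε / ν) := by
      have hpow : ((N / M) ^ p) ^ al = N / M := by
        rw [← Real.rpow_mul (by positivity), hp, one_div, inv_mul_cancel₀ hal0.ne', Real.rpow_one]
      have h2 : (s * h / δ) ^ ν ≤ (N / l) ^ 2 := by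
        have e1 : (s * h / δ) ^ ν = (s / δ) ^ ν * h ^ ν := by
          rw [← Real.mul_rpow (by positivity) hh0.le]; congr 1; ring
        have e2 : (s / δ) ^ ν = (N / M) * (s / δ) := by
          conv_rhs => rw [← hpow, ← hsd]
          rw [hν, Real.rpow_add (by positivity), Real.rpow_one]
        rw [e1, e2, hhn]
        have e3 : N / M * (s / δ) * (δ * N / (s * l ^ 2)) = (N / l) ^ 2 / M := by
          field_simp
        rw [e3]
        exact div_le_self (by positivity) hM
      have h3 : s * h / δ ≤ (N / l) ^ (2 / ν) := by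
        have e1 : s * h / δ = ((s * h / δ) ^ ν) ^ (ν⁻¹) :=
          (Real.rpow_rpow_inv (by positivity) hν0.ne').symm
        have e2 : (N / l) ^ (2 / ν) = ((N / l) ^ 2) ^ (ν⁻¹) := by
          rw [← Real.rpow_natCast, ← Real.rpow_mul (by positivity)]
          congr 1
        rw [e1, e2]
        gcongr
      calc (s * h / δ) ^ (ε / 2) ≤ ((N / l) ^ (2 / ν)) ^ (ε / 2) := by gcongr
        _ = _ := by
            rw [← Real.rpow_mul (by positivity)]
            congr 1
            field_simp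
    have hNl : 1 ≤ (N / l) ^ (ε / ν) := by
      apply Real.one_le_rpow _ (by positivity)
      rw [le_div_iff₀ hl0]; linarith
    have hhb : h ≤ M * (N ^ ((1 - p) / ν) * l ^ (-(2 / ν) : ℝ)) := by
      have e1 : δ * N / (s * l ^ 2) = N * ((M / N) ^ p) * (l ^ 2)⁻¹ := by
        have e2 : (M / N) ^ p = δ / s := by
          have : δ / s = (s / δ)⁻¹ := by rw [inv_div]
          rw [this, hsd, ← Real.inv_rpow (by positivity), inv_div]
        rw [e2]
        field_simp
      rw [hh, e1, Real.mul_rpow (by positivity) (by positivity),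
        Real.mul_rpow (by positivity) (by positivity)]
      have e3 : ((l ^ 2)⁻¹) ^ (ν⁻¹) = l ^ (-(2 / ν) : ℝ) := by
        rw [← Real.rpow_natCast, ← Real.rpow_neg (by positivity), ← Real.rpow_mul (by positivity)]
        congr 1
        push_cast
        ring
      have e4 : N ^ (ν⁻¹) * ((M / N) ^ p) ^ (ν⁻¹) = M ^ (p / ν) * N ^ ((1 - p) / ν) := by
        rw [← Real.rpow_mul (by positivity), Real.div_rpow (by positivity) (by positivity)]
        have e5 : N ^ ((1 - p) / ν) = N ^ (ν⁻¹) / N ^ (p * ν⁻¹) := by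
          rw [← Real.rpow_sub hN0]
          congr 1
          field_simp
        rw [e5]
        have e6 : p * ν⁻¹ = p / ν := by ring
        rw [e6]
        field_simp
      rw [e4, e3]
      have e7 : M ^ (p / ν) ≤ M := by
        calc M ^ (p / ν) ≤ M ^ (1 : ℝ) := by
              apply Real.rpow_le_rpow_of_exponent_le hM
              have : p ≤ 1 := by
                rw [hp, div_le_one hal0]; linarith
              rw [div_le_one hν0]; linarith
          _ = M := Real.rpow_one M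
      calc M ^ (p / ν) * N ^ ((1 - p) / ν) * l ^ (-(2 / ν) : ℝ)
          ≤ M * N ^ ((1 - p) / ν) * l ^ (-(2 / ν) : ℝ) := by gcongr
        _ = _ := by ring
    have hexp : N * N ^ ((1 - p) / ν) * N ^ (ε / ν) = N ^ (q - p - γ) := by
      nth_rewrite 1 [← Real.rpow_one N]
      rw [← Real.rpow_add hN0, ← Real.rpow_add hN0]
      congr 1
      rw [hγ, hg]
      have : p * al = 1 := by
        rw [hp, one_div, inv_mul_cancel₀ hal0.ne']
      field_simp
      rw [hν]
      linarith
    calc C * (N * δ ^ (n - 1) * h * (1 + (s * h / δ) ^ (ε / 2)))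
        ≤ C * (N * δ ^ (n - 1) * (M * (N ^ ((1 - p) / ν) * l ^ (-(2 / ν) : ℝ))) *
          ((N / l) ^ (ε / ν) + (N / l) ^ (ε / ν))) := by gcongr
      _ = 2 * C * M * (δ ^ (n - 1) * ((N * N ^ ((1 - p) / ν) * N ^ (ε / ν)) *
          (l ^ (-(2 / ν) : ℝ) * l ^ (-(ε / ν)))) ) := by
          rw [Real.div_rpow hN0.le hl0.le, Real.rpow_neg hl0.le (ε / ν)]
          field_simp
          ring
      _ = _ := by
          rw [hexp, ← Real.rpow_add hl0]
          congr 5
  -- the sum over the levels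
  have hgeo : ∑ j ∈ Finset.range J, ((2 : ℝ) ^ j) ^ γ ≤ 2 ^ γ * N ^ γ / (2 ^ γ - 1) := by
    have e1 : ∀ j : ℕ, ((2 : ℝ) ^ j) ^ γ = ((2 : ℝ) ^ γ) ^ j := by
      intro j
      rw [← Real.rpow_natCast, ← Real.rpow_natCast, ← Real.rpow_mul (by norm_num),
        ← Real.rpow_mul (by norm_num), mul_comm]
    rw [Finset.sum_congr rfl fun j _ => e1 j, geom_sum_eq h2γ.ne']
    gcongr
    rw [← e1]
    have h5 : ((2 : ℝ) ^ J) ^ γ ≤ (2 * N) ^ γ := by gcongr
    rw [Real.mul_rpow (by norm_num) hN0.le] at h5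
    linarith
  have hpt : ∀ x, mult T x ^ q ≤ ∑ j ∈ Finset.range J, ENNReal.ofReal (((2 : ℝ) ^ (j + 1)) ^ (q - 1)) *
      (if ENNReal.ofReal (2 ^ j) ≤ mult T x then mult T x else 0) := by
    intro x
    apply dyadic_pow (mult_zero_or T x) (mult_le T x) _ hJN
    have : 0 < 2 / ν := by positivity
    linarith
  have hm1 : ∀ j : ℕ, Measurable fun x => (if ENNReal.ofReal (2 ^ j) ≤ mult T x then mult T x else 0) := by
    intro j
    exact Measurable.ite (measurableSet_le measurable_const (mult_meas hTm)) (mult_meas hTm)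
      measurable_const
  calc ∫⁻ x in trans δ s a e, mult T x ^ q
      ≤ ∫⁻ x in trans δ s a e, ∑ j ∈ Finset.range J, ENNReal.ofReal (((2 : ℝ) ^ (j + 1)) ^ (q - 1)) *
      (if ENNReal.ofReal (2 ^ j) ≤ mult T x then mult T x else 0) := lintegral_mono fun x => hpt x
    _ = ∑ j ∈ Finset.range J, ENNReal.ofReal (((2 : ℝ) ^ (j + 1)) ^ (q - 1)) *
        ∫⁻ x in trans δ s a e, (if ENNReal.ofReal (2 ^ j) ≤ mult T x then mult T x else 0) := by
        rw [lintegral_finsetSum _ fun j _ => (hm1 j).const_mul _]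
        refine Finset.sum_congr rfl fun j _ => ?_
        rw [lintegral_const_mul _ (hm1 j)]
    _ ≤ ∑ j ∈ Finset.range J, ENNReal.ofReal (((2 : ℝ) ^ (j + 1)) ^ (q - 1)) *
        ENNReal.ofReal (2 * C * M * (δ ^ (n - 1) * (N ^ (q - p - γ) *
          (2 ^ j : ℝ) ^ (-(2 / ν) - ε / ν)))) := by
        gcongr with j hj
        exact hlev j hj
    _ = ENNReal.ofReal (∑ j ∈ Finset.range J, ((2 : ℝ) ^ (j + 1)) ^ (q - 1) *
        (2 * C * M * (δ ^ (n - 1) * (N ^ (q - p - γ) * (2 ^ j : ℝ) ^ (-(2 / ν) - ε / ν))))) := by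
        rw [ENNReal.ofReal_sum_of_nonneg]
        · refine Finset.sum_congr rfl fun j _ => ?_
          rw [← ENNReal.ofReal_mul (by positivity)]
        · intro j _
          positivity
    _ ≤ _ := by
        apply ENNReal.ofReal_le_ofReal
        have e1 : ∀ j : ℕ, ((2 : ℝ) ^ (j + 1)) ^ (q - 1) * (2 * C * M * (δ ^ (n - 1) *
            (N ^ (q - p - γ) * (2 ^ j : ℝ) ^ (-(2 / ν) - ε / ν)))) =
            2 ^ (q - 1) * (2 * C * M) * (δ ^ (n - 1) * N ^ (q - p - γ)) * ((2 : ℝ) ^ j) ^ γ := by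
          intro j
          have hl0 : (0 : ℝ) < 2 ^ j := by positivity
          have e2 : ((2 : ℝ) ^ j) ^ γ = ((2 : ℝ) ^ j) ^ (q - 1) * ((2 : ℝ) ^ j) ^ (-(2 / ν) - ε / ν) := by
            rw [← Real.rpow_add hl0]
            congr 1
            rw [hγ, hg]
            ring
          rw [e2, pow_succ', Real.mul_rpow (by norm_num) hl0.le]
          ring
        rw [Finset.sum_congr rfl fun j _ => e1 j, ← Finset.mul_sum]
        calc 2 ^ (q - 1) * (2 * C * M) * (δ ^ (n - 1) * N ^ (q - p - γ)) *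
            ∑ j ∈ Finset.range J, ((2 : ℝ) ^ j) ^ γ
            ≤ 2 ^ (q - 1) * (2 * C * M) * (δ ^ (n - 1) * N ^ (q - p - γ)) *
              (2 ^ γ * N ^ γ / (2 ^ γ - 1)) := by gcongr
          _ = 2 ^ (q - 1) * (2 * C * M) * (2 ^ γ / (2 ^ γ - 1)) * (δ ^ (n - 1) *
              (N ^ (q - p - γ) * N ^ γ)) := by ring
          _ = _ := by
              rw [← Real.rpow_add hN0]
              have : q - p - γ + γ = q - p := by ring
              rw [this]

end Pool.Agent.Y254
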