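import Pool.Agent.Y254.MainA
set_option autoImplicit false

/-!
# Interpolation with the trivial `L^1` bound
-/

open MeasureTheory Set Metric
open scoped ENNReal NNReal

namespace Pool.Agent.Y254
open Pool.Agent.TH705.RR (E vb vb_pos sn sn_sq sn_nonneg sn_le_one)

variable {n : ℕ}

theorem DimLE.mono {ι : Type} [Fintype ι] {δ al A A' : ℝ} {e : ι → E n} (hδ : 0 < δ)
    (h : DimLE δ al A e) (hA : A ≤ A') : DimLE δ al A' e := by
  intro i ρ hρ
  refine (h i ρ hρ).trans ?_
  have : 0 ≤ ρ / δ := div_nonneg (by linarith) hδ.le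
  gcongr

/-- The inequality with the power `q - 1 / m` of the number of tubes, for sets of directions of
dimension `al < m`. -/
theorem sparse (hn : 1 ≤ n) {al A0 m : ℝ} (hal : 1 < al) (hm : al < m) (hA0 : 1 ≤ A0) {q : ℝ}
    (hq : 1 + 2 * al / ((al + 1) * m) < q) :
    ∃ A : ℝ, 0 < A ∧ ∀ δ : ℝ, 0 < δ → δ < 1 → ∀ {ι : Type} [Fintype ι] (a e : ι → E n),
    (∀ i, ‖e i‖ = 1) → (∀ i j, i ≠ j → δ ≤ ‖e i - e j‖) → DimLE δ al A0 e →
    ∫⁻ x, mult (fun i => tube δ (a i) (e i)) x ^ q ≤
      ENNReal.ofReal (A * (δ ^ (n - 1) * (Fintype.card ι : ℝ) ^ (q - 1 / m))) := by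
  have hal0 : 0 < al := by linarith
  have hm0 : 0 < m := by linarith
  have hCv := Cv_pos n
  set q1 : ℝ := 1 + (q - 1) * m / al with hq1
  have hqpos : 0 < 2 * al / ((al + 1) * m) := by positivity
  have hq1' : 1 + 2 / (al + 1) < q1 := by
    rw [hq1]
    have h1 : 2 / (al + 1) = (2 * al / ((al + 1) * m)) * m / al := by field_simp
    rw [h1]
    have h2 : 2 * al / ((al + 1) * m) < q - 1 := by linarith
    have : 2 * al / ((al + 1) * m) * m / al < (q - 1) * m / al := by gcongr
    linarith
  obtain ⟨A, hA, h⟩ := wolffA hn hal hA0 hq1'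
  set t : ℝ := al / m with ht
  have ht0 : 0 < t := by positivity
  have ht1 : t < 1 := by rw [ht, div_lt_one hm0]; exact hm
  have htq : (1 - t) + q1 * t = q := by
    rw [hq1, ht]
    field_simp
    ring
  refine ⟨(2 * Cv n) ^ (1 - t) * A ^ t, by positivity, ?_⟩
  intro δ hδ hδ1 ι _ a e he hsep hdim
  set T : ι → Set (E n) := fun i => tube δ (a i) (e i) with hT
  have hTm : Measurable (mult T) := mult_meas fun i => tube_meas _ _ _
  set N : ℝ := (Fintype.card ι : ℝ) with hN
  rcases Nat.eq_zero_or_pos (Fintype.card ι) with h0 | h0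
  · have : IsEmpty ι := Fintype.card_eq_zero_iff.1 h0
    have h1 : ∀ x, mult T x ^ q = 0 := by
      intro x
      unfold mult
      rw [Finset.univ_eq_empty, Finset.sum_empty, ENNReal.zero_rpow_of_pos (by linarith)]
    rw [lintegral_congr h1]
    simp
  have hN0 : 0 < N := by rw [hN]; exact_mod_cast h0
  have h1 : ∀ x, mult T x ^ q = mult T x ^ (1 - t) * (mult T x ^ q1) ^ t := by
    intro x
    rw [← ENNReal.rpow_mul, ← ENNReal.rpow_add_of_nonneg _ _ (by linarith) (by
      have : 0 < q1 := by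
        have : 0 < 2 / (al + 1) := by positivity
        linarith
      positivity), htq]
  rw [lintegral_congr h1]
  refine (ENNReal.lintegral_mul_norm_pow_le hTm.aemeasurable (hTm.pow_const q1).aemeasurable
    (by linarith) ht0.le (by ring)).trans ?_
  have hI1 := mass hn hδ hδ1 a e he
  have hI2 := h δ hδ hδ1 a e he hsep hdim
  calc (∫⁻ x, mult T x) ^ (1 - t) * (∫⁻ x, mult T x ^ q1) ^ t
      ≤ ENNReal.ofReal (2 * Cv n * (N * δ ^ (n - 1))) ^ (1 - t) *
        ENNReal.ofReal (A * (δ ^ (n - 1) * N ^ (q1 - 1 / al))) ^ t := by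
        gcongr
    _ = ENNReal.ofReal ((2 * Cv n * (N * δ ^ (n - 1))) ^ (1 - t) *
        (A * (δ ^ (n - 1) * N ^ (q1 - 1 / al))) ^ t) := by
        rw [ENNReal.ofReal_rpow_of_nonneg (by positivity) (by linarith),
          ENNReal.ofReal_rpow_of_nonneg (by positivity) ht0.le, ← ENNReal.ofReal_mul (by positivity)]
    _ ≤ _ := by
        apply ENNReal.ofReal_le_ofReal
        apply le_of_eq
        rw [Real.mul_rpow (x := 2 * Cv n) (by positivity) (by positivity),
          Real.mul_rpow (x := N) (by positivity) (by positivity),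
          Real.mul_rpow (x := A) (by positivity) (by positivity),
          Real.mul_rpow (x := δ ^ (n - 1)) (by positivity) (by positivity),
          ← Real.rpow_mul hN0.le]
        have e1 : (δ ^ (n - 1)) ^ (1 - t) * (δ ^ (n - 1)) ^ t = δ ^ (n - 1) := by
          rw [← Real.rpow_add (by positivity)]
          have : 1 - t + t = 1 := by ring
          rw [this, Real.rpow_one]
        have e2 : N ^ (1 - t) * N ^ ((q1 - 1 / al) * t) = N ^ (q - 1 / m) := by
          rw [← Real.rpow_add hN0]
          congr 1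
          have : 1 / al * t = 1 / m := by rw [ht]; field_simp
          calc 1 - t + (q1 - 1 / al) * t = (1 - t + q1 * t) - 1 / al * t := by ring
            _ = _ := by rw [htq, this]
        calc (2 * Cv n) ^ (1 - t) * (N ^ (1 - t) * (δ ^ (n - 1)) ^ (1 - t)) *
            (A ^ t * ((δ ^ (n - 1)) ^ t * N ^ ((q1 - 1 / al) * t)))
            = (2 * Cv n) ^ (1 - t) * A ^ t * (((δ ^ (n - 1)) ^ (1 - t) * (δ ^ (n - 1)) ^ t) *
              (N ^ (1 - t) * N ^ ((q1 - 1 / al) * t))) := by ring
          _ = _ := by rw [e1, e2]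

end Pool.Agent.Y254
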