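import Pool.Agent.Y254.IndA
import Pool.Agent.Y254.Main
set_option autoImplicit false

/-!
# The Kakeya inequality for sets of directions of dimension `al`
-/

open MeasureTheory Set Metric
open scoped ENNReal NNReal

namespace Pool.Agent.Y254
open Pool.Agent.TH705.RR (E vb vb_pos sn sn_sq sn_nonneg sn_le_one)

variable {n : ℕ}

theorem goodA_all (hn : 1 ≤ n) {al A0 : ℝ} (hal : 1 < al) (hA0 : 1 ≤ A0) {q : ℝ}
    (hq : 1 + 2 / (al + 1) < q) :
    ∃ A : ℝ, 0 < A ∧ ∀ N : ℕ, GoodA n al A0 q (q - 1 / al) A N := by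
  have hnr : (1 : ℝ) ≤ n := by exact_mod_cast hn
  have hal0 : 0 < al := by linarith
  have hCv := Cv_pos n
  set β : ℝ := q - 1 / al with hβ
  have hβ1 : 1 < β := by
    have h1 : 1 / al ≤ 2 / (al + 1) := by
      rw [div_le_div_iff₀ hal0 (by linarith)]; linarith
    rw [hβ]; linarith
  have hq0 : 0 < q := by
    have : 0 < 2 / (al + 1) := by positivity
    linarith
  have hq1 : 1 < q := by
    have : 0 < 2 / (al + 1) := by positivity
    linarith
  have hsn1 : 1 ≤ Real.sqrt n := by
    rw [Real.one_le_sqrt]; linarith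
  set K2 : ℝ := A0 * Real.sqrt n ^ al with hK2
  have hK21 : 1 ≤ K2 := by
    have : 1 ≤ Real.sqrt n ^ al := Real.one_le_rpow hsn1 hal0.le
    rw [hK2]; nlinarith
  set Q : ℝ := (2 * 3 ^ n) ^ q with hQ
  have hQ1 : 1 ≤ Q := by
    apply Real.one_le_rpow _ hq0.le
    have : (1 : ℝ) ≤ 3 ^ n := one_le_pow₀ (by norm_num)
    linarith
  set M : ℝ := K2 * (2 * Q) ^ (1 / (β - 1)) with hM
  have hroot : 1 < (2 * Q) ^ (1 / (β - 1)) := Real.one_lt_rpow (by linarith) (by
    have : 0 < β - 1 := by linarith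
    positivity)
  have hMK : K2 < M := by rw [hM]; nlinarith
  have hM1 : 1 ≤ M := by linarith
  have hMpow : (K2 / M) ^ (β - 1) * Q = 1 / 2 := by
    have h1 : K2 / M = ((2 * Q) ^ (1 / (β - 1)))⁻¹ := by
      rw [hM]
      field_simp
    have h2 : (0 : ℝ) < β - 1 := by linarith
    rw [h1, ← Real.rpow_neg (by positivity), ← Real.rpow_mul (by positivity)]
    have h3 : -(1 / (β - 1)) * (β - 1) = -1 := by field_simp
    rw [h3, Real.rpow_neg_one]
    field_simp
  obtain ⟨C3, hC30, hC3⟩ := trans_partA (A0 := A0) hn hal (by linarith) hq hM1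
  set A : ℝ := 2 * C3 + 2 * Cv n * M with hA
  have hA0 : 0 < A := by positivity
  refine ⟨A, hA0, ?_⟩
  intro N
  induction N using Nat.strong_induction_on with
  | _ N ih =>
  rcases le_or_gt (N : ℝ) M with hNM | hNM
  · refine goodA_mono (goodA_small hn hal.le hq1 hNM) ?_
    rw [hA]; linarith
  intro δ hδ hδ1 ι _ a e he hsep hpair hdim hcard
  classical
  set T : ι → Set (E n) := fun i => tube δ (a i) (e i) with hT
  have hN0 : (0 : ℝ) < N := by linarith
  have hM0 : 0 < M := by linarith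
  set s : ℝ := δ * ((N : ℝ) / M) ^ (1 / al) with hs
  have hsδ : δ ≤ s := by
    rw [hs]
    have h1 : 1 ≤ (N : ℝ) / M := by rw [le_div_iff₀ hM0]; linarith
    have : 1 ≤ ((N : ℝ) / M) ^ (1 / al) := Real.one_le_rpow h1 (by positivity)
    nlinarith
  have hs0 : 0 < s := by linarith
  have htr := hC3 δ hδ hδ1 a e he hsep hpair hdim (by rw [hcard]; exact hNM.le)
  rw [hcard, ← hs, ← hβ] at htr
  have hB : ∀ c ∈ Finset.univ.image (fun i => cell s (e i)),
      (Fintype.card {i // cell s (e i) = c} : ℝ) ≤ K2 * (N / M) := by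
    intro c hc
    obtain ⟨i0, _, hi0⟩ := Finset.mem_image.1 hc
    have h1 := hdim i0 (Real.sqrt n * s) (by nlinarith)
    rw [Fintype.card_subtype]
    have h0 : (((Finset.univ : Finset ι).filter fun i => cell s (e i) = c).card : ℝ) ≤
        (((Finset.univ : Finset ι).filter fun j => ‖e j - e i0‖ ≤ Real.sqrt n * s).card : ℝ) := by
      have h3 : ((Finset.univ : Finset ι).filter fun i => cell s (e i) = c) ⊆
          (Finset.univ : Finset ι).filter fun j => ‖e j - e i0‖ ≤ Real.sqrt n * s := by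
        intro j hj
        have hj' := (Finset.mem_filter.1 hj).2
        rw [Finset.mem_filter]
        exact ⟨Finset.mem_univ _, cell_close hs0 (hj'.trans hi0.symm)⟩
      exact_mod_cast Finset.card_le_card h3
    refine (h0.trans h1).trans (le_of_eq ?_)
    have h2 : Real.sqrt n * s / δ = Real.sqrt n * ((N : ℝ) / M) ^ (1 / al) := by
      rw [hs]; field_simp
    rw [h2, Real.mul_rpow (by positivity) (by positivity), hK2, ← Real.rpow_mul (by positivity),
      one_div, inv_mul_cancel₀ hal0.ne', Real.rpow_one]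
    ring
  have hlt : ∀ c ∈ Finset.univ.image (fun i => cell s (e i)),
      Fintype.card {i // cell s (e i) = c} < N := by
    intro c hc
    have h1 := hB c hc
    have h2 : K2 * ((N : ℝ) / M) < N := by
      rw [← mul_div_assoc, div_lt_iff₀ hM0]
      nlinarith
    exact_mod_cast h1.trans_lt h2
  have hI : ∀ c ∈ Finset.univ.image (fun i => cell s (e i)),
      ∫⁻ x, mult (fun i : {i // cell s (e i) = c} => tube δ (a i) (e i)) x ^ q ≤
      ENNReal.ofReal (A * (δ ^ (n - 1) * (Fintype.card {i // cell s (e i) = c} : ℝ) ^ β)) := by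
    intro c hc
    exact ih _ (hlt c hc) δ hδ hδ1 (fun i : {i // cell s (e i) = c} => a i)
      (fun i : {i // cell s (e i) = c} => e i) (fun i => he i)
      (fun i j hij => hsep i j (fun h => hij (Subtype.ext h))) (fun i j => hpair i j)
      (hdim.sub _) rfl
  have hcon := parts_int (n := n) (δ := δ) (a := a) (e := e) (fun i => cell s (e i)) (q := q) (β := β)
    (A := A) (Q := Q) (B := K2 * (N / M)) (by positivity) hA0.le hβ1.le hδ
    (G := (trans δ s a e)ᶜ) (by
      intro x hx
      refine (not_trans hs0 hx hq0).trans (le_of_eq ?_)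
      congr 1
      rw [hQ, ← ENNReal.ofReal_rpow_of_nonneg (by positivity) hq0.le]
      congr 1
      rw [ENNReal.ofReal_mul (by norm_num), ENNReal.ofReal_pow (by norm_num)]
      norm_num) (trans_meas _ _ _ _).compl hI hB
  rw [← lintegral_add_compl _ (trans_meas δ s a e)]
  refine (add_le_add htr hcon).trans ?_
  rw [← ENNReal.ofReal_add (by positivity) (by positivity), hcard]
  apply ENNReal.ofReal_le_ofReal
  have h1 : (K2 * ((N : ℝ) / M)) ^ (β - 1) * N = (K2 / M) ^ (β - 1) * (N : ℝ) ^ β := by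
    have h2 : K2 * ((N : ℝ) / M) = K2 / M * N := by ring
    rw [h2, Real.mul_rpow (by positivity) hN0.le, mul_assoc]
    congr 1
    nth_rewrite 2 [← Real.rpow_one (N : ℝ)]
    rw [← Real.rpow_add hN0]
    congr 1
    ring
  rw [h1]
  have h3 : Q * A * (δ ^ (n - 1) * ((K2 / M) ^ (β - 1) * (N : ℝ) ^ β)) =
      ((K2 / M) ^ (β - 1) * Q) * A * (δ ^ (n - 1) * (N : ℝ) ^ β) := by ring
  rw [h3, hMpow]
  have h4 : 0 ≤ δ ^ (n - 1) * (N : ℝ) ^ β := by positivity
  have h5 : C3 + 1 / 2 * A ≤ A := by rw [hA]; nlinarith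
  calc C3 * (δ ^ (n - 1) * (N : ℝ) ^ β) + 1 / 2 * A * (δ ^ (n - 1) * (N : ℝ) ^ β)
      = (C3 + 1 / 2 * A) * (δ ^ (n - 1) * (N : ℝ) ^ β) := by ring
    _ ≤ A * (δ ^ (n - 1) * (N : ℝ) ^ β) := by gcongr

/-- The inequality for families of `δ`-tubes with `δ`-separated orientations in a set of
dimension `al`. -/
theorem wolffA (hn : 1 ≤ n) {al A0 : ℝ} (hal : 1 < al) (hA0 : 1 ≤ A0) {q : ℝ}
    (hq : 1 + 2 / (al + 1) < q) :
    ∃ A : ℝ, 0 < A ∧ ∀ δ : ℝ, 0 < δ → δ < 1 → ∀ {ι : Type} [Fintype ι] (a e : ι → E n),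
    (∀ i, ‖e i‖ = 1) → (∀ i j, i ≠ j → δ ≤ ‖e i - e j‖) → DimLE δ al A0 e →
    ∫⁻ x, mult (fun i => tube δ (a i) (e i)) x ^ q ≤
      ENNReal.ofReal (A * (δ ^ (n - 1) * (Fintype.card ι : ℝ) ^ (q - 1 / al))) := by
  have hnr : (1 : ℝ) ≤ n := by exact_mod_cast hn
  have hn0 : (0 : ℝ) < n := by linarith
  have hal0 : 0 < al := by linarith
  set β : ℝ := q - 1 / al with hβ
  have hβ1 : 1 < β := by
    have h1 : 1 / al ≤ 2 / (al + 1) := by
      rw [div_le_div_iff₀ hal0 (by linarith)]; linarith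
    rw [hβ]; linarith
  have hq0 : 0 < q := by
    have : 0 < 2 / (al + 1) := by positivity
    linarith
  obtain ⟨A, hA0, hA⟩ := goodA_all hn hal hA0 hq
  have hsn : 0 < Real.sqrt n := Real.sqrt_pos.2 hn0
  set s : ℝ := 1 / Real.sqrt n with hs
  have hs0 : 0 < s := by positivity
  set L : ℤ := ⌈Real.sqrt n⌉ with hL
  set S : Finset (Fin n → ℤ) := Fintype.piFinset fun _ => Finset.Icc (-L) L with hS
  set Q : ℝ := (2 * S.card) ^ q with hQ
  refine ⟨Q * A + 1, by positivity, ?_⟩
  intro δ hδ hδ1 ι _ a e he hsep hdim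
  classical
  set T : ι → Set (E n) := fun i => tube δ (a i) (e i) with hT
  have hmem : ∀ i, cell s (e i) ∈ S := by
    intro i
    rw [hS, Fintype.mem_piFinset]
    intro c
    have h1 : ‖e i c‖ ≤ ‖e i‖ := PiLp.norm_apply_le _ _
    rw [he, Real.norm_eq_abs] at h1
    have h2 : e i c / s = e i c * Real.sqrt n := by rw [hs]; field_simp
    have h3 : |e i c / s| ≤ Real.sqrt n := by
      rw [h2, abs_mul, abs_of_pos hsn]
      nlinarith
    rw [abs_le] at h3
    have h4 := Int.le_ceil (Real.sqrt n)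
    rw [Finset.mem_Icc]
    unfold cell
    constructor
    · rw [Int.le_floor]
      push_cast
      linarith
    · have h5 : (⌊e i c / s⌋ : ℝ) ≤ L := (Int.floor_le _).trans (h3.2.trans h4)
      exact_mod_cast h5
  have hpt : ∀ x, mult T x ^ q ≤ ENNReal.ofReal Q *
      ∑ c ∈ Finset.univ.image (fun i => cell s (e i)), pmult T (fun i => cell s (e i)) c x ^ q := by
    intro x
    have h1 : mult T x ≤ 2 * ∑ i, if cell s (e i) ∈ S then (T i).indicator 1 x else 0 := by
      have h2 : ∑ i, (if cell s (e i) ∈ S then (T i).indicator (1 : E n → ℝ≥0∞) x else 0) = mult T x := by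
        unfold mult
        exact Finset.sum_congr rfl fun i _ => by rw [if_pos (hmem i)]
      rw [h2, two_mul]
      exact le_self_add
    refine (conc (κ := fun i => cell s (e i)) h1 hq0).trans (le_of_eq ?_)
    congr 1
    rw [hQ, ← ENNReal.ofReal_rpow_of_nonneg (by positivity) hq0.le]
    congr 1
    rw [ENNReal.ofReal_mul (by norm_num), ENNReal.ofReal_natCast]
    norm_num
  have hI : ∀ c ∈ Finset.univ.image (fun i => cell s (e i)),
      ∫⁻ x, mult (fun i : {i // cell s (e i) = c} => tube δ (a i) (e i)) x ^ q ≤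
      ENNReal.ofReal (A * (δ ^ (n - 1) * (Fintype.card {i // cell s (e i) = c} : ℝ) ^ β)) := by
    intro c _
    exact hA _ δ hδ hδ1 (fun i : {i // cell s (e i) = c} => a i)
      (fun i : {i // cell s (e i) = c} => e i) (fun i => he i)
      (fun i j hij => hsep i j (fun h => hij (Subtype.ext h))) (fun i j => by
        refine (cell_close hs0 (i.2.trans j.2.symm)).trans (le_of_eq ?_)
        rw [hs]
        field_simp) (hdim.sub _) rfl
  have hB : ∀ c ∈ Finset.univ.image (fun i => cell s (e i)),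
      (Fintype.card {i // cell s (e i) = c} : ℝ) ≤ (Fintype.card ι : ℝ) := by
    intro c _
    exact_mod_cast Fintype.card_subtype_le _
  have h := parts_int (n := n) (δ := δ) (a := a) (e := e) (fun i => cell s (e i)) (q := q) (β := β)
    (A := A) (Q := Q) (B := (Fintype.card ι : ℝ)) (by positivity) hA0.le hβ1.le hδ
    (G := univ) (fun x _ => hpt x) MeasurableSet.univ hI hB
  rw [setLIntegral_univ] at h
  refine h.trans (ENNReal.ofReal_le_ofReal ?_)
  rcases Nat.eq_zero_or_pos (Fintype.card ι) with h0 | h0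
  · rw [h0]
    simp only [Nat.cast_zero, mul_zero]
    positivity
  · have h1 : (0 : ℝ) < Fintype.card ι := by exact_mod_cast h0
    have h2 : (Fintype.card ι : ℝ) ^ (β - 1) * Fintype.card ι = (Fintype.card ι : ℝ) ^ β := by
      nth_rewrite 2 [← Real.rpow_one (Fintype.card ι : ℝ)]
      rw [← Real.rpow_add h1]
      congr 1
      ring
    rw [h2]
    gcongr
    linarith

end Pool.Agent.Y254
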