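import Pool.Agent.Y254.CntA
import Pool.Agent.Y254.Trans
set_option autoImplicit false

/-!
# The bound for transversal sets of high multiplicity, for sets of directions of dimension `al`
-/

open MeasureTheory Set Metric
open scoped ENNReal NNReal

namespace Pool.Agent.Y254
open Pool.Agent.TH705.RR (E vb vb_pos sn sn_sq sn_nonneg sn_le_one)

variable {n : ℕ}

theorem trans_boundA (hn1 : 1 ≤ n) {al ε : ℝ} (hal : 1 < al) (hε : 0 < ε) (hε1 : ε < 1)
    (hε2 : ε ≤ al - 1) {A0 : ℝ} (hA0 : 0 ≤ A0) :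
    ∃ C : ℝ, 1 ≤ C ∧ ∀ (δ : ℝ), 0 < δ → δ < 1 → ∀ {ι : Type} [Fintype ι]
    (a e : ι → E n), (∀ i, ‖e i‖ = 1) → (∀ i j, i ≠ j → δ ≤ ‖e i - e j‖) →
    (∀ i j, ‖e i - e j‖ ≤ 1) → DimLE δ al A0 e →
    ∀ (G : Set (E n)), MeasurableSet G → ∀ (θ l h : ℝ), δ ≤ θ → 0 < l →
    0 < h → h ^ (al + 1) = δ * Fintype.card ι / (θ * l ^ 2) →
    (∀ x ∈ G, ∀ i, x ∈ tube δ (a i) (e i) → ENNReal.ofReal l ≤
      mult (fun i => tube δ (a i) (e i)) x) →
    (∀ x ∈ G, ∀ j, x ∈ tube δ (a j) (e j) → mult (fun i => tube δ (a i) (e i)) x ≤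
      2 * ∑ i, if θ ≤ ‖e i - e j‖ then (tube δ (a i) (e i)).indicator 1 x else 0) →
    ∫⁻ x in G, mult (fun i => tube δ (a i) (e i)) x ≤
      ENNReal.ofReal (C * (Fintype.card ι * δ ^ (n - 1) * h * (1 + (θ * h / δ) ^ (ε / 2)))) := by
  obtain ⟨C1, hC1, hrow⟩ := rowsumA (n := n) hal hε hε2 hA0
  have hCv := Cv_pos n
  set r : ℝ := 2 ^ (-((1 - ε) / 2)) with hr
  have hr0 : 0 < r := by positivity
  have hr1 : r < 1 := Real.rpow_lt_one_of_one_lt_of_neg (by norm_num) (by linarith)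
  have h1r : 0 < 1 - r := by linarith
  set C2 : ℝ := Cv n * (24 * Real.sqrt C1 * (1 / (1 - r))) with hC2
  refine ⟨2 * Cv n + C2 + 1, by
    have : 0 ≤ C2 := by positivity
    linarith, ?_⟩
  intro δ hδ hδ1 ι _ a e he hsep hpair hdim G hG θ l h hθ hl hh hhn hmul htrs
  classical
  set N : ℝ := (Fintype.card ι : ℝ) with hN
  have hN0 : 0 ≤ N := by positivity
  have hθ0 : 0 < θ := by linarith
  set T : ι → Set (E n) := fun i => tube δ (a i) (e i) with hT
  have hTm : ∀ i, MeasurableSet (T i) := fun i => tube_meas _ _ _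
  have hC20 : 0 ≤ C2 := by positivity
  have hfacp : 0 ≤ (θ * h / δ) ^ (ε / 2) := by positivity
  rcases lt_or_ge 1 h with hbig | hsmall
  · -- trivial bound
    calc ∫⁻ x in G, mult T x ≤ ∫⁻ x, mult T x := setLIntegral_le_lintegral _ _
      _ = ∑ i, volume (T i) := lint_mult volume hTm
      _ ≤ ∑ _i : ι, ENNReal.ofReal (Cv n * 2 * δ ^ (n - 1)) :=
          Finset.sum_le_sum fun i _ => vol_tube hn1 (he i) hδ hδ1
      _ = ENNReal.ofReal (N * (Cv n * 2 * δ ^ (n - 1))) := by
          rw [Finset.sum_const, Finset.card_univ, nsmul_eq_mul, ← ENNReal.ofReal_natCast,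
            ← ENNReal.ofReal_mul (by positivity)]
      _ ≤ _ := by
          apply ENNReal.ofReal_le_ofReal
          have h1 : 1 ≤ h * (1 + (θ * h / δ) ^ (ε / 2)) := by nlinarith
          calc N * (Cv n * 2 * δ ^ (n - 1)) = (2 * Cv n) * (N * δ ^ (n - 1) * 1) := by ring
            _ ≤ (2 * Cv n + C2 + 1) * (N * δ ^ (n - 1) * (h * (1 + (θ * h / δ) ^ (ε / 2)))) := by
                gcongr
                linarith
            _ = _ := by ring
  -- the family
  set A : ι → Set (E n) := fun i => T i ∩ G with hA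
  have hAm : ∀ i, MeasurableSet (A i) := fun i => (hTm i).inter hG
  have hmA : ∀ x ∈ G, mult A x = mult T x := by
    intro x hx
    unfold mult
    refine Finset.sum_congr rfl fun i _ => ?_
    by_cases h1 : x ∈ T i
    · rw [indicator_of_mem h1, indicator_of_mem (show x ∈ A i from ⟨h1, hx⟩)]
    · rw [indicator_of_notMem h1, indicator_of_notMem (show x ∉ A i from fun hh => h1 hh.1)]
  have hmA0 : ∀ x, x ∉ G → mult A x = 0 := by
    intro x hx
    unfold mult
    exact Finset.sum_eq_zero fun i _ => indicator_of_notMem (fun hh => hx hh.2) _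
  have hint : ∫⁻ x, mult A x = ∫⁻ x in G, mult T x := by
    rw [← lintegral_indicator hG]
    apply lintegral_congr
    intro x
    by_cases hx : x ∈ G
    · rw [indicator_of_mem hx, hmA x hx]
    · rw [indicator_of_notMem hx, hmA0 x hx]
  set far : Set (E n × E n) := {p | h ≤ ‖p.2 - p.1‖} with hfar
  have hfarm : MeasurableSet far := by
    apply IsClosed.measurableSet
    exact isClosed_le continuous_const (by fun_prop)
  obtain ⟨K, hK⟩ : ∃ K : ℕ, 1 < 2 ^ K * θ := by
    obtain ⟨K, hK⟩ := pow_unbounded_of_one_lt (1 / θ) (by norm_num : (1 : ℝ) < 2)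
    exact ⟨K, by rwa [div_lt_iff₀ hθ0] at hK⟩
  set Cls : ℕ → ι → ι → Prop := fun k i j => 2 ^ k * θ ≤ ‖e i - e j‖ ∧ ‖e i - e j‖ < 2 ^ (k + 1) * θ with hCls
  have hcls : ∀ i j, θ ≤ ‖e i - e j‖ → ∃ k < K, Cls k i j := by
    intro i j hij
    obtain ⟨k, hk1, hk2⟩ := exists_nat_pow_near (x := ‖e i - e j‖ / θ) (y := (2 : ℝ)) (by
      rw [le_div_iff₀ hθ0]; linarith) (by norm_num)
    rw [le_div_iff₀ hθ0] at hk1
    rw [div_lt_iff₀ hθ0] at hk2
    refine ⟨k, ?_, hk1, hk2⟩
    by_contra hcon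
    rw [not_lt] at hcon
    have h1 : (2 : ℝ) ^ K ≤ 2 ^ k := pow_le_pow_right₀ (by norm_num) hcon
    have h2 := hpair i j
    nlinarith
  set b : ℕ → ℝ := fun k => Cv n * 12 * (δ / (2 ^ k * θ)) * δ ^ (n - 1) with hb
  set R : ℕ → ℝ := fun k => Cv n * 12 * δ ^ (n - 1) * (C1 * (h ^ (-(al - 1)) *
    (2 ^ k * θ * h / δ) ^ ε)) with hR
  have hpairvol : ∀ j l', volume (A j ∩ A l') ≤
      ENNReal.ofReal (Cv n * 12 * δ ^ (n - 1) * (δ / max ‖e j - e l'‖ δ)) := by
    intro j l'
    have hsub : A j ∩ A l' ⊆ T j ∩ T l' := fun x hx => ⟨hx.1.1, hx.2.1⟩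
    by_cases hjl : j = l'
    · subst hjl
      refine (measure_mono (hsub.trans inter_subset_left)).trans
        ((vol_tube hn1 (he j) hδ hδ1).trans (ENNReal.ofReal_le_ofReal ?_))
      rw [sub_self, norm_zero, max_eq_right hδ.le, div_self hδ.ne', mul_one]
      have : 0 ≤ Cv n * δ ^ (n - 1) := by positivity
      nlinarith
    · have h1 := hsep j l' hjl
      refine (measure_mono hsub).trans ((vol_inter' hn1 hδ (he j) (he l') (hpair j l')
        (by linarith)).trans (le_of_eq ?_))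
      rw [max_eq_left h1]
      congr 1
      ring
  have key := hair (m := volume) (A := A) (far := far) hAm hfarm (fun i => by
      refine ne_top_of_le_ne_top ?_ ((measure_mono (inter_subset_left : A i ⊆ T i)).trans
        (vol_tube hn1 (he i) hδ hδ1))
      exact ENNReal.ofReal_ne_top) (l := l) (κ := Cv n * h * δ ^ (n - 1)) hl (by positivity)
    (fun x i hx => by
      rw [hmA x hx.2]
      exact hmul x hx.2 i hx.1)
    (fun x j => by
      refine le_trans (measure_mono ?_) (vol_near hn1 (a := a j) (he j) hδ hh x)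
      rintro y ⟨hy1, hy2⟩
      refine ⟨hy1.1, ?_⟩
      have : ¬ (h ≤ ‖y - x‖) := hy2
      linarith)
    K Cls
    (fun x j hx => by
      rw [hmA x hx.2]
      refine (htrs x hx.2 j hx.1).trans ?_
      gcongr with i _
      by_cases h1 : θ ≤ ‖e i - e j‖
      · rw [if_pos h1, if_pos (hcls i j h1)]
        by_cases h2 : x ∈ T i
        · rw [indicator_of_mem h2, indicator_of_mem (show x ∈ A i from ⟨h2, hx.2⟩)]
        · rw [indicator_of_notMem h2]; exact zero_le
      · rw [if_neg h1]; exact zero_le)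
    b R (fun k => by positivity) (fun k => by positivity)
    (fun k _ i j hc => by
      refine (hpairvol i j).trans (ENNReal.ofReal_le_ofReal ?_)
      have h1 : 0 < 2 ^ k * θ := by positivity
      have h2 : δ / max ‖e i - e j‖ δ ≤ δ / (2 ^ k * θ) := by
        gcongr
        exact hc.1.trans (le_max_left _ _)
      calc Cv n * 12 * δ ^ (n - 1) * (δ / max ‖e i - e j‖ δ)
          ≤ Cv n * 12 * δ ^ (n - 1) * (δ / (2 ^ k * θ)) := by gcongr
        _ = _ := by rw [hb]; ring)
    (fun k _ i j hc => by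
      have hα : δ ≤ 2 ^ k * θ := by
        have : (1 : ℝ) ≤ 2 ^ k := one_le_pow₀ (by norm_num)
        nlinarith
      have hij : 0 < ‖e i - e j‖ := by
        have := hc.1
        linarith
      have hsn : 0 < sn (e j) (e i) := by
        have h1 := sn_ge (he j) (he i) (hpair j i)
        rw [norm_sub_rev] at h1
        linarith
      set J : Finset ι := Finset.univ.filter (fun l' => Cls k i l' ∧ Brush A far i j l') with hJ
      have h1 := hrow δ hδ hδ1 e he hdim (e j) (dirn (e j) (e i)) (he j)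
        (dirn_norm (he j) (he i) hsn) (dirn_inner (he j)) J (2 ^ k * θ) h hα hh hsmall (by
          intro l' hl'
          obtain ⟨hc', hB⟩ := (Finset.mem_filter.1 hl').2
          refine ⟨hpair j l', ?_, ?_⟩
          · have h2 : e j - e l' = (e i - e l') - (e i - e j) := by abel
            rw [h2]
            refine (norm_sub_le _ _).trans ?_
            have h3 := hc.2
            have h4 := hc'.2
            rw [pow_succ] at h3 h4
            linarith
          · obtain ⟨y, hy, ⟨x, hx, hxy⟩, ⟨x'', hx'', hxy''⟩⟩ := hB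
            exact coplanar hδ (he i) (he j) (he l') hsn ⟨hx.1.1, hx.2.1⟩ ⟨hx''.1.1, hx''.2.1⟩
              ⟨hy.1.1, hy.2.1⟩ hxy'')
      rw [← Finset.sum_filter]
      calc ∑ l' ∈ J, volume (A j ∩ A l')
          ≤ ∑ l' ∈ J, ENNReal.ofReal (Cv n * 12 * δ ^ (n - 1) * (δ / max ‖e j - e l'‖ δ)) :=
            Finset.sum_le_sum fun l' _ => hpairvol j l'
        _ = ENNReal.ofReal (Cv n * 12 * δ ^ (n - 1) * ∑ l' ∈ J, (δ / max ‖e j - e l'‖ δ)) := by
            rw [Finset.mul_sum, ENNReal.ofReal_sum_of_nonneg]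
            intro l' _
            positivity
        _ ≤ _ := by
            apply ENNReal.ofReal_le_ofReal
            rw [hR]
            simp only
            gcongr)
  rw [hint] at key
  refine key.trans (ENNReal.ofReal_le_ofReal ?_)
  -- the arithmetic
  set B : ℝ := N * ((Cv n * 12) ^ 2 * C1 * (δ ^ (n - 1)) ^ 2 * (δ / θ) * (h ^ (-(al - 1)) *
    (θ * h / δ) ^ ε)) with hB
  have hterm : ∀ k, N * (R k * b k) = B * (r ^ 2) ^ k := by
    intro k
    have e1 : (2 ^ k * θ * h / δ) ^ ε = ((2 : ℝ) ^ ε) ^ k * (θ * h / δ) ^ ε := by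
      have : (2 : ℝ) ^ k * θ * h / δ = 2 ^ k * (θ * h / δ) := by ring
      rw [this, Real.mul_rpow (by positivity) (by positivity), ← Real.rpow_natCast,
        ← Real.rpow_natCast, ← Real.rpow_mul (by norm_num), ← Real.rpow_mul (by norm_num), mul_comm ε]
    have e2 : r ^ 2 = 2 ^ ε * (2 : ℝ)⁻¹ := by
      rw [hr, ← Real.rpow_natCast, ← Real.rpow_mul (by norm_num), ← Real.rpow_neg_one,
        ← Real.rpow_add (by norm_num)]
      congr 1
      push_cast
      ring
    have e3 : δ / (2 ^ k * θ) = ((2 : ℝ)⁻¹) ^ k * (δ / θ) := by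
      rw [inv_pow]
      field_simp
    rw [hR, hb, hB]
    simp only
    rw [e1, e2, e3, mul_pow]
    ring
  have hsum : ∑ k ∈ Finset.range K, Real.sqrt (N * (R k * b k)) ≤ Real.sqrt B * (1 / (1 - r)) := by
    rw [Finset.sum_congr rfl fun k _ => by rw [hterm k]]
    exact geo_sqrt hr0.le hr1 K
  have hNh : N * (δ / θ) = l ^ 2 * h ^ (al + 1) := by
    rw [hhn]
    field_simp
  have hBs : Real.sqrt B = Cv n * 12 * Real.sqrt C1 * δ ^ (n - 1) * l * h * (θ * h / δ) ^ (ε / 2) := by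
    have e1 : B = (Cv n * 12 * Real.sqrt C1 * δ ^ (n - 1) * l * h * (θ * h / δ) ^ (ε / 2)) ^ 2 := by
      have e2 : ((θ * h / δ) ^ (ε / 2)) ^ 2 = (θ * h / δ) ^ ε := by
        rw [← Real.rpow_natCast, ← Real.rpow_mul (by positivity)]
        congr 1
        push_cast
        ring
      have e3 : h ^ (al + 1) * h ^ (-(al - 1)) = h ^ 2 := by
        rw [← Real.rpow_natCast, ← Real.rpow_add hh]
        congr 1
        push_cast
        ring
      calc B = (Cv n * 12) ^ 2 * C1 * (δ ^ (n - 1)) ^ 2 * (N * (δ / θ)) * (h ^ (-(al - 1)) *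
            (θ * h / δ) ^ ε) := by rw [hB]; ring
        _ = (Cv n * 12) ^ 2 * C1 * (δ ^ (n - 1)) ^ 2 * l ^ 2 * (h ^ (al + 1) * h ^ (-(al - 1))) *
            (θ * h / δ) ^ ε := by rw [hNh]; ring
        _ = _ := by
            rw [e3, ← e2, mul_pow, mul_pow, mul_pow, mul_pow, mul_pow, mul_pow, Real.sq_sqrt (by linarith)]
            ring
    rw [e1, Real.sqrt_sq (by positivity)]
  have h2 : 2 / l * ∑ k ∈ Finset.range K, Real.sqrt (N * (R k * b k)) ≤
      C2 * (δ ^ (n - 1) * h * (θ * h / δ) ^ (ε / 2)) := by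
    calc 2 / l * ∑ k ∈ Finset.range K, Real.sqrt (N * (R k * b k))
        ≤ 2 / l * (Real.sqrt B * (1 / (1 - r))) := by gcongr
      _ = C2 * (δ ^ (n - 1) * h * (θ * h / δ) ^ (ε / 2)) := by
          rw [hBs, hC2]
          field_simp
          ring
  calc N * (Cv n * h * δ ^ (n - 1) + 2 / l * ∑ k ∈ Finset.range K, Real.sqrt (N * (R k * b k)))
      ≤ N * (Cv n * h * δ ^ (n - 1) + C2 * (δ ^ (n - 1) * h * (θ * h / δ) ^ (ε / 2))) := by
        gcongr
    _ = Cv n * (N * δ ^ (n - 1) * h * 1) + C2 * (N * δ ^ (n - 1) * h * (θ * h / δ) ^ (ε / 2)) := by ring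
    _ ≤ (2 * Cv n + C2 + 1) * (N * δ ^ (n - 1) * h * 1) +
        (2 * Cv n + C2 + 1) * (N * δ ^ (n - 1) * h * (θ * h / δ) ^ (ε / 2)) := by
        gcongr
        · linarith
        · linarith
    _ = _ := by ring

end Pool.Agent.Y254
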